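import Pool.Agent.SM1.St

set_option autoImplicit false

open Matrix Pool.Agent.Lib25 Pool.Agent.KM

noncomputable section

namespace Pool.Agent.SM1

universe u v w

theorem t_ABT : S_ABT.{u, v} := by
  intro S _ V _ D B hmul cyc hD e t t' he ht ht'
  have B1 : ∀ x, B x 1 = 0 := by
    intro x
    have h := cyc x 1 1
    rw [mul_one, mul_one, one_mul] at h
    exact left_eq_add.1 h
  have D1 : D 1 = 0 := by
    have h := hmul 1 1
    rw [mul_one, mul_one, one_mul] at h
    exact left_eq_add.1 h
  have hinv : ∀ y, B y t' = -B (t' * y * t') t := by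
    intro y
    have h := cyc (y * t') t t'
    rw [ht, B1, mul_assoc y t' t, ht', mul_one, ← mul_assoc t' y t'] at h
    exact eq_neg_of_add_eq_zero_left h.symm
  obtain ⟨X, hX⟩ : ∃ X, X = t' * D t := ⟨_, rfl⟩
  obtain ⟨a, ha⟩ : ∃ a, a = D e := ⟨_, rfl⟩
  have hDt : D t = t * X := by rw [hX, ← mul_assoc, ht, one_mul]
  have hDt' : D t' = -(X * t') := by
    have h := hmul t' t
    rw [ht', D1, ← hX] at h
    have h2 : D t' * t * t' + X * t' = 0 := by rw [← add_mul, ← h, zero_mul]
    rw [mul_assoc, ht, mul_one] at h2
    exact eq_neg_of_add_eq_zero_left h2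
  have hae : a = a * e + e * a := by
    have h := hmul e e
    rw [he, ← ha] at h
    exact h
  have heae : e * a * e = 0 := by
    have h : e * a * e = e * (a * e + e * a) * e := by rw [← hae]
    have h2 : e * (a * e + e * a) * e = e * a * (e * e) + (e * e) * a * e := by noncomm_ring
    rw [h2, he] at h
    exact left_eq_add.1 h
  -- products of conjugates
  have hconj : ∀ x y, (t * x * t') * (t * y * t') = t * (x * y) * t' := by
    intro x y
    rw [show t * x * t' * (t * y * t') = t * x * (t' * t) * y * t' by noncomm_ring, ht', mul_one]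
    noncomm_ring
  have hDE : D (t * e * t') = t * (a + X * e - e * X) * t' := by
    rw [hmul, hmul, hDt, hDt', ← ha]
    noncomm_ring
  obtain ⟨z, hz⟩ : ∃ z, z = a + X * e - e * X := ⟨_, rfl⟩
  rw [hDE, ← hz, hconj, hconj, ← sub_mul, ← mul_sub, ← ha]
  -- the value on conjugates
  have hB : ∀ y, B (t * y * t') (t * e * t') = B y e + B (e * y * t') t - B (y * e * t') t := by
    intro y
    have h1 := cyc (t * y * t') (t * e) t'
    have h2 := cyc (y * t') t e
    rw [show t * y * t' * (t * e) = t * y * (t' * t) * e by noncomm_ring, ht', mul_one,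
      show t' * (t * y * t') = (t' * t) * y * t' by noncomm_ring, ht', one_mul, hinv,
      show t' * (t * y * e) * t' = (t' * t) * y * e * t' by noncomm_ring, ht', one_mul] at h1
    rw [mul_assoc y t' t, ht', mul_one, ← mul_assoc e y t'] at h2
    rw [h1, h2]
    abel
  rw [hB]
  -- computations with `e`
  have heze : e * z * e = 0 := by
    rw [hz, show e * (a + X * e - e * X) * e = e * a * e + e * X * (e * e) - (e * e) * X * e by
      noncomm_ring, he, heae]
    abel
  have q1 : e * (z * e - e * z) = -(e * z) := by
    rw [show e * (z * e - e * z) = e * z * e - (e * e) * z by noncomm_ring, heze, he, zero_sub]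
  have q2 : (z * e - e * z) * e = z * e := by
    rw [show (z * e - e * z) * e = z * (e * e) - e * z * e by noncomm_ring, heze, he, sub_zero]
  have q3 : z * e - e * z = (a * e - e * a) + (X * e + e * X) - (e * X * e + e * X * e) := by
    rw [hz, show (a + X * e - e * X) * e - e * (a + X * e - e * X) =
      a * e - e * a + (X * (e * e) + (e * e) * X) - (e * X * e + e * X * e) by noncomm_ring, he]
  have q4 : z * e + e * z = a + X * e - e * X := by
    rw [hz, show (a + X * e - e * X) * e + e * (a + X * e - e * X) =
      (a * e + e * a) + X * (e * e) - (e * e) * X by noncomm_ring, he, ← hae]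
  have hee : ∀ x, B x e = B (x * e) e + B (e * x) e := by
    intro x
    have h := cyc x e e
    rwa [he] at h
  have heXe : B (e * X * e) e = 0 := by
    have h := hee (e * X * e)
    rw [mul_assoc (e * X) e e, he, show e * (e * X * e) = (e * e) * X * e by noncomm_ring, he] at h
    exact left_eq_add.1 h
  have r1 : B (z * e - e * z) e = B (a * e - e * a) e + B X e := by
    rw [q3, map_sub, map_add, map_add, map_add, AddMonoidHom.sub_apply, AddMonoidHom.add_apply,
      AddMonoidHom.add_apply, AddMonoidHom.add_apply, heXe, hee X]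
    abel
  have r2 : B (e * (z * e - e * z) * t') t - B ((z * e - e * z) * e * t') t =
      -B ((a + X * e - e * X) * t') t := by
    rw [q1, q2, ← q4, neg_mul, add_mul, map_neg, map_add, AddMonoidHom.neg_apply,
      AddMonoidHom.add_apply]
    abel
  have r3 : B 1 (e * t' * D t) = B X e - B ((a + X * e - e * X) * t') t := by
    have h1 := cyc 1 (e * t') (D t)
    rw [one_mul, mul_one] at h1
    have h2 := hD (e * t') t
    rw [hmul, hDt', ← ha] at h2
    have h3 := cyc (D t) e t'
    rw [hinv, ← hX, show t' * (D t * e) * t' = t' * D t * e * t' by noncomm_ring, ← hX] at h3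
    rw [h1, h3, eq_neg_of_add_eq_zero_right h2]
    have e1 : a * t' + e * -(X * t') = a * t' - e * X * t' := by noncomm_ring
    have e2 : (a + X * e - e * X) * t' = a * t' + X * e * t' - e * X * t' := by noncomm_ring
    rw [e1, e2, map_sub, map_sub, map_add, AddMonoidHom.sub_apply, AddMonoidHom.sub_apply,
      AddMonoidHom.add_apply]
    abel
  rw [r3, r1, sub_eq_iff_eq_add.1 r2]
  abel

end Pool.Agent.SM1
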