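import Pool.Agent.SM1.St

/-!
# ADD: block sums, the zero and identity matrices
-/

set_option autoImplicit false
set_option linter.unusedSectionVars false

open Matrix Pool.Agent.Lib25 Pool.Agent.KM

noncomputable section

namespace Pool.Agent.SM1

universe u v w

namespace ADD

variable {A : Type v} [CommRing A] {G : Type u} [Group G] {p : ℕ} {ι κ : Type w} [Fintype ι]
  [DecidableEq ι] [Fintype κ] [DecidableEq κ]

theorem map_blocks {R S : Type*} [Zero R] [Zero S] (φ : R → S) (h0 : φ 0 = 0) (e : Matrix ι ι R)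
    (f : Matrix κ κ R) :
    (Matrix.fromBlocks e 0 0 f).map φ = Matrix.fromBlocks (e.map φ) 0 0 (f.map φ) := by
  rw [Matrix.fromBlocks_map, Matrix.map_zero _ h0, Matrix.map_zero _ h0]

theorem mul_blocks {R : Type*} [Semiring R] (e e' : Matrix ι ι R) (f f' : Matrix κ κ R) :
    Matrix.fromBlocks e 0 0 f * Matrix.fromBlocks e' 0 0 f' =
      Matrix.fromBlocks (e * e') 0 0 (f * f') := by
  rw [Matrix.fromBlocks_multiply]
  simp

theorem trace_blocks {R : Type*} [Semiring R] (e : Matrix ι ι R) (f : Matrix κ κ R) :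
    Matrix.trace (Matrix.fromBlocks e 0 0 f) = Matrix.trace e + Matrix.trace f := by
  unfold Matrix.trace
  rw [Fintype.sum_sum_type]
  rfl

theorem add_blocks {R : Type*} [Semiring R] (e e' : Matrix ι ι R) (f f' : Matrix κ κ R) :
    Matrix.fromBlocks e 0 0 f + Matrix.fromBlocks e' 0 0 f' =
      Matrix.fromBlocks (e + e') 0 0 (f + f') := by
  rw [Matrix.fromBlocks_add]
  simp

theorem one_sub_blocks {R : Type*} [Ring R] (e : Matrix ι ι R) (f : Matrix κ κ R) :
    1 - Matrix.fromBlocks e 0 0 f = Matrix.fromBlocks (1 - e) 0 0 (1 - f) := by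
  rw [← Matrix.fromBlocks_one, sub_eq_add_neg, Matrix.fromBlocks_neg, Matrix.fromBlocks_add]
  simp [sub_eq_add_neg]

theorem th_blocks (q : G →* Cy p) (e : Matrix ι ι (LG A G)) (f : Matrix κ κ (LG A G)) :
    th q (Matrix.fromBlocks e 0 0 f) = Matrix.fromBlocks (th q e) 0 0 (th q f) := by
  unfold th E0 E1
  rw [map_blocks _ (map_zero _), map_blocks _ (map_zero _), mul_blocks, one_sub_blocks,
    one_sub_blocks, mul_blocks, add_blocks]

theorem inv_of {R : Type*} [Ring R] {a b : R} (h1 : a * b = 1) (h2 : b * a = 1) :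
    Ring.inverse a = b := by
  have := Ring.inverse_unit (⟨a, b, h1, h2⟩ : Rˣ)
  exact this

theorem th_one (q : G →* Cy p) : th q (1 : Matrix ι ι (LG A G)) = 1 := by
  unfold th E0 E1
  rw [Matrix.map_one _ (map_zero _) (map_one _), Matrix.map_one _ (map_zero _) (map_one _)]
  simp

theorem E0_blocks (e : Matrix ι ι (LG A G)) (f : Matrix κ κ (LG A G)) :
    E0 p (Matrix.fromBlocks e 0 0 f) = Matrix.fromBlocks (E0 p e) 0 0 (E0 p f) :=
  map_blocks _ (map_zero _) e f

end ADD

open ADD in
/-- ADD -/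
theorem t_ADD (hU : S_UNI.{u, w}) : S_ADD.{u, w} := by
  intro G _ p K hp q ι κ _ _ _ _ e f he hf g
  obtain ⟨-, h1, h2, -, -⟩ := hU (K := K) hp q e he
  obtain ⟨-, k1, k2, -, -⟩ := hU (K := K) hp q f hf
  constructor
  · have hi : Ring.inverse (th q (Matrix.fromBlocks e 0 0 f)) =
        Matrix.fromBlocks (Ring.inverse (th q e)) 0 0 (Ring.inverse (th q f)) := by
      apply inv_of
      · rw [th_blocks, mul_blocks, h1, k1, Matrix.fromBlocks_one]
      · rw [th_blocks, mul_blocks, h2, k2, Matrix.fromBlocks_one]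
    unfold rg OM
    rw [hi, th_blocks, map_blocks _ (map_zero _), E0_blocks, mul_blocks,
      mul_blocks, trace_blocks, map_add]
  · unfold rg OM
    rw [th_one, Lib25.map_DL_one, mul_zero, Matrix.trace_zero, map_zero]

end Pool.Agent.SM1
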