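import Pool.Agent.SM1.St

/-!
# SM1, module CMP: equivalent idempotents
-/

set_option autoImplicit false
set_option linter.unusedSectionVars false

open Matrix Pool.Agent.Lib25 Pool.Agent.KM

noncomputable section

namespace Pool.Agent.SM1

universe u v w

namespace CMP

section abs

variable {A : Type*} [CommRing A] {Γ : Type*} [Group Γ] {ι κ : Type*} [Fintype ι] [DecidableEq ι]
  [Fintype κ] [DecidableEq κ]

/-- The trace functional. -/
def tt (γ : Γ) (X : Matrix ι ι (LG A Γ)) : A := tauL γ (Matrix.trace X)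

theorem tt_add (γ : Γ) (X Y : Matrix ι ι (LG A Γ)) : tt γ (X + Y) = tt γ X + tt γ Y := by
  rw [tt, Matrix.trace_add, map_add]
  rfl

theorem tt_sub (γ : Γ) (X Y : Matrix ι ι (LG A Γ)) : tt γ (X - Y) = tt γ X - tt γ Y := by
  rw [tt, Matrix.trace_sub, map_sub]
  rfl

theorem tt_neg (γ : Γ) (X : Matrix ι ι (LG A Γ)) : tt γ (-X) = -tt γ X := by
  rw [tt, Matrix.trace_neg, map_neg]
  rfl

theorem tt_zero (γ : Γ) : tt γ (0 : Matrix ι ι (LG A Γ)) = 0 := by
  rw [tt, Matrix.trace_zero, map_zero]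

theorem tt_comm (γ : Γ) (X : Matrix ι κ (LG A Γ)) (Y : Matrix κ ι (LG A Γ)) :
    tt γ (X * Y) = tt γ (Y * X) :=
  trace_comm_of_tracial (tauL γ) (tauL_mul_comm γ) X Y

/-- The derivation on matrices. -/
abbrev dd {m n : Type*} (X : Matrix m n (LG A Γ)) : Matrix m n (LG A Γ) := X.map DL

theorem dd_mul {m n o : Type*} [Fintype n] (X : Matrix m n (LG A Γ)) (Y : Matrix n o (LG A Γ)) :
    dd (X * Y) = dd X * Y + X * dd Y := by
  ext i j
  simp only [Matrix.map_apply, Matrix.mul_apply, Matrix.add_apply, map_sum, DL_mul,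
    Finset.sum_add_distrib]

theorem dd_add {m n : Type*} (X Y : Matrix m n (LG A Γ)) : dd (X + Y) = dd X + dd Y := by
  ext i j
  simp [Matrix.map_apply]

theorem dd_sub {m n : Type*} (X Y : Matrix m n (LG A Γ)) : dd (X - Y) = dd X - dd Y := by
  ext i j
  simp [Matrix.map_apply]

theorem dd_one : dd (1 : Matrix ι ι (LG A Γ)) = 0 := by
  have h := dd_mul (1 : Matrix ι ι (LG A Γ)) (1 : Matrix ι ι (LG A Γ))
  rw [Matrix.mul_one, Matrix.mul_one, Matrix.one_mul] at h
  exact left_eq_add.1 h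

/-- `e De e = 0` -/
theorem idem (e : Matrix ι ι (LG A Γ)) (he : e * e = e) : e * dd e * e = 0 := by
  have h := dd_mul e e
  rw [he] at h
  have h2 : e * dd e * e = e * dd e * e + e * dd e * e := by
    calc e * dd e * e = e * (dd e * e + e * dd e) * e := by rw [← h]
      _ = e * dd e * (e * e) + (e * e) * dd e * e := by
        simp only [Matrix.mul_add, Matrix.add_mul, Matrix.mul_assoc]
      _ = _ := by rw [he]
  exact left_eq_add.1 h2

theorem corner (γ : Γ) (e c : Matrix ι ι (LG A Γ)) (he : e * e = e) (h1 : c * e = c)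
    (h2 : e * c = c) : tt γ ((1 - e) * dd c) = 0 := by
  have h := dd_mul c e
  rw [h1] at h
  have h3 : (1 - e) * c = 0 := by rw [Matrix.sub_mul, Matrix.one_mul, h2, sub_self]
  have h4 : e * (1 - e) = 0 := by rw [Matrix.mul_sub, Matrix.mul_one, he, sub_self]
  rw [h, Matrix.mul_add, ← Matrix.mul_assoc, ← Matrix.mul_assoc, h3, Matrix.zero_mul, add_zero,
    tt_comm, ← Matrix.mul_assoc, h4, Matrix.zero_mul, tt_zero]

theorem red0 (γ : Γ) (e c c' : Matrix ι ι (LG A Γ)) (he : e * e = e) (h1 : c * e = c)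
    (h2 : e * c = c) (h3 : c' * e = c') (h4 : e * c' = c') :
    tt γ ((c' + (1 - e)) * dd (c + (1 - e))) = tt γ (c' * dd c) := by
  have h5 : tt γ (c' * dd e) = 0 := by
    have h6 : c' * dd e = e * (c' * (e * dd e)) := by
      rw [← Matrix.mul_assoc c' e, h3, ← Matrix.mul_assoc, h4]
    rw [h6, tt_comm, Matrix.mul_assoc, idem e he, Matrix.mul_zero, tt_zero]
  have h7 : dd (c + (1 - e)) = dd c - dd e := by
    rw [dd_add, dd_sub, dd_one, zero_sub, sub_eq_add_neg]
  rw [h7, Matrix.add_mul, Matrix.mul_sub, Matrix.mul_sub, tt_add, tt_sub, tt_sub, h5,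
    corner γ e c he h1 h2, corner γ e e he he he, sub_zero, sub_zero, add_zero]

theorem main (γ : Γ) (e₀ e₁ θ θi : Matrix ι ι (LG A Γ)) (f₀ f₁ η ηi : Matrix κ κ (LG A Γ))
    (α₀ α₁ : Matrix ι κ (LG A Γ)) (β₀ β₁ : Matrix κ ι (LG A Γ))
    (hαβ₀ : α₀ * β₀ = e₀) (hαβ₁ : α₁ * β₁ = e₁) (hβα₀ : β₀ * α₀ = f₀)
    (he₀ : e₀ * e₀ = e₀) (heα₀ : e₀ * α₀ = α₀) (heα₁ : e₁ * α₁ = α₁) (hβe₀ : β₀ * e₀ = β₀)
    (hθ : θ * θi = 1) (hθ' : θi * θ = 1) (hη : η * ηi = 1) (hη' : ηi * η = 1)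
    (hc : e₁ * θ = θ * e₀) :
    tt γ ((η * β₀ * θi * α₁) * dd (β₁ * θ * α₀ * ηi)) =
      tt γ (α₁ * dd β₁) + tt γ (e₀ * θi * dd θ) + tt γ (β₀ * dd α₀) -
        tt γ (f₀ * ηi * dd η) := by
  have hc' : θi * e₁ = e₀ * θi := by
    calc θi * e₁ = θi * e₁ * (θ * θi) := by rw [hθ, Matrix.mul_one]
      _ = θi * (e₁ * θ) * θi := by simp only [Matrix.mul_assoc]
      _ = (θi * θ) * e₀ * θi := by rw [hc]; simp only [Matrix.mul_assoc]
      _ = e₀ * θi := by rw [hθ', Matrix.one_mul]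
  have hce : θ * e₀ * θi = e₁ := by
    rw [← hc, Matrix.mul_assoc, hθ, Matrix.mul_one]
  -- the derivative of the inverse
  have hdi : dd ηi * η = -(ηi * dd η) := by
    have h := dd_mul ηi η
    rw [hη', dd_one] at h
    exact eq_neg_of_add_eq_zero_left h.symm
  have hD : dd (β₁ * θ * α₀ * ηi) = dd β₁ * θ * α₀ * ηi + β₁ * dd θ * α₀ * ηi +
      β₁ * θ * dd α₀ * ηi + β₁ * θ * α₀ * dd ηi := by
    rw [dd_mul, dd_mul, dd_mul]
    simp only [Matrix.add_mul]
  have cyc : ∀ Y : Matrix κ κ (LG A Γ), tt γ (η * Y * ηi) = tt γ Y := by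
    intro Y
    rw [Matrix.mul_assoc, tt_comm, Matrix.mul_assoc, hη', Matrix.mul_one]
  have h1 : tt γ ((η * β₀ * θi * α₁) * (dd β₁ * θ * α₀ * ηi)) = tt γ (α₁ * dd β₁) := by
    have h2 : (η * β₀ * θi * α₁) * (dd β₁ * θ * α₀ * ηi) =
        η * ((β₀ * θi) * (α₁ * dd β₁ * θ * α₀)) * ηi := by simp only [Matrix.mul_assoc]
    rw [h2, cyc, tt_comm]
    have h3 : α₁ * dd β₁ * θ * α₀ * (β₀ * θi) = α₁ * dd β₁ * e₁ := by
      rw [← hce, ← hαβ₀]
      simp only [Matrix.mul_assoc]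
    rw [h3, tt_comm, ← Matrix.mul_assoc, heα₁]
  have h2 : tt γ ((η * β₀ * θi * α₁) * (β₁ * dd θ * α₀ * ηi)) = tt γ (e₀ * θi * dd θ) := by
    have h3 : (η * β₀ * θi * α₁) * (β₁ * dd θ * α₀ * ηi) =
        η * ((β₀ * (θi * (α₁ * β₁)) * dd θ) * α₀) * ηi := by simp only [Matrix.mul_assoc]
    rw [h3, cyc, tt_comm, hαβ₁, hc']
    have h4 : α₀ * (β₀ * (e₀ * θi) * dd θ) = e₀ * θi * dd θ := by
      calc α₀ * (β₀ * (e₀ * θi) * dd θ) = (α₀ * β₀) * e₀ * θi * dd θ := by
            simp only [Matrix.mul_assoc]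
        _ = _ := by rw [hαβ₀, he₀]
    rw [h4]
  have h3 : tt γ ((η * β₀ * θi * α₁) * (β₁ * θ * dd α₀ * ηi)) = tt γ (β₀ * dd α₀) := by
    have h4 : (η * β₀ * θi * α₁) * (β₁ * θ * dd α₀ * ηi) =
        η * (β₀ * (θi * (α₁ * β₁)) * θ * dd α₀) * ηi := by simp only [Matrix.mul_assoc]
    rw [h4, cyc, hαβ₁, hc']
    have h5 : β₀ * (e₀ * θi) * θ * dd α₀ = (β₀ * e₀) * (θi * θ) * dd α₀ := by
      simp only [Matrix.mul_assoc]
    rw [h5, hβe₀, hθ', Matrix.mul_one]
  have h4 : tt γ ((η * β₀ * θi * α₁) * (β₁ * θ * α₀ * dd ηi)) = -tt γ (f₀ * ηi * dd η) := by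
    have h5 : (η * β₀ * θi * α₁) * (β₁ * θ * α₀ * dd ηi) =
        η * (β₀ * (θi * (α₁ * β₁)) * θ * α₀ * dd ηi) := by simp only [Matrix.mul_assoc]
    rw [h5, tt_comm, hαβ₁, hc']
    have h6 : β₀ * (e₀ * θi) * θ * α₀ * dd ηi * η = (β₀ * e₀) * (θi * θ) * α₀ * (dd ηi * η) := by
      simp only [Matrix.mul_assoc]
    rw [h6, hβe₀, hθ', Matrix.mul_one, hβα₀, hdi, Matrix.mul_neg, tt_neg, Matrix.mul_assoc]
  rw [hD, Matrix.mul_add, Matrix.mul_add, Matrix.mul_add, tt_add, tt_add, tt_add, h1, h2, h3, h4,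
    sub_eq_add_neg]

end abs

section img

variable {A : Type*} [CommRing A] {G : Type*} [Group G] {p : ℕ}

theorem tau_i1 (q : G →* Cy p) (g : G) (z : MonoidAlgebra A G) :
    tau (g, q g) (i1 A q z) = tau g z := by
  classical
  induction z using MonoidAlgebra.induction_linear with
  | zero => simp
  | add a b ha hb => rw [map_add, map_add, map_add, ha, hb]
  | single h r =>
    rw [i1, cgm_single, tau_single, tau_single]
    have hiff : IsConj (((MonoidHom.id G).prod q) h) (g, q g) ↔ IsConj h g := by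
      rw [isConj_iff, isConj_iff]
      constructor
      · rintro ⟨⟨a, b⟩, hab⟩
        exact ⟨a, congrArg Prod.fst hab⟩
      · rintro ⟨a, rfl⟩
        refine ⟨(a, 1), ?_⟩
        ext
        · rfl
        · simp [mul_comm]
    by_cases H : IsConj h g
    · rw [if_pos (hiff.2 H), if_pos H]
      rfl
    · rw [if_neg (fun H' => H (hiff.1 H')), if_neg H]

theorem tau_i0 (q : G →* Cy p) (g : G) (hg : q g ≠ 1) (z : MonoidAlgebra A G) :
    tau (g, q g) (i0 A G p z) = 0 := by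
  classical
  induction z using MonoidAlgebra.induction_linear with
  | zero => simp
  | add a b ha hb => rw [map_add, map_add, ha, hb, add_zero]
  | single h r =>
    rw [i0, cgm_single, tau_single, if_neg]
    intro H
    rw [isConj_iff] at H
    obtain ⟨⟨a, b⟩, hab⟩ := H
    apply hg
    have h1 := congrArg Prod.snd hab
    simp only [MonoidHom.inl_apply, Prod.snd_mul, Prod.snd_inv, mul_one, mul_inv_cancel] at h1
    exact h1.symm

theorem tauL_i1 (q : G →* Cy p) (g : G) (z : LG A G) :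
    tauL (g, q g) (mapL (i1 A q) z) = tauL g z := by
  rw [tauL, AddMonoidHom.comp_apply, coeffZero_mapL, tau_i1]
  rfl

theorem tauL_i0 (q : G →* Cy p) (g : G) (hg : q g ≠ 1) (z : LG A G) :
    tauL (g, q g) (mapL (i0 A G p) z) = 0 := by
  rw [tauL, AddMonoidHom.comp_apply, coeffZero_mapL, tau_i0 q g hg]

theorem dd_map {B : Type*} [Ring B] {C : Type*} [Ring C] (φ : B →+* C) {m n : Type*}
    (X : Matrix m n (LaurentPolynomial B)) :
    (X.map (mapL φ)).map DL = (X.map DL).map (mapL φ) := by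
  ext1 i j
  simp only [Matrix.map_apply]
  exact DL_mapL φ _

end img

end CMP

open CMP in
theorem t_CMP (hDIV : S_DIV.{u, w}) (hUNI : S_UNI.{u, w}) (hLOG : S_LOG.{u, w}) :
    S_CMP.{u, w} := by
  intro G _ p K hp q ι κ _ _ _ _ e f α β he hf hαβ hβα heα hβe g hg
  have : NeZero p := ⟨hp.ne_zero⟩
  obtain ⟨hdmul, hdadd, hdE, hdnil⟩ := hDIV
  obtain ⟨u1, u2, u3, u4, u5⟩ := hUNI hp q e he
  obtain ⟨v1, v2, v3, v4, v5⟩ := hUNI hp q f hf
  have hαf : α * f = α := by rw [← hβα, ← Matrix.mul_assoc, hαβ, heα]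
  have hfβ : f * β = β := by rw [← hβα, Matrix.mul_assoc, hαβ, hβe]
  have m1 : ∀ {m n o : Type w} [Fintype n] (X : Matrix m n (LG (ZMod (p ^ K)) G))
      (Y : Matrix n o (LG (ZMod (p ^ K)) G)), E1 q X * E1 q Y = E1 q (X * Y) :=
    fun X Y => Matrix.map_mul.symm
  have m0 : ∀ {m n o : Type w} [Fintype n] (X : Matrix m n (LG (ZMod (p ^ K)) G))
      (Y : Matrix n o (LG (ZMod (p ^ K)) G)), E0 p X * E0 p Y = E0 p (X * Y) :=
    fun X Y => Matrix.map_mul.symm
  have hE1f : E1 q f * E1 q f = E1 q f := by rw [m1, hf]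
  set θ := th q e with hθ
  set θi := Ring.inverse θ with hθi
  set η := th q f with hη
  set ηi := Ring.inverse η with hηi
  have hc' : θi * E1 q e = E0 p e * θi := by
    calc θi * E1 q e = θi * E1 q e * (θ * θi) := by rw [u2, Matrix.mul_one]
      _ = θi * (E1 q e * θ) * θi := by simp only [Matrix.mul_assoc]
      _ = (θi * θ) * E0 p e * θi := by rw [u4]; simp only [Matrix.mul_assoc]
      _ = E0 p e * θi := by rw [u3, Matrix.one_mul]
  have hce : θ * E0 p e * θi = E1 q e := by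
    rw [← u4, Matrix.mul_assoc, u2, Matrix.mul_one]
  have hcf' : ηi * E1 q f = E0 p f * ηi := by
    calc ηi * E1 q f = ηi * E1 q f * (η * ηi) := by rw [v2, Matrix.mul_one]
      _ = ηi * (E1 q f * η) * ηi := by simp only [Matrix.mul_assoc]
      _ = (ηi * η) * E0 p f * ηi := by rw [v4]; simp only [Matrix.mul_assoc]
      _ = E0 p f * ηi := by rw [v3, Matrix.one_mul]
  have hcf : η * E0 p f * ηi = E1 q f := by
    rw [← v4, Matrix.mul_assoc, v2, Matrix.mul_one]
  set c := E1 q β * θ * E0 p α * ηi with hcdef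
  set c' := η * E0 p β * θi * E1 q α with hc'def
  have hcc' : c * c' = E1 q f := by
    calc c * c' = E1 q β * θ * E0 p α * (ηi * η) * E0 p β * θi * E1 q α := by
          rw [hcdef, hc'def]; simp only [Matrix.mul_assoc]
      _ = E1 q β * (θ * (E0 p α * E0 p β) * θi) * E1 q α := by
          rw [v3, Matrix.mul_one]; simp only [Matrix.mul_assoc]
      _ = E1 q f := by
          rw [m0, hαβ, hce, m1, hβe, m1, hβα]
  have h1 : E1 q f * c = c := by
    rw [hcdef, ← Matrix.mul_assoc, ← Matrix.mul_assoc, ← Matrix.mul_assoc, m1, hfβ]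
  have h2 : c * E1 q f = c := by
    calc c * E1 q f = E1 q β * θ * E0 p α * (ηi * E1 q f) := by
          rw [hcdef]; simp only [Matrix.mul_assoc]
      _ = E1 q β * θ * (E0 p α * E0 p f) * ηi := by
          rw [hcf']; simp only [Matrix.mul_assoc]
      _ = c := by rw [m0, hαf]
  have h3 : c' * E1 q f = c' := by
    rw [hc'def, Matrix.mul_assoc, m1, hαf]
  have h4 : E1 q f * c' = c' := by
    calc E1 q f * c' = (E1 q f * η) * E0 p β * θi * E1 q α := by
          rw [hc'def]; simp only [Matrix.mul_assoc]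
      _ = η * (E0 p f * E0 p β) * θi * E1 q α := by
          rw [v4]; simp only [Matrix.mul_assoc]
      _ = c' := by rw [m0, hfβ]
  -- the element `x`
  set x := E1 q f - c with hx
  have hxdiv : DivU x := by
    have h5 : x = E1 q β * ((E1 q α - E0 p α) - (E0 p α * (ηi - 1) +
        (θ - 1) * (E0 p α * ηi))) := by
      rw [hx, hcdef, ← hβα, ← m1]
      simp only [Matrix.mul_sub, Matrix.sub_mul, Matrix.mul_add, Matrix.mul_one, Matrix.one_mul,
        Matrix.mul_assoc]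
      abel
    rw [h5]
    refine (hdmul _ _).2 ((hdadd _ _ (hdE q α) ((hdadd _ _ ?_ ?_).1)).2)
    · exact (hdmul _ _).2 v5
    · exact (hdmul _ _).1 u1
  have hxn : IsNilpotent x := hdnil hp x hxdiv
  have h1x : (1 : Matrix κ κ (LG (ZMod (p ^ K)) (G × Cy p))) - x = c + (1 - E1 q f) := by
    rw [hx]
    abel
  have hinv : (1 - x) * (c' + (1 - E1 q f)) = 1 := by
    rw [h1x, Matrix.add_mul, Matrix.mul_add, Matrix.mul_add, hcc', Matrix.mul_sub, Matrix.mul_one,
      h2, sub_self, add_zero, Matrix.sub_mul, Matrix.one_mul, h4, sub_self, zero_add,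
      Matrix.mul_sub, Matrix.mul_one, Matrix.sub_mul, Matrix.one_mul, hE1f, sub_self, sub_zero]
    abel
  have hlog := hLOG x (c' + (1 - E1 q f)) hxn hinv (g, q g)
  rw [h1x] at hlog
  have hlog2 : tt (g, q g) (c' * dd c) = 0 := by
    rw [← red0 (g, q g) (E1 q f) c c' hE1f h2 h1 h3 h4]
    exact hlog
  have hmain := main (g, q g) (E0 p e) (E1 q e) θ θi (E0 p f) (E1 q f) η ηi (E0 p α) (E1 q α)
    (E0 p β) (E1 q β) (by rw [m0, hαβ]) (by rw [m1, hαβ]) (by rw [m0, hβα]) (by rw [m0, he])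
    (by rw [m0, heα]) (by rw [m1, heα]) (by rw [m0, hβe]) u2 u3 v2 v3 u4
  rw [← hc'def, ← hcdef, hlog2] at hmain
  have hA : tt (g, q g) (E1 q α * dd (E1 q β)) = tauL g (Matrix.trace (α * β.map DL)) := by
    have h5 : E1 q α * dd (E1 q β) = E1 q (α * β.map DL) := by
      rw [← m1]
      congr 1
      exact dd_map _ β
    rw [h5, tt]
    have h6 : Matrix.trace (E1 q (α * β.map DL)) =
        mapL (i1 (ZMod (p ^ K)) q) (Matrix.trace (α * β.map DL)) :=
      (AddMonoidHom.map_trace (mapL (i1 (ZMod (p ^ K)) q)).toAddMonoidHom _).symm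
    rw [h6, tauL_i1]
  have hB : tt (g, q g) (E0 p β * dd (E0 p α)) = 0 := by
    have h5 : E0 p β * dd (E0 p α) = E0 p (β * α.map DL) := by
      rw [← m0]
      congr 1
      exact dd_map _ α
    rw [h5, tt]
    have h6 : Matrix.trace (E0 p (β * α.map DL)) =
        mapL (i0 (ZMod (p ^ K)) G p) (Matrix.trace (β * α.map DL)) :=
      (AddMonoidHom.map_trace (mapL (i0 (ZMod (p ^ K)) G p)).toAddMonoidHom _).symm
    rw [h6, tauL_i0 q g hg]
  have hC : rg q e g = tt (g, q g) (E0 p e * θi * dd θ) := rfl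
  have hD : rg q f g = tt (g, q g) (E0 p f * ηi * dd η) := rfl
  rw [hA, hB, ← hC, ← hD] at hmain
  linear_combination -hmain

end Pool.Agent.SM1
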