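import Pool.Agent.SM1.St2

/-!
# SM1: every element of `K_{-1}(ℤ[G])` comes from a finitely generated subgroup
-/

set_option autoImplicit false
set_option linter.unusedSectionVars false

open Matrix Pool.Agent.Lib25 Pool.Agent.KM

noncomputable section

namespace Pool.Agent.SM1

universe u v w

namespace COL

variable {G : Type u} [Group G]

/-- An element of the group ring whose support lies in a subgroup comes from the subgroup. -/
theorem lift_grm (G1 : Subgroup G) (x : MonoidAlgebra ℤ G) (h : ∀ g ∈ x.coeff.support, g ∈ G1) :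
    ∃ y : MonoidAlgebra ℤ G1, grm G1.subtype y = x := by
  refine ⟨MonoidAlgebra.ofCoeff (Finsupp.comapDomain (Subtype.val : G1 → G) x.coeff
    Subtype.val_injective.injOn), ?_⟩
  apply MonoidAlgebra.coeff_injective
  change (MonoidAlgebra.mapDomain (Subtype.val : G1 → G) _).coeff = _
  rw [MonoidAlgebra.coeff_mapDomain, MonoidAlgebra.coeff_ofCoeff]
  refine Finsupp.mapDomain_comapDomain _ Subtype.val_injective _ ?_
  intro g hg
  exact ⟨⟨g, h g hg⟩, rfl⟩

theorem grm_injective (G1 : Subgroup G) : Function.Injective (grm G1.subtype) := by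
  intro x y hxy
  apply MonoidAlgebra.coeff_injective
  have h1 := congrArg MonoidAlgebra.coeff hxy
  change (MonoidAlgebra.mapDomain (Subtype.val : G1 → G) x).coeff =
    (MonoidAlgebra.mapDomain (Subtype.val : G1 → G) y).coeff at h1
  rw [MonoidAlgebra.coeff_mapDomain, MonoidAlgebra.coeff_mapDomain] at h1
  exact Finsupp.mapDomain_injective Subtype.val_injective h1

theorem mapL_inj {A B : Type*} [Ring A] [Ring B] (φ : A →+* B) (hφ : Function.Injective φ) :
    Function.Injective (mapL φ) := by
  intro x y hxy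
  apply lco_ext
  intro n
  apply hφ
  rw [← lco_mapL, ← lco_mapL, hxy]

/-- A Laurent polynomial whose coefficients are in the image comes from a Laurent polynomial. -/
theorem lift_mapL {A B : Type*} [Ring A] [Ring B] (φ : A →+* B) (x : LaurentPolynomial B)
    (h : ∀ n, ∃ a, φ a = lco x n) : ∃ y, mapL φ y = x := by
  classical
  choose a ha using h
  refine ⟨lmk (AddMonoidAlgebra.coeff x).support a, ?_⟩
  apply lco_ext
  intro n
  rw [lco_mapL, lco_lmk]
  split_ifs with hn
  · exact ha n
  · rw [map_zero, lco_not_mem hn]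

/-- The support of a matrix. -/
theorem exists_supp {n : ℕ} (e : Matrix (Fin n) (Fin n) (LG ℤ G)) :
    ∃ S : Finset G, ∀ i j m, ∀ g ∈ (lco (e i j) m).coeff.support, g ∈ S := by
  classical
  refine ⟨Finset.univ.biUnion fun i => Finset.univ.biUnion fun j =>
    (AddMonoidAlgebra.coeff (e i j)).support.biUnion fun m => (lco (e i j) m).coeff.support, ?_⟩
  intro i j m g hg
  simp only [Finset.mem_biUnion, Finset.mem_univ, true_and]
  refine ⟨i, j, m, ?_, hg⟩
  by_contra hm
  rw [lco_not_mem hm] at hg
  simp at hg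

end COL

theorem t_COL : S_COL.{u} := by
  intro G _ x
  obtain ⟨z, rfl⟩ := QuotientAddGroup.mk'_surjective (extImage (MonoidAlgebra ℤ G)) x
  obtain ⟨n, e, he, m, rfl⟩ := exists_cl z
  obtain ⟨S, hS⟩ := COL.exists_supp e
  refine ⟨Subgroup.closure (S : Set G), ⟨S, rfl⟩, ?_⟩
  intro G1 hG1
  have h1 : ∀ i j, ∃ y, mapL (grm G1.subtype) y = e i j := by
    intro i j
    refine COL.lift_mapL _ _ fun k => COL.lift_grm G1 _ fun g hg => ?_
    exact hG1 (Subgroup.subset_closure (hS i j k g hg))
  choose f hf using h1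
  have h2 : (Matrix.of f).map (mapL (grm G1.subtype)) = e := by
    ext1 i j
    exact hf i j
  have h3 : Matrix.of f * Matrix.of f = Matrix.of f := by
    have h4 : Function.Injective
        (fun M : Matrix (Fin n) (Fin n) (LG ℤ G1) => M.map (mapL (grm G1.subtype))) :=
      Matrix.map_injective (COL.mapL_inj _ (COL.grm_injective G1))
    apply h4
    change (Matrix.of f * Matrix.of f).map (mapL (grm G1.subtype)) =
      (Matrix.of f).map (mapL (grm G1.subtype))
    rw [Matrix.map_mul, h2, he]
  refine ⟨KNegOne.mk (cl (Matrix.of f) h3 - one _ m), ?_⟩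
  change KNegOne.map (grm G1.subtype) _ = _
  rw [KNegOne.map_mk, map_sub, map_one', map_cl]
  change KNegOne.mk _ = KNegOne.mk _
  congr 2
  exact cl_congr _ _ (by rw [h2]; exact MvN.refl he)

end Pool.Agent.SM1
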