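import Pool.Agent.SM1.St

/-!
# MP_e40716_gt (T1): matrices divisible by `uu` (module DIV)
-/

set_option autoImplicit false
set_option linter.unusedSectionVars false

open Matrix Pool.Agent.Lib25 Pool.Agent.KM

noncomputable section

namespace Pool.Agent.SM1

universe u v w

namespace DIV

section

variable {A : Type} [CommRing A] {G : Type u} [Group G] {p : ℕ}

/-- the group element `(1, c)` in the group ring -/
def ga (A : Type) [CommRing A] (G : Type u) [Group G] (p : ℕ) : MonoidAlgebra A (G × Cy p) :=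
  MonoidAlgebra.single ((1 : G), (Multiplicative.ofAdd 1 : Cy p)) 1

theorem ga_comm (x : MonoidAlgebra A (G × Cy p)) : ga A G p * x = x * ga A G p := by
  induction x using MonoidAlgebra.induction_linear with
  | zero => rw [mul_zero, zero_mul]
  | add a b ha hb => rw [mul_add, add_mul, ha, hb]
  | single c r =>
    unfold ga
    rw [MonoidAlgebra.single_mul_single, MonoidAlgebra.single_mul_single, one_mul, mul_one]
    have e : ((1 : G), (Multiplicative.ofAdd 1 : Cy p)) * c =
        c * ((1 : G), (Multiplicative.ofAdd 1 : Cy p)) :=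
      Prod.ext ((one_mul c.1).trans (mul_one c.1).symm) (mul_comm _ _)
    rw [e]

theorem uu_eq : uu A G p = LaurentPolynomial.C (ga A G p) - 1 := by
  unfold uu ga
  rw [map_sub, map_one LaurentPolynomial.C]

theorem uu_comm (z : LG A (G × Cy p)) : uu A G p * z = z * uu A G p := by
  have h : Commute (LaurentPolynomial.C (ga A G p)) z := by
    induction z using LaurentPolynomial.induction_on' with
    | add x y hx hy => exact hx.add_right hy
    | C_mul_T n a =>
      have h1 : Commute (LaurentPolynomial.C (ga A G p)) (LaurentPolynomial.C a) := by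
        show _ * _ = _ * _
        rw [← map_mul, ← map_mul, ga_comm]
      have h2 : Commute (LaurentPolynomial.C (ga A G p))
          (LaurentPolynomial.T n : LG A (G × Cy p)) := (LaurentPolynomial.commute_T n _).symm
      exact h1.mul_right h2
  rw [uu_eq, sub_mul, mul_sub, h.eq, one_mul, mul_one]

theorem mapL_CT {R S : Type*} [Ring R] [Ring S] (φ : R →+* S) (n : ℤ) (x : R) :
    mapL φ (LaurentPolynomial.C x * LaurentPolynomial.T n) =
      LaurentPolynomial.C (φ x) * LaurentPolynomial.T n := by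
  rw [← LaurentPolynomial.single_eq_C_mul_T, ← LaurentPolynomial.single_eq_C_mul_T]
  exact mapL_single φ n x

theorem pow_ga (n : ℕ) (g : G) (r : A) :
    (ga A G p) ^ n * MonoidAlgebra.single (g, (1 : Cy p)) r =
      MonoidAlgebra.single (g, (Multiplicative.ofAdd (n : ZMod p) : Cy p)) r := by
  unfold ga
  rw [MonoidAlgebra.single_pow, MonoidAlgebra.single_mul_single, one_pow, one_mul]
  congr 1
  refine Prod.ext ?_ ?_
  · show (1 : G) ^ n * g = g
    rw [one_pow, one_mul]
  · show (Multiplicative.ofAdd (1 : ZMod p)) ^ n * 1 = Multiplicative.ofAdd (n : ZMod p)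
    rw [mul_one, ← ofAdd_nsmul, nsmul_one]

theorem ent [NeZero p] (q : G →* Cy p) (z : LG A G) :
    ∃ y : LG A (G × Cy p), mapL (i1 A q) z - mapL (i0 A G p) z = uu A G p * y := by
  induction z using LaurentPolynomial.induction_on' with
  | add x y hx hy =>
    obtain ⟨a, ha⟩ := hx
    obtain ⟨b, hb⟩ := hy
    refine ⟨a + b, ?_⟩
    rw [map_add, map_add, mul_add, ← ha, ← hb]
    abel
  | C_mul_T n a =>
    induction a using MonoidAlgebra.induction_linear with
    | zero => exact ⟨0, by rw [map_zero, zero_mul, map_zero, map_zero, sub_zero, mul_zero]⟩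
    | add x y hx hy =>
      obtain ⟨a, ha⟩ := hx
      obtain ⟨b, hb⟩ := hy
      refine ⟨a + b, ?_⟩
      rw [map_add, add_mul, map_add, map_add, mul_add, ← ha, ← hb]
      abel
    | single g r =>
      rw [mapL_CT, mapL_CT]
      have e1 : i1 A q (MonoidAlgebra.single g r) =
          (ga A G p) ^ (Multiplicative.toAdd (q g)).val *
            MonoidAlgebra.single (g, (1 : Cy p)) r := by
        rw [pow_ga]
        unfold i1
        rw [cgm_single]
        have e2 : ((Multiplicative.ofAdd (((Multiplicative.toAdd (q g)).val : ℕ) : ZMod p)) :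
            Cy p) = q g := by
          rw [ZMod.natCast_val, ZMod.cast_id]
          rfl
        rw [e2]
        rfl
      have e0 : i0 A G p (MonoidAlgebra.single g r) =
          MonoidAlgebra.single (g, (1 : Cy p)) r := by
        unfold i0
        rw [cgm_single]
        rfl
      rw [e1, e0]
      generalize (Multiplicative.toAdd (q g)).val = j
      generalize (MonoidAlgebra.single (g, (1 : Cy p)) r : MonoidAlgebra A (G × Cy p)) = x
      refine ⟨(∑ i ∈ Finset.range j, (LaurentPolynomial.C (ga A G p)) ^ i) *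
        (LaurentPolynomial.C x * LaurentPolynomial.T n), ?_⟩
      rw [uu_eq, ← mul_assoc, mul_geom_sum, map_mul, map_pow, sub_mul, one_mul, mul_assoc]

end

theorem natCast_zero {A : Type} [CommRing A] {Γ : Type u} [Group Γ] {n : ℕ}
    (hA : ((n : ℕ) : A) = 0) : ((n : ℕ) : LG A Γ) = 0 := by
  have h : ((n : ℕ) : LG A Γ) =
      (LaurentPolynomial.C : MonoidAlgebra A Γ →+* LG A Γ)
        ((MonoidAlgebra.singleOneRingHom : A →+* MonoidAlgebra A Γ) ((n : ℕ) : A)) := by
    rw [map_natCast, map_natCast]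
  rw [h, hA, map_zero, map_zero]

theorem ga_pow {A : Type} [CommRing A] {G : Type u} [Group G] {p : ℕ} :
    (ga A G p) ^ p = 1 := by
  have h1 := pow_ga (A := A) (G := G) (p := p) p 1 1
  rw [ZMod.natCast_self] at h1
  have h2 : (MonoidAlgebra.single ((1 : G), (1 : Cy p)) 1 :
      MonoidAlgebra A (G × Cy p)) = 1 := by
    rw [MonoidAlgebra.one_def]
    rfl
  have h3 : (MonoidAlgebra.single ((1 : G), (Multiplicative.ofAdd (0 : ZMod p) : Cy p)) 1 :
      MonoidAlgebra A (G × Cy p)) = 1 := by
    rw [MonoidAlgebra.one_def]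
    rfl
  rw [h2, h3, mul_one] at h1
  exact h1

theorem nil_of {R : Type*} [Ring R] {p K : ℕ} (hp : p.Prime) (hA : ((p ^ K : ℕ) : R) = 0)
    (x : R) (hx : x ^ p = 1) : IsNilpotent (x - 1) := by
  have hs : ∃ s : R, (x - 1) ^ p = (p : ℕ) * s := by
    have hc : Commute x (-1 : R) := (Commute.one_right x).neg_right
    obtain ⟨r, hr⟩ := hc.exists_add_pow_prime_eq hp
    rw [sub_eq_add_neg, hr, hx]
    rcases hp.eq_two_or_odd' with h2 | h2
    · refine ⟨1 + x * (-1) * r, ?_⟩
      have e1 : (-1 : R) ^ p = 1 := by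
        rw [h2, neg_one_sq]
      have e2 : ((p : ℕ) : R) = 2 := by
        rw [h2, Nat.cast_ofNat]
      rw [e1, mul_add, mul_one, e2]
      simp only [mul_assoc]
      rw [one_add_one_eq_two]
    · refine ⟨x * (-1) * r, ?_⟩
      rw [h2.neg_one_pow]
      simp only [mul_assoc]
      rw [add_neg_cancel, zero_add]
  obtain ⟨s, hs⟩ := hs
  refine ⟨p * K, ?_⟩
  rw [pow_mul, hs, (Nat.cast_commute p s).mul_pow, ← Nat.cast_pow, hA, zero_mul]

theorem uu_nil {A : Type} [CommRing A] {G : Type u} [Group G] {p K : ℕ} (hp : p.Prime)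
    (hA : ((p ^ K : ℕ) : A) = 0) : IsNilpotent (uu A G p) := by
  have hγ : (LaurentPolynomial.C (ga A G p)) ^ p = 1 := by
    rw [← map_pow, ga_pow, map_one]
  rw [uu_eq]
  exact nil_of hp (natCast_zero hA) _ hγ

theorem mat_nil {R : Type*} [Ring R] (c : R) (hc : ∀ z, c * z = z * c) (hn : IsNilpotent c)
    {ι : Type*} [Fintype ι] [DecidableEq ι] (y : Matrix ι ι R) :
    IsNilpotent (y.map (fun a => c * a)) := by
  have h1 : y.map (fun a => c * a) = Matrix.diagonal (fun _ => c) * y := by
    ext i j
    rw [Matrix.diagonal_mul, Matrix.map_apply]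
  have h2 : Commute (Matrix.diagonal (fun _ : ι => c)) y := by
    show _ * _ = _ * _
    ext i j
    rw [Matrix.diagonal_mul, Matrix.mul_diagonal, hc]
  obtain ⟨m, hm⟩ := hn
  refine ⟨m, ?_⟩
  rw [h1, h2.mul_pow, Matrix.diagonal_pow]
  have h3 : (fun _ : ι => c) ^ m = 0 := by
    ext i
    show c ^ m = 0
    exact hm
  rw [h3]
  have h4 : Matrix.diagonal (0 : ι → R) = 0 := Matrix.diagonal_zero
  rw [h4, zero_mul]

end DIV

open DIV

theorem t_DIV : S_DIV.{u, w} := by
  refine ⟨?_, ?_, ?_, ?_⟩
  · intro A _ G _ p ι κ l _ _ _ x y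
    constructor
    · rintro ⟨x', rfl⟩
      refine ⟨x' * y, ?_⟩
      refine Matrix.ext fun i j => ?_
      rw [Matrix.mul_apply, Matrix.map_apply, Matrix.mul_apply, Finset.mul_sum]
      refine Finset.sum_congr rfl fun k _ => ?_
      rw [Matrix.map_apply, mul_assoc]
    · rintro ⟨y', rfl⟩
      refine ⟨x * y', ?_⟩
      refine Matrix.ext fun i j => ?_
      rw [Matrix.mul_apply, Matrix.map_apply, Matrix.mul_apply, Finset.mul_sum]
      refine Finset.sum_congr rfl fun k _ => ?_
      rw [Matrix.map_apply, ← mul_assoc, ← mul_assoc, uu_comm]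
  · intro A _ G _ p ι κ _ _ x y hx hy
    obtain ⟨x', rfl⟩ := hx
    obtain ⟨y', rfl⟩ := hy
    constructor
    · refine ⟨x' + y', ?_⟩
      refine Matrix.ext fun i j => ?_
      rw [Matrix.add_apply, Matrix.map_apply, Matrix.map_apply, Matrix.map_apply,
        Matrix.add_apply, mul_add]
    · refine ⟨x' - y', ?_⟩
      refine Matrix.ext fun i j => ?_
      rw [Matrix.sub_apply, Matrix.map_apply, Matrix.map_apply, Matrix.map_apply,
        Matrix.sub_apply, mul_sub]
  · intro A _ G _ p _ q ι κ _ _ z
    have h : ∀ i j, ∃ y : LG A (G × Cy p), (E1 q z - E0 p z) i j = uu A G p * y := fun i j =>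
      ent q (z i j)
    choose f hf using h
    refine ⟨Matrix.of f, ?_⟩
    refine Matrix.ext fun i j => ?_
    rw [hf i j, Matrix.map_apply, Matrix.of_apply]
  · intro G _ p K hp ι _ _ x hx
    obtain ⟨y, rfl⟩ := hx
    exact mat_nil _ uu_comm (uu_nil hp (ZMod.natCast_self _)) y

end Pool.Agent.SM1
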