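import Pool.Agent.SM1.St3

/-!
# MP_e40716_gt (T1), module F21: the first form of the theorem from the second
-/

set_option autoImplicit false
set_option linter.unusedSectionVars false

open Matrix Pool.Agent.Lib25 Pool.Agent.KM

noncomputable section

namespace Pool.Agent.SM1

universe u v w

theorem F21.mem {G : Type u} [Group G] {Q : Type v} [Group Q] (π : G →* Q) (s : Src G) :
    Kg π (asm G s) ∈ finImg π := by
  have h : (QuotientAddGroup.mk' (finImg π)).comp ((Kg π).comp (asm G)) = 0 := by
    apply Src.hom_ext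
    intro H x
    rw [AddMonoidHom.comp_apply, AddMonoidHom.comp_apply, asm_of, Kg_comp]
    have hm : ∀ c : H.1, (π.comp H.1.subtype) c ∈ H.1.map π := fun c => ⟨c, c.2, rfl⟩
    have h1 : Kg (π.comp H.1.subtype) x =
        Kg (H.1.map π).subtype (Kg ((π.comp H.1.subtype).codRestrict (H.1.map π) hm) x) := by
      rw [Kg_comp]
      rfl
    rw [h1]
    refine (QuotientAddGroup.eq_zero_iff _).2 ?_
    have h2 : (Kg (H.1.map π).subtype).range ≤ finImg π :=
      le_iSup (fun H : {H : Subgroup G // Finite H} => (Kg (H.1.map π).subtype).range) H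
    exact h2 ⟨_, rfl⟩
  exact (QuotientAddGroup.eq_zero_iff _).1 (DFunLike.congr_fun h s)

theorem t_F21 (hFIN : S_FIN2.{u, v}) : S_FIN.{u, v} := by
  intro G _ Q _ _ π hLZ x
  obtain ⟨n, s, hn, hs⟩ := hFIN π hLZ x
  exact ⟨n, hn, hs ▸ F21.mem π s⟩

end Pool.Agent.SM1
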