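import Pool.Agent.SM1.St2

/-!
# SM1, module FNL: the theorem for any `π` with `Z1`
-/

set_option autoImplicit false

open Matrix Pool.Agent.Lib25 Pool.Agent.KM

namespace Pool.Agent.SM1

universe u v

theorem FNL.z1_range {G : Type u} [Group G] {Q : Type v} [Group Q] (π : G →* Q) (h : Z1 π) :
    Z1 π.rangeRestrict := by
  intro g hg
  refine h g fun g' hg' => hg g' ?_
  exact Subtype.ext hg'

theorem FNL.map_le {G : Type u} [Group G] {Q : Type v} [Group Q] (π : G →* Q) :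
    (finImg π.rangeRestrict).map (Kg π.range.subtype) ≤ finImg π := by
  unfold finImg
  rw [AddSubgroup.map_iSup]
  refine iSup_le fun H => ?_
  refine le_trans ?_ (le_iSup (fun H : {H : Subgroup G // Finite H} =>
    (Kg (H.1.map π).subtype).range) H)
  rintro _ ⟨_, ⟨z, rfl⟩, rfl⟩
  have hm : ∀ c : H.1.map π.rangeRestrict,
      (π.range.subtype.comp (H.1.map π.rangeRestrict).subtype) c ∈ H.1.map π := by
    rintro ⟨c, g, hg, rfl⟩
    exact ⟨g, hg, rfl⟩
  refine ⟨Kg ((π.range.subtype.comp (H.1.map π.rangeRestrict).subtype).codRestrict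
    (H.1.map π) hm) z, ?_⟩
  rw [Kg_comp, Kg_comp]
  rfl

theorem t_FNL (hFNS : S_FNS.{u, v}) : S_FNL.{u, v} := by
  intro G _ Q _ _ π hπ x
  obtain ⟨n, hn, h⟩ := hFNS π.rangeRestrict π.rangeRestrict_surjective (FNL.z1_range π hπ) x
  refine ⟨n, hn, FNL.map_le π ⟨_, h, ?_⟩⟩
  rw [map_nsmul, Kg_comp]
  rfl

end Pool.Agent.SM1
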