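import Pool.Agent.SM1.St3
import Pool.Agent.SM1.P_FNL

/-!
# MP_e40716_gt (T1), module FIN2: the theorem with the assembly map itself
-/

set_option autoImplicit false
set_option linter.unusedSectionVars false

open Matrix Pool.Agent.Lib25 Pool.Agent.KM

noncomputable section

namespace Pool.Agent.SM1

universe u v w

/-- The image of the assembly map of a subgroup is in the image of the assembly map. -/
theorem FIN2.asm_sub {G : Type u} [Group G] (G1 : Subgroup G) (s : Src G1) :
    ∃ t : Src G, asm G t = Kg G1.subtype (asm G1 s) := by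
  have h : (asm G1).range.map (Kg G1.subtype) ≤ (asm G).range := by
    rintro _ ⟨_, ⟨s, rfl⟩, rfl⟩
    have key : ((Kg G1.subtype).comp (asm G1)).range ≤ (asm G).range := by
      have h2 : (QuotientAddGroup.mk' (asm G).range).comp ((Kg G1.subtype).comp (asm G1)) = 0 := by
        apply Src.hom_ext
        intro H x
        have := H.2
        rw [AddMonoidHom.comp_apply, AddMonoidHom.comp_apply, asm_of, Kg_comp,
          ← asm_scl (G1.subtype.comp H.1.subtype) x]
        exact (QuotientAddGroup.eq_zero_iff _).2 ⟨_, rfl⟩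
      rintro _ ⟨s, rfl⟩
      have h3 := DFunLike.congr_fun h2 s
      exact (QuotientAddGroup.eq_zero_iff _).1 h3
    exact key ⟨s, rfl⟩
  obtain ⟨t, ht⟩ := h ⟨_, ⟨s, rfl⟩, rfl⟩
  exact ⟨t, ht⟩

theorem t_FIN2 (hFNS : S_FNS2.{u, v}) (hCOL : S_COL.{u}) : S_FIN2.{u, v} := by
  intro G _ Q _ _ π hLZ x
  obtain ⟨G0, hG0, h⟩ := hCOL x
  obtain ⟨G1, hle, hZ⟩ := hLZ G0 hG0
  obtain ⟨x1, hx1⟩ := h G1 hle
  obtain ⟨n, s, hn, hs⟩ := hFNS (π.comp G1.subtype).rangeRestrict
    (π.comp G1.subtype).rangeRestrict_surjective (FNL.z1_range _ hZ) x1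
  obtain ⟨t, ht⟩ := FIN2.asm_sub G1 s
  have hcomp : ∀ y : KNegOne (MonoidAlgebra ℤ G1),
      Kg (π.comp G1.subtype).range.subtype (Kg (π.comp G1.subtype).rangeRestrict y) =
        Kg π (Kg G1.subtype y) := by
    intro y
    rw [Kg_comp, Kg_comp]
    rfl
  refine ⟨n, t, hn, ?_⟩
  rw [ht, ← hx1, ← hcomp, ← hcomp, ← map_nsmul, hs]

end Pool.Agent.SM1
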