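import Pool.Agent.SM1.St2
import Pool.Agent.Lib_helper25.Final0

/-!
# SM1, module FNS: the theorem for surjective homomorphisms (helper63)
-/

set_option autoImplicit false
set_option linter.unusedSectionVars false
set_option maxHeartbeats 4000000

open Matrix Pool.Agent.Lib25 Pool.Agent.KM

noncomputable section

namespace Pool.Agent.SM1

universe u v w

namespace FNS

/-- A functional which vanishes on a subgroup and is one at an element no positive multiple of
which is in the subgroup. -/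
theorem functional {A : Type u} [AddCommGroup A] (S : AddSubgroup A) (a : A)
    (h : ∀ n : ℕ, 0 < n → n • a ∉ S) : ∃ l : A →+ ℚ, (∀ s ∈ S, l s = 0) ∧ l a = 1 := by
  obtain ⟨F, hF⟩ := exists_functional (A := A ⧸ S) (J := Unit)
    (fun _ => (QuotientAddGroup.mk' S) a) (fun _ => (1 : ℚ)) (by
      intro c hc
      have h1 : (c.sum fun _ m => m • (QuotientAddGroup.mk' S) a) =
          (c ()) • (QuotientAddGroup.mk' S) a := by
        rw [Finsupp.sum_fintype _ _ (by intro i; simp)]
        simp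
      have h2 : (c.sum fun _ m => (m : ℚ) * (1 : ℚ)) = (c () : ℚ) := by
        rw [Finsupp.sum_fintype _ _ (by intro i; simp)]
        simp
      rw [h1] at hc
      rw [h2]
      by_contra hne
      have hne' : c () ≠ 0 := fun h0 => hne (by rw [h0]; simp)
      have h3 : ((c ()).natAbs) • a ∈ S := by
        have h4 : (c ()) • a ∈ S := by
          rw [← map_zsmul] at hc
          exact (QuotientAddGroup.eq_zero_iff _).1 hc
        rcases Int.natAbs_eq (c ()) with h5 | h5
        · rw [h5, natCast_zsmul] at h4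
          exact h4
        · rw [h5, neg_smul, natCast_zsmul] at h4
          exact (AddSubgroup.neg_mem_iff S).1 h4
      exact h _ (Int.natAbs_pos.2 hne') h3)
  refine ⟨F.comp (QuotientAddGroup.mk' S), ?_, ?_⟩
  · intro s hs
    have h1 : (QuotientAddGroup.mk' S) s = 0 := (QuotientAddGroup.eq_zero_iff _).2 hs
    rw [AddMonoidHom.comp_apply, h1, map_zero]
  · exact hF ()

theorem zpowers_le {G : Type u} [Group G] {Q : Type v} [Group Q] (π : G →* Q) (g : G)
    (hg : IsOfFinOrder g) (h : Q) (hgh : π g = h) (y : KNegOne (MonoidAlgebra ℤ (Subgroup.zpowers h))) :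
    Kg (Subgroup.zpowers h).subtype y ∈ finImg π := by
  have hfin : Finite (Subgroup.zpowers g) := finite_zpowers.2 hg
  have hmap : (Subgroup.zpowers g).map π = Subgroup.zpowers h := by
    rw [MonoidHom.map_zpowers, hgh]
  have h1 : (Kg (Subgroup.zpowers h).subtype).range ≤ finImg π := by
    rw [← hmap]
    exact le_iSup (fun H : {H : Subgroup G // Finite H} => (Kg (H.1.map π).subtype).range)
      ⟨Subgroup.zpowers g, hfin⟩
  exact h1 ⟨y, rfl⟩

end FNS

open FNS in
theorem t_FNS (hNUM : S_NUM.{u, v}) (hTR2 : S_TR2.{v}) (hGEN : S_GEN.{v}) : S_FNS.{u, v} := by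
  intro G _ Q _ _ π hπ hZ x
  by_contra hcon
  push Not at hcon
  obtain ⟨l, hl0, hl1⟩ := functional (finImg π) (Kg π x) (fun n hn => hcon n hn)
  obtain ⟨N, x₀, hN, hloc, hg1, hg2⟩ := hGEN Q
  obtain ⟨L, hadm, hL, hLT⟩ := hg1 l
  obtain ⟨m, hm, c, hc⟩ := hg2 (Kg π x)
  obtain ⟨z, rfl⟩ := KNegOne_mk_surjective x
  set T : Set Q := {h | ∃ g : G, IsOfFinOrder g ∧ π g = h} with hT
  have key := hTR2 (G := Q) N x₀ hN hloc L hadm T ?_ ?_ ?_ c ?_
  · have h1 : l (m • Kg π (KNegOne.mk z)) = (m : ℚ) := by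
      rw [map_nsmul, hl1, nsmul_eq_mul, mul_one]
    have h2 : l (c.sum fun j n => n • Kg j.φ (KNegOne.mk (x₀ j.n j.p))) =
        c.sum fun j m => (m : ℚ) * L j.p (j.φ (gn j.n)) := by
      rw [Finsupp.sum, Finsupp.sum, map_sum]
      refine Finset.sum_congr rfl fun j _ => ?_
      rw [map_zsmul, hL j, zsmul_eq_mul]
    rw [hc, h2, key] at h1
    have h3 : (0 : ℚ) < m := by exact_mod_cast hm
    rw [← h1] at h3
    exact lt_irrefl _ h3
  · rintro h ⟨g, hg, rfl⟩ k
    obtain ⟨k', rfl⟩ := hπ k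
    refine ⟨k' * g * k'⁻¹, ?_, by rw [map_mul, map_mul, map_inv]⟩
    exact MonoidHom.isOfFinOrder (MulAut.conj k').toMonoidHom hg
  · rintro h ⟨g, hg, rfl⟩ n
    exact ⟨g ^ n, hg.pow, map_pow π g n⟩
  · rintro h ⟨g, hg, hgh⟩ p hp
    exact hLT h (fun y => hl0 _ (zpowers_le π g hg h hgh y)) p hp
  · intro w hw
    obtain ⟨y, hy⟩ := hNUM π hπ hZ z
      (∑ j ∈ c.support, c j • K0.map (mapL (grm j.φ)) (x₀ j.n j.p)) m (by
        rw [← KNegOne.map_mk]
        change _ = m • Kg π (KNegOne.mk z)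
        rw [hc, map_sum]
        refine Finset.sum_congr rfl fun j _ => ?_
        rw [map_zsmul]
        change c j • _ = c j • Kg j.φ (KNegOne.mk (x₀ j.n j.p))
        rw [KNegOne.map_mk]) w hw
    refine ⟨y, ?_⟩
    intro p _ h _ hp hnT
    exact hy p h hp (fun g hg hf => hnT ⟨g, hf, hg⟩)

end Pool.Agent.SM1
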