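import Pool.Agent.SM1.St3
import Pool.Agent.SM1.P_FNS
import Pool.Agent.KM.P_ZAD

/-!
# SM1, module FNS2: the theorem for surjective homomorphisms, with the assembly map itself
-/

set_option autoImplicit false
set_option linter.unusedSectionVars false
set_option maxHeartbeats 4000000

open Matrix Pool.Agent.Lib25 Pool.Agent.KM

noncomputable section

namespace Pool.Agent.SM1

universe u v w

namespace FNS2

theorem exists_bound {G : Type u} {Q : Type v} [Group G] [Group Q] [Finite Q] (π : G →* Q) :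
    ∃ M : ℕ, 0 < M ∧ ∀ h : Q, (∃ g : G, IsOfFinOrder g ∧ π g = h) → ∃ g : G, π g = h ∧ g ^ M = 1 := by
  classical
  have := Fintype.ofFinite Q
  have h1 : ∀ h : Q, ∃ m : ℕ, 0 < m ∧ ((∃ g : G, IsOfFinOrder g ∧ π g = h) →
      ∃ g : G, π g = h ∧ g ^ m = 1) := by
    intro h
    by_cases hh : ∃ g : G, IsOfFinOrder g ∧ π g = h
    · obtain ⟨g, hg, hgh⟩ := hh
      obtain ⟨m, hm, hgm⟩ := isOfFinOrder_iff_pow_eq_one.1 hg
      exact ⟨m, hm, fun _ => ⟨g, hgh, hgm⟩⟩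
    · exact ⟨1, one_pos, fun h => absurd h hh⟩
  choose m hm hm' using h1
  refine ⟨∏ h, m h, Finset.prod_pos fun h _ => hm h, fun h hh => ?_⟩
  obtain ⟨g, hg, hgm⟩ := hm' h hh
  refine ⟨g, hg, ?_⟩
  obtain ⟨c, hc⟩ := Finset.dvd_prod_of_mem m (Finset.mem_univ h)
  rw [hc, pow_mul, hgm, one_pow]

end FNS2

open FNS FNS2 in
theorem t_FNS2 (hNUM : S_NUM.{u, v}) (hTR2 : S_TR2.{v}) (hGEN : S_GEN2.{v}) (hLPF : S_LPF.{v})
    (hTKA : S_TKA.{v}) : S_FNS2.{u, v} := by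
  intro G _ Q _ _ π hπ hZ x
  by_contra hcon
  push Not at hcon
  obtain ⟨l, hl0, hl1⟩ := functional ((asm G).range.map (Kg π)) (Kg π x) (by
    rintro n hn ⟨_, ⟨s, rfl⟩, hs⟩
    exact hcon n s hn hs.symm)
  obtain ⟨M, hM, hMT⟩ := exists_bound π
  have hex : ∀ n : ℕ, ∃ (N : ℕ)
      (x : ℕ → K0 (LaurentPolynomial (MonoidAlgebra ℤ (Multiplicative (ZMod n))))), 0 < N ∧
      ∀ [NeZero n], LocN.{v} n N x := by
    intro n
    by_cases h : n = 0
    · exact ⟨1, 0, one_pos, fun {inst} => absurd h inst.ne⟩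
    · have : NeZero n := ⟨h⟩
      obtain ⟨N, x, hN, hx⟩ := hTKA n
      exact ⟨N, x, hN, fun {_} => hx⟩
  choose N' x' hN' hx' using hex
  set N : ℕ → ℕ := fun n => N' (n * M) with hNdef
  set x₀ : ∀ n : ℕ, ℕ → K0 (LaurentPolynomial (MonoidAlgebra ℤ (Multiplicative (ZMod n)))) :=
    fun n p => K0.map (mapL (grm (cN (n * M) n (dvd_mul_right n M)))) (x' (n * M) p) with hx₀
  have hN : ∀ n, 0 < n → 0 < N n := fun n _ => hN' (n * M)
  have hloc : ∀ (n : ℕ) [NeZero n], LocN.{v} n (N n) (x₀ n) := by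
    intro n _
    have : NeZero (n * M) := ⟨Nat.mul_ne_zero (NeZero.ne n) hM.ne'⟩
    exact hLPF n (n * M) (dvd_mul_right n M) (N' (n * M)) (x' (n * M)) (hx' (n * M))
  obtain ⟨hg1, hg2⟩ := hGEN N x₀ hN hloc Q
  obtain ⟨L, hadm, hL⟩ := hg1 l
  obtain ⟨m, hm, c, hc⟩ := hg2 (Kg π x)
  obtain ⟨z, rfl⟩ := KNegOne_mk_surjective x
  set T : Set Q := {h | ∃ g : G, IsOfFinOrder g ∧ π g = h} with hT
  have key := hTR2 (G := Q) N x₀ hN hloc L hadm T ?_ ?_ ?_ c ?_
  · have h1 : l (m • Kg π (KNegOne.mk z)) = (m : ℚ) := by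
      rw [map_nsmul, hl1, nsmul_eq_mul, mul_one]
    have h2 : l (c.sum fun j n => n • Kg j.φ (KNegOne.mk (x₀ j.n j.p))) =
        c.sum fun j m => (m : ℚ) * L j.p (j.φ (gn j.n)) := by
      rw [Finsupp.sum, Finsupp.sum, map_sum]
      refine Finset.sum_congr rfl fun j _ => ?_
      rw [map_zsmul, hL j, zsmul_eq_mul]
    rw [hc, h2, key] at h1
    have h3 : (0 : ℚ) < m := by exact_mod_cast hm
    rw [← h1] at h3
    exact lt_irrefl _ h3
  · rintro h ⟨g, hg, rfl⟩ k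
    obtain ⟨k', rfl⟩ := hπ k
    refine ⟨k' * g * k'⁻¹, ?_, by rw [map_mul, map_mul, map_inv]⟩
    exact MonoidHom.isOfFinOrder (MulAut.conj k').toMonoidHom hg
  · rintro h ⟨g, hg, rfl⟩ n
    exact ⟨g ^ n, hg.pow, map_pow π g n⟩
  · intro h hh p hp
    obtain ⟨g, hgh, hgM⟩ := hMT h hh
    have hn : 0 < orderOf h := orderOf_pos h
    have : NeZero (orderOf h) := ⟨by omega⟩
    have : NeZero (orderOf h * M) := ⟨Nat.mul_ne_zero hn.ne' hM.ne'⟩
    have hpow : h ^ orderOf h = 1 := pow_orderOf_eq_one h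
    have hinj := ZAD.hmg_inj rfl hpow
    have h1 := hL ⟨orderOf h, p, hn, Nat.prime_of_mem_primeFactors hp,
      Nat.dvd_of_mem_primeFactors hp, ZAD.hmg (orderOf h) h hpow, hinj⟩
    change l (Kg (ZAD.hmg (orderOf h) h hpow) (KNegOne.mk (K0.map (mapL (grm
      (cN (orderOf h * M) (orderOf h) (dvd_mul_right (orderOf h) M)))) (x' (orderOf h * M) p)))) =
      L p (ZAD.hmg (orderOf h) h hpow (gn (orderOf h))) at h1
    rw [ZAD.hmg_gn] at h1
    rw [← h1, ← KNegOne.map_mk]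
    change l (Kg (ZAD.hmg (orderOf h) h hpow) (Kg
      (cN (orderOf h * M) (orderOf h) (dvd_mul_right (orderOf h) M))
      (KNegOne.mk (x' (orderOf h * M) p)))) = 0
    have hgpow : g ^ (orderOf h * M) = 1 := by rw [mul_comm, pow_mul, hgM, one_pow]
    have h2 : (ZAD.hmg (orderOf h) h hpow).comp
        (cN (orderOf h * M) (orderOf h) (dvd_mul_right (orderOf h) M)) =
        π.comp (ZAD.hmg (orderOf h * M) g hgpow) := by
      apply ZAD.hom_ext
      rw [MonoidHom.comp_apply, MonoidHom.comp_apply, ZAD.hmg_gn, hgh]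
      have h3 : cN (orderOf h * M) (orderOf h) (dvd_mul_right (orderOf h) M)
          (gn (orderOf h * M)) = gn (orderOf h) := by
        change Multiplicative.ofAdd (ZMod.castHom (dvd_mul_right (orderOf h) M)
          (ZMod (orderOf h)) (1 : ZMod (orderOf h * M))) = _
        rw [map_one]
      rw [h3, ZAD.hmg_gn]
    rw [Kg_comp, h2, ← Kg_comp]
    have h4 : Kg (ZAD.hmg (orderOf h * M) g hgpow) (KNegOne.mk (x' (orderOf h * M) p)) =
        asm G (scl (ZAD.hmg (orderOf h * M) g hgpow) (KNegOne.mk (x' (orderOf h * M) p))) :=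
      (asm_scl _ _).symm
    rw [h4]
    exact hl0 _ ⟨_, ⟨_, rfl⟩, rfl⟩
  · intro w hw
    obtain ⟨y, hy⟩ := hNUM π hπ hZ z
      (∑ j ∈ c.support, c j • K0.map (mapL (grm j.φ)) (x₀ j.n j.p)) m (by
        rw [← KNegOne.map_mk]
        change _ = m • Kg π (KNegOne.mk z)
        rw [hc, map_sum]
        refine Finset.sum_congr rfl fun j _ => ?_
        rw [map_zsmul]
        change c j • _ = c j • Kg j.φ (KNegOne.mk (x₀ j.n j.p))
        rw [KNegOne.map_mk]) w hw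
    refine ⟨y, ?_⟩
    intro p _ h _ hp hnT
    exact hy p h hp (fun g hg hf => hnT ⟨g, hf, hg⟩)

end Pool.Agent.SM1
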