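import Pool.Agent.SM1.St2

/-!
# Project SM1, module FSU: `kap W E` is zero for almost all classes
-/

set_option autoImplicit false
set_option linter.unusedSectionVars false

open Matrix Pool.Agent.Lib25 Pool.Agent.KM

namespace Pool.Agent.SM1

universe u v w

namespace FSU

variable {G : Type u} [Group G]

/-- the union of two finite sets works for a sum -/
theorem WG_fin (a b : MonoidAlgebra ℤ G) : ∃ F : Finset G, ∀ W : G → G → ℤ,
    (∀ x y, x * y ∈ F → W x y = 0) → WG W a b = 0 := by
  classical
  induction a using MonoidAlgebra.induction_linear with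
  | zero => exact ⟨∅, fun W _ => by rw [map_zero, AddMonoidHom.zero_apply]⟩
  | add a a' h h' =>
    obtain ⟨F, hF⟩ := h
    obtain ⟨F', hF'⟩ := h'
    refine ⟨F ∪ F', fun W hW => ?_⟩
    rw [map_add, AddMonoidHom.add_apply,
      hF W fun x y h => hW x y (Finset.mem_union_left _ h),
      hF' W fun x y h => hW x y (Finset.mem_union_right _ h), add_zero]
  | single x r =>
    induction b using MonoidAlgebra.induction_linear with
    | zero => exact ⟨∅, fun W _ => by rw [map_zero]⟩
    | add b b' h h' =>
      obtain ⟨F, hF⟩ := h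
      obtain ⟨F', hF'⟩ := h'
      refine ⟨F ∪ F', fun W hW => ?_⟩
      rw [map_add, hF W fun x y h => hW x y (Finset.mem_union_left _ h),
        hF' W fun x y h => hW x y (Finset.mem_union_right _ h), add_zero]
    | single y s =>
      refine ⟨{x * y}, fun W hW => ?_⟩
      rw [WG_single, hW x y (Finset.mem_singleton_self _), mul_zero]

theorem WL_fin (a b : LG ℤ G) : ∃ F : Finset G, ∀ W : G → G → ℤ,
    (∀ x y, x * y ∈ F → W x y = 0) → WL W a b = 0 := by
  classical
  induction a using AddMonoidAlgebra.induction_linear with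
  | zero => exact ⟨∅, fun W _ => by rw [map_zero, AddMonoidHom.zero_apply]⟩
  | add a a' h h' =>
    obtain ⟨F, hF⟩ := h
    obtain ⟨F', hF'⟩ := h'
    refine ⟨F ∪ F', fun W hW => ?_⟩
    rw [map_add, AddMonoidHom.add_apply,
      hF W fun x y h => hW x y (Finset.mem_union_left _ h),
      hF' W fun x y h => hW x y (Finset.mem_union_right _ h), add_zero]
  | single n r =>
    induction b using AddMonoidAlgebra.induction_linear with
    | zero => exact ⟨∅, fun W _ => by rw [map_zero]⟩
    | add b b' h h' =>
      obtain ⟨F, hF⟩ := h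
      obtain ⟨F', hF'⟩ := h'
      refine ⟨F ∪ F', fun W hW => ?_⟩
      rw [map_add, hF W fun x y h => hW x y (Finset.mem_union_left _ h),
        hF' W fun x y h => hW x y (Finset.mem_union_right _ h), add_zero]
    | single m s =>
      obtain ⟨F, hF⟩ := WG_fin r s
      refine ⟨F, fun W hW => ?_⟩
      rw [WL_single]
      split_ifs
      · exact hF W hW
      · rfl

end FSU

open FSU in
/-- **FSU**. -/
theorem t_FSU : S_FSU.{u, w} := by
  classical
  intro G _ ι _ _ E
  choose F hF using fun p : ι × ι =>
    WL_fin ((E.map DL * E - E * E.map DL) p.1 p.2) (E p.2 p.1)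
  refine ⟨Finset.univ.biUnion F, fun g v W hW h => ?_⟩
  unfold kap
  refine Finset.sum_eq_zero fun i _ => Finset.sum_eq_zero fun j _ => ?_
  exact hF (i, j) W fun x y hxy =>
    hW.off x y (h _ (Finset.mem_biUnion.2 ⟨(i, j), Finset.mem_univ _, hxy⟩))

end Pool.Agent.SM1
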