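import Pool.Agent.SM1.St

/-!
# FUG: functoriality of `OM`
-/

set_option autoImplicit false
set_option linter.unusedSectionVars false

open Matrix Pool.Agent.Lib25 Pool.Agent.KM

noncomputable section

namespace Pool.Agent.SM1

universe u v w

namespace FUG

theorem map_map_of_comp {R S T U : Type*} [Ring R] [Ring S] [Ring T] [Ring U]
    (a : R →+* S) (b : S →+* U) (c : R →+* T) (d : T →+* U) (h : b.comp a = d.comp c)
    {ι κ : Type*} (e : Matrix ι κ (LaurentPolynomial R)) :
    (e.map (mapL a)).map (mapL b) = (e.map (mapL c)).map (mapL d) := by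
  ext i j : 2
  simp only [Matrix.map_apply]
  have h1 := congrArg (fun r => r (e i j)) (mapL_comp a b)
  have h2 := congrArg (fun r => r (e i j)) (mapL_comp c d)
  simp only [RingHom.comp_apply] at h1 h2
  rw [h1, h2, h]

theorem comp_i0 {A B : Type*} [CommRing A] [CommRing B] {G H : Type*} [Group G] [Group H] {p : ℕ}
    (f : A →+* B) (φ : G →* H) :
    (i0 B H p).comp (cgm f φ) = (cgm f (φ.prodMap (MonoidHom.id (Cy p)))).comp (i0 A G p) := by
  refine RingHom.ext fun x => ?_
  simp only [RingHom.comp_apply, i0, cgm_comp]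
  rfl

theorem comp_i1 {A B : Type*} [CommRing A] [CommRing B] {G H : Type*} [Group G] [Group H] {p : ℕ}
    (f : A →+* B) (φ : G →* H) (q : G →* Cy p) (q' : H →* Cy p) (hq : q'.comp φ = q) :
    (i1 B q').comp (cgm f φ) = (cgm f (φ.prodMap (MonoidHom.id (Cy p)))).comp (i1 A q) := by
  subst hq
  refine RingHom.ext fun x => ?_
  simp only [RingHom.comp_apply, i1, cgm_comp]
  rfl

theorem map_inverse {R S : Type*} [Ring R] [Ring S] (F : R →+* S) (x : R)
    (h1 : x * Ring.inverse x = 1) (h2 : Ring.inverse x * x = 1) :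
    Ring.inverse (F x) = F (Ring.inverse x) := by
  have h3 : F x * F (Ring.inverse x) = 1 := by rw [← map_mul, h1, map_one]
  have h4 : F (Ring.inverse x) * F x = 1 := by rw [← map_mul, h2, map_one]
  exact Ring.inverse_unit ⟨F x, F (Ring.inverse x), h3, h4⟩

end FUG

theorem t_FUG (hUNI : S_UNI.{u, w}) : S_FUG.{u, v, w} := by
  intro G H _ _ p K K' hp f φ q q' hq ι _ _ e he
  obtain ⟨-, hu1, hu2, -, -⟩ := hUNI hp q e he
  set M : LG (ZMod (p ^ K)) (G × Cy p) →+* LG (ZMod (p ^ K')) (H × Cy p) :=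
    mapL (cgm f (φ.prodMap (MonoidHom.id (Cy p)))) with hM
  have h0 : E0 p (e.map (mapL (cgm f φ))) = M.mapMatrix (E0 p e) :=
    FUG.map_map_of_comp _ _ _ _ (FUG.comp_i0 f φ) e
  have h1 : E1 q' (e.map (mapL (cgm f φ))) = M.mapMatrix (E1 q e) :=
    FUG.map_map_of_comp _ _ _ _ (FUG.comp_i1 f φ q q' hq) e
  have hth : th q' (e.map (mapL (cgm f φ))) = M.mapMatrix (th q e) := by
    unfold th
    rw [h0, h1]
    simp only [map_add, map_mul, map_sub, map_one]
  have hinv : Ring.inverse (th q' (e.map (mapL (cgm f φ)))) = M.mapMatrix (Ring.inverse (th q e)) := by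
    rw [hth]
    exact FUG.map_inverse M.mapMatrix (th q e) hu1 hu2
  have hDL : (th q' (e.map (mapL (cgm f φ)))).map DL = M.mapMatrix ((th q e).map DL) := by
    rw [hth]
    refine Matrix.ext fun i j => ?_
    simp only [RingHom.mapMatrix_apply, Matrix.map_apply]
    exact DL_mapL (cgm f (φ.prodMap (MonoidHom.id (Cy p)))) (th q e i j)
  unfold OM
  rw [h0, hinv, hDL, ← map_mul, ← map_mul]
  simp only [Matrix.trace, Matrix.diag_apply, RingHom.mapMatrix_apply, Matrix.map_apply, map_sum]

end Pool.Agent.SM1
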