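import Pool.Agent.SM1.St

/-!
# The logarithmic trace of a unipotent matrix vanishes (module LOG of project SM1)
-/

set_option autoImplicit false

open Matrix Pool.Agent.Lib25 Pool.Agent.KM

noncomputable section

namespace Pool.Agent.SM1

universe u v w

namespace LOG

theorem coeffZero_DL {A : Type*} [Ring A] (y : LaurentPolynomial A) : coeffZero (DL y) = 0 := by
  induction y using AddMonoidAlgebra.induction_linear with
  | zero => simp
  | add f g hf hg => rw [map_add, map_add, hf, hg, add_zero]
  | single n a =>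
    rw [DL_single, coeffZero_single]
    split_ifs with h
    · rw [h, zero_smul]
    · rfl

theorem tauL_DL {k : Type*} [CommRing k] {G : Type*} [Group G] (γ : G)
    (y : LaurentPolynomial (MonoidAlgebra k G)) : tauL γ (DL y) = 0 := by
  unfold tauL
  rw [AddMonoidHom.comp_apply, coeffZero_DL, map_zero]

theorem trace_map_add {A B ι : Type*} [AddCommMonoid A] [AddCommMonoid B] [Fintype ι] (f : A →+ B)
    (M : Matrix ι ι A) : trace (M.map f) = f (trace M) := by
  unfold trace
  rw [map_sum]
  rfl

theorem surj_mapRingHom {A B : Type*} [CommRing A] [CommRing B] {G : Type*} [Group G] (f : A →+* B)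
    (hf : Function.Surjective f) : Function.Surjective (MonoidAlgebra.mapRingHom G f) := by
  intro y
  induction y using MonoidAlgebra.induction_linear with
  | zero => exact ⟨0, map_zero _⟩
  | add a b ha hb =>
    obtain ⟨a', rfl⟩ := ha
    obtain ⟨b', rfl⟩ := hb
    exact ⟨a' + b', map_add _ _ _⟩
  | single g r =>
    obtain ⟨r', rfl⟩ := hf r
    exact ⟨MonoidAlgebra.single g r', MonoidAlgebra.mapRingHom_single _ _ _⟩

section

variable {k : Type*} [CommRing k] {G : Type*} [Group G] {ι : Type*} [Fintype ι] [DecidableEq ι]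

theorem comm (γ : G) (M N : Matrix ι ι (LaurentPolynomial (MonoidAlgebra k G))) :
    tauL γ (trace (M * N)) = tauL γ (trace (N * M)) :=
  trace_comm_of_tracial (tauL γ) (tauL_mul_comm γ) M N

theorem step (γ : G) (X : Matrix ι ι (LaurentPolynomial (MonoidAlgebra k G))) : ∀ i l : ℕ,
    tauL γ (trace ((X ^ (i + 1)).map DL * X ^ l)) =
      ((i : k) + 1) * tauL γ (trace (X ^ (i + l) * X.map DL)) := by
  intro i
  induction i with
  | zero =>
    intro l
    rw [zero_add, pow_one, comm, zero_add, Nat.cast_zero, zero_add, one_mul]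
  | succ i ih =>
    intro l
    have h1 : (X ^ (i + 1 + 1)).map DL * X ^ l =
        (X ^ (i + 1)).map DL * X ^ (l + 1) + X ^ (i + 1) * X.map DL * X ^ l := by
      rw [pow_succ X (i + 1), map_DL_mul, add_mul, mul_assoc, ← pow_succ']
    have h2 : tauL γ (trace (X ^ (i + 1) * X.map DL * X ^ l)) =
        tauL γ (trace (X ^ (i + 1 + l) * X.map DL)) := by
      rw [comm, ← mul_assoc, ← pow_add, add_comm l]
    have h3 : i + (l + 1) = i + 1 + l := by ring
    rw [h1, trace_add, map_add, ih, h2, h3]
    push_cast
    ring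

end

theorem int_zero {G : Type*} [Group G] {ι : Type*} [Fintype ι] [DecidableEq ι] (γ : G)
    (X : Matrix ι ι (LaurentPolynomial (MonoidAlgebra ℤ G))) (i : ℕ) :
    tauL γ (trace (X ^ i * X.map DL)) = 0 := by
  have h1 := step γ X i 0
  rw [pow_zero, mul_one, add_zero, trace_map_add, tauL_DL] at h1
  have h2 : ((i : ℤ) + 1) ≠ 0 := by positivity
  exact (mul_eq_zero.1 h1.symm).resolve_left h2

end LOG

open LOG in
theorem t_LOG : S_LOG.{u, w} := by
  intro n Γ _ ι _ _ x c' hx hc γ
  obtain ⟨m, hm⟩ := hx
  have h1 : c' = ∑ i ∈ Finset.range m, x ^ i := by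
    have h2 : (∑ i ∈ Finset.range m, x ^ i) * (1 - x) = 1 := by
      rw [geom_sum_mul_neg, hm, sub_zero]
    calc c' = ((∑ i ∈ Finset.range m, x ^ i) * (1 - x)) * c' := by rw [h2, one_mul]
      _ = _ := by rw [mul_assoc, hc, mul_one]
  have hDL1 : DL (1 : LG (ZMod n) Γ) = 0 := by
    have : (1 : LG (ZMod n) Γ) = AddMonoidAlgebra.single 0 1 := rfl
    rw [this, DL_single, zero_smul]
    simp
  have h3 : (1 - x).map DL = - x.map DL := by
    refine Matrix.ext (fun i j => ?_)
    rw [map_apply, Matrix.sub_apply, map_sub, Matrix.neg_apply, map_apply]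
    have h4 : DL ((1 : Matrix ι ι (LG (ZMod n) Γ)) i j) = 0 := by
      rw [one_apply]
      split_ifs
      · exact hDL1
      · exact map_zero _
    rw [h4, zero_sub]
  -- lift to the integers
  set f : MonoidAlgebra ℤ Γ →+* MonoidAlgebra (ZMod n) Γ :=
    MonoidAlgebra.mapRingHom Γ (Int.castRingHom (ZMod n)) with hf
  have hsurj : Function.Surjective (mapL f) :=
    mapL_surjective (surj_mapRingHom _ (ZMod.ringHom_surjective _))
  choose s hs using hsurj
  let X : Matrix ι ι (LG ℤ Γ) := x.map s
  have hX : X.map (mapL f) = x := Matrix.ext (fun i j => hs _)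
  have key : ∀ i : ℕ, tauL γ (trace (x ^ i * x.map DL)) = 0 := by
    intro i
    have h4 : x ^ i = (X ^ i).map (mapL f) := by
      have := map_pow (mapL f).mapMatrix X i
      rw [RingHom.mapMatrix_apply, RingHom.mapMatrix_apply, hX] at this
      exact this.symm
    have h5 : x.map DL = (X.map DL).map (mapL f) := by
      refine Matrix.ext (fun a b => ?_)
      rw [map_apply, map_apply, map_apply, ← DL_mapL]
      congr 1
      rw [← hX]
      rfl
    have h6 : trace (x ^ i * x.map DL) = mapL f (trace (X ^ i * X.map DL)) := by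
      rw [h4, h5, ← Matrix.map_mul]
      exact trace_map_add (mapL f).toAddMonoidHom _
    rw [h6, hf, tauL_mapL, int_zero, map_zero]
  rw [h3, h1, Matrix.mul_neg, trace_neg, map_neg, Matrix.sum_mul, trace_sum, map_sum,
    Finset.sum_eq_zero (fun i _ => key i), neg_zero]

end Pool.Agent.SM1
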