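import Pool.Agent.SM1.St3

/-!
# MP_e40716_gt (T1), module LPF: the local property is stable under the reduction
-/

set_option autoImplicit false
set_option linter.unusedSectionVars false

open Matrix Pool.Agent.Lib25 Pool.Agent.KM

noncomputable section

namespace Pool.Agent.SM1

universe u v w

namespace LPF

theorem uR_one_mul {n p : ℕ} {s a z : (ZMod n)ˣ} (hs : uR n p s 1) (ha : uR n p a z) :
    uR n p (s * a) z := by
  obtain ⟨j, k, h1⟩ := hs
  obtain ⟨j', k', h2⟩ := ha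
  refine ⟨j + j', k + k', ?_⟩
  rw [Units.val_one, one_mul] at h1
  rw [Units.val_mul, pow_add, pow_add]
  calc (s : ZMod n) * (a : ZMod n) * ((p : ZMod n) ^ j * (p : ZMod n) ^ j')
      = ((s : ZMod n) * (p : ZMod n) ^ j) * ((a : ZMod n) * (p : ZMod n) ^ j') := by ring
    _ = (z : ZMod n) * ((p : ZMod n) ^ k * (p : ZMod n) ^ k') := by rw [h1, h2]; ring

theorem uR_div {n p : ℕ} {a b z : (ZMod n)ˣ} (ha : uR n p a z) (hb : uR n p b z) :
    uR n p (a * b⁻¹) 1 := by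
  obtain ⟨j, k, h1⟩ := ha
  obtain ⟨j', k', h2⟩ := hb
  refine ⟨j + k', k + j', ?_⟩
  rw [Units.val_one, one_mul, Units.val_mul, pow_add, pow_add]
  have h3 : ((b⁻¹ : (ZMod n)ˣ) : ZMod n) * (b : ZMod n) = 1 := by
    rw [← Units.val_mul, inv_mul_cancel, Units.val_one]
  calc (a : ZMod n) * ((b⁻¹ : (ZMod n)ˣ) : ZMod n) * ((p : ZMod n) ^ j * (p : ZMod n) ^ k')
      = ((b⁻¹ : (ZMod n)ˣ) : ZMod n) * (((a : ZMod n) * (p : ZMod n) ^ j)) *
          (p : ZMod n) ^ k' := by ring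
    _ = ((b⁻¹ : (ZMod n)ˣ) : ZMod n) * ((z : ZMod n) * (p : ZMod n) ^ k') *
          (p : ZMod n) ^ k := by rw [h1]; ring
    _ = (((b⁻¹ : (ZMod n)ˣ) : ZMod n) * (b : ZMod n)) *
          ((p : ZMod n) ^ k * (p : ZMod n) ^ j') := by rw [← h2]; ring
    _ = (p : ZMod n) ^ k * (p : ZMod n) ^ j' := by rw [h3, one_mul]

/-- natural number form of the lifting -/
theorem exists_lift_nat {p a m' b m : ℕ} (hp : p.Prime) (hm' : ¬ p ∣ m') (hm'0 : 0 < m')
    (hba : b ≤ a) (hmm : m ∣ m') (σ τ j k : ℕ) (hτ : τ.Coprime (p ^ a * m'))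
    (hτσ : τ ≡ σ [MOD p ^ b * m]) (hσ : σ * p ^ j ≡ p ^ k [MOD p ^ b * m]) :
    ∃ w : ℕ, w.Coprime (p ^ a * m') ∧ w ≡ σ [MOD p ^ b * m] ∧
      w * p ^ (j + a) ≡ p ^ (k + a) [MOD p ^ a * m'] := by
  have hcop : (p ^ a).Coprime m' := Nat.Coprime.pow_left a ((Nat.Prime.coprime_iff_not_dvd hp).2 hm')
  have hpm' : p.Coprime m' := (Nat.Prime.coprime_iff_not_dvd hp).2 hm'
  have hpm : p.Coprime m := Nat.Coprime.coprime_dvd_right hmm hpm'
  have hφ : 0 < Nat.totient m' := Nat.totient_pos.2 hm'0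
  obtain ⟨r, hr⟩ : ∃ r, Nat.totient m' = r + 1 := ⟨Nat.totient m' - 1, by omega⟩
  have hE : p ^ (r + 1) ≡ 1 [MOD m'] := by
    rw [← hr]
    exact Nat.ModEq.pow_totient hpm'
  obtain ⟨q, hq⟩ : ∃ q, q = p ^ (k + j * r) := ⟨_, rfl⟩
  have hqj : q * p ^ j ≡ p ^ k [MOD m'] := by
    rw [hq, ← pow_add]
    have h1 : k + j * r + j = k + (r + 1) * j := by ring
    rw [h1, pow_add, pow_mul]
    have h2 := (hE.pow j).mul_left (p ^ k)
    rwa [one_pow, mul_one] at h2
  have hqc : q.Coprime m' := by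
    rw [hq]
    exact Nat.Coprime.pow_left _ hpm'
  obtain ⟨w, hw1, hw2⟩ := Nat.chineseRemainder hcop τ q
  have hwc : w.Coprime (p ^ a * m') := by
    rw [Nat.coprime_mul_iff_right]
    refine ⟨?_, ?_⟩
    · have h1 : τ.Coprime (p ^ a) := Nat.Coprime.coprime_dvd_right (dvd_mul_right _ _) hτ
      rw [Nat.Coprime, hw1.gcd_eq]
      exact h1
    · rw [Nat.Coprime, hw2.gcd_eq]
      exact hqc
  refine ⟨w, hwc, ?_, ?_⟩
  · have hcop' : (p ^ b).Coprime m := Nat.Coprime.pow_left b hpm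
    rw [← Nat.modEq_and_modEq_iff_modEq_mul hcop']
    constructor
    · exact (hw1.of_dvd (pow_dvd_pow p hba)).trans (hτσ.of_dvd (dvd_mul_right _ _))
    · refine (hw2.of_dvd hmm).trans ?_
      have h1 : q * p ^ j ≡ σ * p ^ j [MOD m] :=
        (hqj.of_dvd hmm).trans (hσ.of_dvd (dvd_mul_left _ _)).symm
      exact Nat.ModEq.cancel_right_of_coprime (Nat.Coprime.pow_right j hpm.symm) h1
  · rw [← Nat.modEq_and_modEq_iff_modEq_mul hcop]
    constructor
    · have h1 : w * p ^ (j + a) ≡ 0 [MOD p ^ a] := by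
        rw [Nat.modEq_zero_iff_dvd, pow_add]
        exact ⟨w * p ^ j, by ring⟩
      have h2 : p ^ (k + a) ≡ 0 [MOD p ^ a] := by
        rw [Nat.modEq_zero_iff_dvd, pow_add]
        exact ⟨p ^ k, by ring⟩
      exact h1.trans h2.symm
    · have h1 : w * p ^ (j + a) ≡ q * p ^ (j + a) [MOD m'] := hw2.mul_right _
      have h2 : q * p ^ (j + a) ≡ p ^ (k + a) [MOD m'] := by
        rw [pow_add, pow_add, ← mul_assoc]
        exact hqj.mul_right _
      exact h1.trans h2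

theorem uR_lift {n n' p : ℕ} [NeZero n] [NeZero n'] (hp : p.Prime) (h : n ∣ n')
    (s : (ZMod n)ˣ) (hs : uR n p s 1) :
    ∃ s' : (ZMod n')ˣ, ZMod.unitsMap h s' = s ∧ uR n' p s' 1 := by
  obtain ⟨a, m', hm', hn'⟩ := Nat.exists_eq_pow_mul_and_not_dvd (NeZero.ne n') p hp.ne_one
  obtain ⟨b, m, hm, hn⟩ := Nat.exists_eq_pow_mul_and_not_dvd (NeZero.ne n) p hp.ne_one
  have hm'0 : 0 < m' := by
    rcases Nat.eq_zero_or_pos m' with h0 | h0
    · exact absurd (h0 ▸ dvd_zero p) hm'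
    · exact h0
  have hpb : p ^ b ∣ p ^ a * m' := by
    rw [← hn']
    exact (hn ▸ dvd_mul_right _ _ : p ^ b ∣ n).trans h
  have hba' : p ^ b ∣ p ^ a := Nat.Coprime.dvd_of_dvd_mul_right
    (Nat.Coprime.pow_left b ((Nat.Prime.coprime_iff_not_dvd hp).2 hm')) hpb
  have hba : b ≤ a := (Nat.pow_dvd_pow_iff_le_right hp.one_lt).1 hba'
  have hmm : m ∣ m' := by
    have h1 : m ∣ p ^ a * m' := by
      rw [← hn']
      exact (hn ▸ dvd_mul_left _ _ : m ∣ n).trans h
    exact Nat.Coprime.dvd_of_dvd_mul_left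
      (Nat.Coprime.pow_right a ((Nat.Prime.coprime_iff_not_dvd hp).2 hm).symm) h1
  obtain ⟨t, ht⟩ := ZMod.unitsMap_surjective h s
  obtain ⟨j, k, hjk⟩ := hs
  rw [Units.val_one, one_mul] at hjk
  have hσ : ((s : ZMod n).val * p ^ j : ℕ) ≡ p ^ k [MOD p ^ b * m] := by
    rw [← hn, ← ZMod.natCast_eq_natCast_iff]
    rw [Nat.cast_mul, Nat.cast_pow, Nat.cast_pow, ZMod.natCast_zmod_val]
    exact hjk
  have hτc : ((t : ZMod n').val).Coprime (p ^ a * m') := by
    rw [← hn']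
    exact ZMod.val_coe_unit_coprime t
  have hτσ : (t : ZMod n').val ≡ (s : ZMod n).val [MOD p ^ b * m] := by
    rw [← hn, ← ZMod.natCast_eq_natCast_iff, ZMod.natCast_zmod_val, ← ht]
    rw [ZMod.unitsMap_val, ZMod.cast_eq_val]
  obtain ⟨w, hw1, hw2, hw3⟩ := exists_lift_nat hp hm' hm'0 hba hmm _ _ j k hτc hτσ hσ
  rw [← hn'] at hw1 hw3
  rw [← hn] at hw2
  refine ⟨ZMod.unitOfCoprime w hw1, ?_, j + a, k + a, ?_⟩
  · apply Units.ext
    rw [ZMod.unitsMap_val, ZMod.coe_unitOfCoprime, ZMod.cast_natCast h]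
    have h1 := (ZMod.natCast_eq_natCast_iff _ _ _).2 hw2
    rwa [ZMod.natCast_zmod_val] at h1
  · have h1 := (ZMod.natCast_eq_natCast_iff _ _ _).2 hw3
    rw [ZMod.coe_unitOfCoprime, Units.val_one, one_mul]
    push_cast at h1
    exact h1

theorem uR_red {n n' p : ℕ} (h : n ∣ n') {u z : (ZMod n')ˣ} (hu : uR n' p u z) :
    uR n p (ZMod.unitsMap h u) (ZMod.unitsMap h z) := by
  obtain ⟨j, k, h1⟩ := hu
  refine ⟨j, k, ?_⟩
  have h2 := congrArg (ZMod.castHom h (ZMod n)) h1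
  rw [map_mul, map_mul, map_pow, map_pow, map_natCast] at h2
  exact h2

theorem fiber_card {n n' p : ℕ} [NeZero n] [NeZero n'] [DecidableRel (uR n' p)] (hp : p.Prime)
    (h : n ∣ n') (z' : (ZMod n')ˣ) (u : (ZMod n)ˣ) (hu : uR n p u (ZMod.unitsMap h z')) :
    ((Finset.univ.filter (fun u' => uR n' p u' z')).filter
      (fun u' => ZMod.unitsMap h u' = u)).card =
    ((Finset.univ.filter (fun u' => uR n' p u' 1)).filter
      (fun u' => ZMod.unitsMap h u' = 1)).card := by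
  obtain ⟨s', hs', hs1⟩ := uR_lift hp h (u * (ZMod.unitsMap h z')⁻¹)
    (uR_div hu ⟨0, 0, rfl⟩)
  have hu0 : uR n' p (s' * z') z' := uR_one_mul hs1 ⟨0, 0, rfl⟩
  have hred : ZMod.unitsMap h (s' * z') = u := by
    rw [map_mul, hs', inv_mul_cancel_right]
  symm
  refine Finset.card_bij (fun v _ => v * (s' * z')) ?_ ?_ ?_
  · intro v hv
    rw [Finset.mem_filter, Finset.mem_filter] at hv ⊢
    refine ⟨⟨Finset.mem_univ _, uR_one_mul hv.1.2 hu0⟩, ?_⟩
    rw [map_mul, hv.2, hred, one_mul]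
  · intro v _ v' _ hvv
    exact mul_right_cancel hvv
  · intro v hv
    rw [Finset.mem_filter, Finset.mem_filter] at hv
    refine ⟨v * (s' * z')⁻¹, ?_, by rw [inv_mul_cancel_right]⟩
    rw [Finset.mem_filter, Finset.mem_filter]
    refine ⟨⟨Finset.mem_univ _, uR_div hv.1.2 hu0⟩, ?_⟩
    rw [map_mul, map_inv, hred, hv.2, mul_inv_cancel]

/-- the sum over a class upstairs -/
theorem fiber_sum {n n' p : ℕ} [NeZero n] [NeZero n'] [DecidableRel (uR n' p)]
    [DecidableRel (uR n p)] (hp : p.Prime)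
    (h : n ∣ n') (z' : (ZMod n')ˣ) (Y : (ZMod n)ˣ → ℚ) :
    ∑ u' ∈ Finset.univ.filter (fun u' => uR n' p u' z'), Y (ZMod.unitsMap h u') =
    (((Finset.univ.filter (fun u' => uR n' p u' 1)).filter
      (fun u' => ZMod.unitsMap h u' = 1)).card : ℚ) *
      ∑ u ∈ Finset.univ.filter (fun u => uR n p u (ZMod.unitsMap h z')), Y u := by
  rw [← Finset.sum_fiberwise_of_maps_to (t := Finset.univ.filter
    (fun u => uR n p u (ZMod.unitsMap h z'))) (g := ZMod.unitsMap h), Finset.mul_sum]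
  · refine Finset.sum_congr rfl fun u hu => ?_
    rw [Finset.mem_filter] at hu
    rw [← fiber_card hp h z' u hu.2]
    rw [Finset.sum_congr rfl (g := fun _ => Y u)]
    · rw [Finset.sum_const, nsmul_eq_mul]
    · intro v hv
      rw [Finset.mem_filter] at hv
      rw [hv.2]
  · intro u' hu'
    rw [Finset.mem_filter] at hu' ⊢
    exact ⟨Finset.mem_univ _, uR_red h hu'.2⟩

theorem gn_pow_val {n n' : ℕ} [NeZero n] [NeZero n'] (h : n ∣ n') (u : (ZMod n')ˣ) :
    gn n ^ (u : ZMod n').val = gn n ^ (ZMod.unitsMap h u : ZMod n).val := by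
  rw [← ofAdd_nsmul, ← ofAdd_nsmul, nsmul_one, nsmul_one, ZMod.natCast_zmod_val,
    ZMod.unitsMap_val, ZMod.cast_eq_val]

theorem cN_gn {n n' : ℕ} (h : n ∣ n') : cN n' n h (gn n') = gn n := by
  change Multiplicative.ofAdd (ZMod.castHom h (ZMod n) 1) = _
  rw [map_one]

end LPF

/-- LPF. -/
theorem t_LPF : S_LPF.{v} := by
  classical
  intro n n' _ _ h N x hx p hp hpn
  obtain ⟨t', ht', hψ⟩ := hx p (hpn.trans h)
  have hc : 0 < ((Finset.univ.filter (fun u' : (ZMod n')ˣ => uR n' p u' 1)).filter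
      (fun u' => ZMod.unitsMap h u' = 1)).card := by
    refine Finset.card_pos.2 ⟨1, ?_⟩
    rw [Finset.mem_filter, Finset.mem_filter]
    exact ⟨⟨Finset.mem_univ _, 0, 0, rfl⟩, map_one _⟩
  -- the sum over the fibres
  have key : ∀ f : (ZMod n)ˣ → ℚ_[p], ∑ u : (ZMod n)ˣ,
      (∑ u' ∈ Finset.univ.filter (fun u' => ZMod.unitsMap h u' = u), t' u') * f u =
      ∑ u' : (ZMod n')ˣ, t' u' * f (ZMod.unitsMap h u') := by
    intro f
    rw [← Finset.sum_fiberwise Finset.univ (fun u' => ZMod.unitsMap h u')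
      (fun u' => t' u' * f (ZMod.unitsMap h u'))]
    refine Finset.sum_congr rfl fun u _ => ?_
    rw [Finset.sum_mul]
    refine Finset.sum_congr rfl fun u' hu' => ?_
    rw [Finset.mem_filter] at hu'
    rw [hu'.2]
  refine ⟨fun u => ∑ u' ∈ Finset.univ.filter (fun u' => ZMod.unitsMap h u' = u), t' u', ?_, ?_⟩
  · intro Y y hY z
    obtain ⟨z', rfl⟩ := ZMod.unitsMap_surjective h z
    have h1 := key (fun u => (Y u : ℚ_[p]))
    rw [hY] at h1
    have h2 := ht' (fun u' => Y (ZMod.unitsMap h u')) y h1.symm z'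
    have h3 := LPF.fiber_sum hp.out h z' Y
    have h4 := LPF.fiber_sum hp.out h z' (fun _ => (1 : ℚ))
    rw [Finset.sum_const, Finset.sum_const, nsmul_eq_mul, nsmul_eq_mul, mul_one, mul_one] at h4
    rw [h3, h4] at h2
    have hc' : (((Finset.univ.filter (fun u' : (ZMod n')ˣ => uR n' p u' 1)).filter
      (fun u' => ZMod.unitsMap h u' = 1)).card : ℚ) ≠ 0 := by
      exact_mod_cast hc.ne'
    apply mul_left_cancel₀ hc'
    linear_combination h2
  · intro G _ ψ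
    obtain ⟨w, hw1, hw2, hw3, hw4⟩ := hψ (ψ.comp (cN n' n h))
    have h1 : K0.map (mapL (grm ψ)) (K0.map (mapL (grm (cN n' n h))) (x p)) =
        K0.map (mapL (grm (ψ.comp (cN n' n h)))) (x p) := by
      rw [K0.map_map, mapL_comp, grm_comp]
    refine ⟨w, ?_, ?_, ?_, hw4⟩
    · rw [h1]
      exact hw1
    · rw [h1]
      exact hw2
    · intro g
      rw [hw3 g]
      have h2 := key (fun u => if IsConj (ψ (gn n) ^ (u : ZMod n).val) g then 1 else 0)
      rw [h2]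
      refine Finset.sum_congr rfl fun u' _ => ?_
      have h3 : (ψ.comp (cN n' n h)) (gn n') ^ (u' : ZMod n').val =
          ψ (gn n) ^ (ZMod.unitsMap h u' : ZMod n).val := by
        rw [MonoidHom.comp_apply, LPF.cN_gn, ← map_pow ψ, ← map_pow ψ, LPF.gn_pow_val h]
      rw [h3]

end Pool.Agent.SM1
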