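import Pool.Agent.SM1.St2
import Pool.Agent.KM.P_ZAD

/-!
# MP_e40716_gt (T1), module NUM
-/

set_option autoImplicit false
set_option linter.unusedSectionVars false

open Matrix Pool.Agent.Lib25 Pool.Agent.KM

noncomputable section

namespace Pool.Agent.SM1

universe u v w

namespace NUM

section Compat

variable {G : Type u} [Group G] {Q : Type v} [Group Q] {G' : Type u} [Group G'] {C : Type} [Group C]
  {k : Type v} [Fintype k] [DecidableEq k]

theorem lau_compat (π : G →* Q) (q : G' →* C)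
    (θ : MonoidAlgebra ℤ G →+* Matrix k k (MonoidAlgebra ℤ G'))
    (θ' : MonoidAlgebra ℤ Q →+* Matrix k k (MonoidAlgebra ℤ C))
    (h : ∀ x, θ' (grm π x) = (θ x).map (grm q)) (x : LG ℤ G) (i j : k) :
    lau θ' (mapL (grm π) x) i j = mapL (grm q) (lau θ x i j) := by
  induction x using AddMonoidAlgebra.induction_linear with
  | zero => simp
  | add a b ha hb =>
    rw [map_add, map_add, map_add, Matrix.add_apply, Matrix.add_apply, map_add, ha, hb]
  | single n a =>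
    rw [mapL_single, lau_single, lau_single, mapL_single, h, Matrix.map_apply]

theorem blow_compat (π : G →* Q) (q : G' →* C)
    (θ : MonoidAlgebra ℤ G →+* Matrix k k (MonoidAlgebra ℤ G'))
    (θ' : MonoidAlgebra ℤ Q →+* Matrix k k (MonoidAlgebra ℤ C))
    (h : ∀ x, θ' (grm π x) = (θ x).map (grm q)) {n : ℕ} (F : Matrix (Fin n) (Fin n) (LG ℤ G)) :
    blow (lau θ') (F.map (mapL (grm π))) = psh q (blow (lau θ) F) := by
  refine Matrix.ext fun i j => ?_
  exact lau_compat π q θ θ' h (F i.1 j.1) i.2 j.2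

theorem res_ngo (π : G →* Q) (q : G' →* C)
    (θ : MonoidAlgebra ℤ G →+* Matrix k k (MonoidAlgebra ℤ G'))
    (θ' : MonoidAlgebra ℤ Q →+* Matrix k k (MonoidAlgebra ℤ C))
    (h : ∀ x, θ' (grm π x) = (θ x).map (grm q)) {n : ℕ} (F : Matrix (Fin n) (Fin n) (LG ℤ G))
    (hF : F * F = F) (hB : psh q (blow (lau θ) F) * psh q (blow (lau θ) F) =
      psh q (blow (lau θ) F)) :
    Kn θ' (Kg π (ngo F hF)) = ngo (psh q (blow (lau θ) F)) hB := by
  rw [map_ngo, Kn_ngo]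
  congr 1
  exact blow_compat π q θ θ' h F

end Compat

/-- The homomorphism of the centralizer in a subgroup. -/
theorem exists_centralizer {G : Type u} [Group G] (G' : Subgroup G) (g : G')
    (h : ∃ f : Subgroup.centralizer {(g : G)} →* Multiplicative ℤ,
      f ⟨(g : G), Subgroup.mem_centralizer_singleton_iff.2 rfl⟩ ≠ 1) :
    ∃ f : Subgroup.centralizer {g} →* Multiplicative ℤ,
      f ⟨g, Subgroup.mem_centralizer_singleton_iff.2 rfl⟩ ≠ 1 := by
  obtain ⟨f, hf⟩ := h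
  refine ⟨f.comp
    { toFun := fun c => ⟨((c : G') : G), Subgroup.mem_centralizer_singleton_iff.2 ?_⟩
      map_one' := rfl
      map_mul' := fun _ _ => rfl }, hf⟩
  have h1 := Subgroup.mem_centralizer_singleton_iff.1 c.2
  exact congrArg Subtype.val h1

/-- The transversal. -/
theorem exists_tr {G : Type u} [Group G] {Q : Type v} [Group Q] (π : G →* Q)
    (hπ : Function.Surjective π) {C : Type} [Group C] (φ : C →* Q) (hφ : Function.Injective φ) :
    ∃ s : (Q ⧸ φ.range) → G, Pool.Agent.SM1.Tr φ (fun i => π (s i)) := by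
  have h1 : ∀ i : Q ⧸ φ.range, ∃ g : G, (QuotientGroup.mk (π g) : Q ⧸ φ.range) = i := by
    intro i
    obtain ⟨x, rfl⟩ := QuotientGroup.mk_surjective i
    obtain ⟨g, rfl⟩ := hπ x
    exact ⟨g, rfl⟩
  choose s hs using h1
  have hcl : ∀ (i : Q ⧸ φ.range) (x : C),
      (QuotientGroup.mk (π (s i) * φ x) : Q ⧸ φ.range) = i := by
    intro i x
    rw [← hs i, hs i]
    conv_rhs => rw [← hs i]
    rw [QuotientGroup.eq]
    have : (π (s i) * φ x)⁻¹ * π (s i) = φ x⁻¹ := by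
      rw [map_inv]; group
    rw [this]
    exact ⟨_, rfl⟩
  refine ⟨s, ?_, ?_⟩
  · rintro ⟨i, x⟩ ⟨j, y⟩ hxy
    have hxy' : π (s i) * φ x = π (s j) * φ y := hxy
    have hij : i = j := by
      rw [← hcl i x, ← hcl j y, hxy']
    subst hij
    have := hφ (mul_left_cancel hxy')
    subst this
    rfl
  · intro g
    have h2 : (QuotientGroup.mk (π (s (QuotientGroup.mk g))) : Q ⧸ φ.range) =
        QuotientGroup.mk g := hs _
    rw [QuotientGroup.eq] at h2
    obtain ⟨x, hx⟩ := h2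
    refine ⟨(QuotientGroup.mk g, x), ?_⟩
    change π (s (QuotientGroup.mk g)) * φ x = g
    rw [hx]
    group

theorem tcl_nsmul {N : ℕ} (D : ℕ) (x : TP N) (a : ℤ)
    (h : ∀ (p : N.primeFactors) (K : ℕ), (D : ZMod ((p : ℕ) ^ K)) * x p K = (a : ZMod _)) :
    D • tcl N x = 0 := by
  rw [← map_nsmul, tcl_eq_zero]
  refine ⟨a, fun p K => ?_⟩
  rw [← h p K]
  change D • x p K = _
  rw [nsmul_eq_mul]

theorem exists_of_tcl_nsmul {N : ℕ} (D : ℕ) (x : TP N) (h : D • tcl N x = 0) :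
    ∃ a : ℤ, ∀ (p : N.primeFactors) (K : ℕ),
      (D : ZMod ((p : ℕ) ^ K)) * x p K = (a : ZMod _) := by
  rw [← map_nsmul, tcl_eq_zero] at h
  obtain ⟨a, ha⟩ := h
  refine ⟨a, fun p K => ?_⟩
  rw [← ha p K]
  change _ = D • x p K
  rw [nsmul_eq_mul]

/-- The identity matrix. -/
theorem trivOver_one {Q : Type v} [Group Q] (n p : ℕ) [Fact p.Prime] :
    TrivOver ℤ_[p] (1 : Matrix (Fin n) (Fin n) (LG ℤ Q)) (fun _ => 0) := by
  refine ⟨n, 1, 1, ?_, ?_, fun h => ?_⟩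
  · rw [Matrix.one_mul]
    exact (Matrix.map_one _ (map_zero _) (map_one _)).symm
  · rw [Matrix.one_mul]
  · rw [map_DL_one, Matrix.mul_zero, Matrix.trace_zero, map_zero]

/-- The numbers at one element `h`. -/
theorem main (hSUM : S_SUM.{u, v}) (hRHO : S_RHO.{v}) (hRES1 : S_RES.{u, u, v})
    (hRES2 : S_RES.{v, 0, v}) (hRCM : S_RCM.{u, v}) (hTRV : S_TRV.{v})
    {G : Type u} [Group G] {Q : Type v} [Group Q] [Finite Q] (π : G →* Q)
    (hπ : Function.Surjective π) (hZ : Z1 π) (z : K0 (LG ℤ G)) (m : ℕ)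
    (E : IdemMat (LG ℤ Q)) (k0 : ℕ)
    (hX : KNegOne.mk (K0.of E - K0.of (IdemMat.free _ k0)) =
      m • KNegOne.mk (K0.map (mapL (grm π)) z))
    (h : Q) (hno : NoFin π h) (hh : 1 < orderOf h) :
    ∃ r : ℚ, ∀ (p : ℕ) [Fact p.Prime] (zz : Q → ℤ_[p]), p ∣ orderOf h →
      TrivOver ℤ_[p] E.mat zz → (zz h : ℚ_[p]) = (r : ℚ_[p]) := by
  classical
  obtain ⟨N, hN⟩ : ∃ N, N = orderOf h := ⟨_, rfl⟩
  rw [← hN] at hh ⊢
  have : NeZero N := ⟨by omega⟩
  have hpw : h ^ N = 1 := by rw [hN]; exact pow_orderOf_eq_one h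
  obtain ⟨φ, hφi, hφg⟩ : ∃ φ : Cy N →* Q, Function.Injective φ ∧ φ (gn N) = h :=
    ⟨ZAD.hmg N h hpw, ZAD.hmg_inj hN.symm hpw, ZAD.hmg_gn N h hpw⟩
  let _ : Fintype (Q ⧸ φ.range) := Fintype.ofFinite _
  obtain ⟨s, hs⟩ := exists_tr π hπ φ hφi
  obtain ⟨hs', q, hq, hqc⟩ := hRCM.2 π φ s hs
  obtain ⟨θ, hθ⟩ := hRES1 (A := ℤ) (φ.range.comap π).subtype s hs'
  obtain ⟨θ', hθ'⟩ := hRES2 (A := ℤ) φ (fun i => π (s i)) hs
  have hc := hqc θ θ' hθ hθ'
  obtain ⟨c, hc0, hcc⟩ := hTRV N hh φ (fun i => π (s i)) hs θ' hθ'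
  obtain ⟨ρ, hρ⟩ := hRHO N hh
  -- the multiples of the images
  have key : ∀ F : IdemMat (LG ℤ G), ∃ D : ℕ, 0 < D ∧
      D • ρ (Kn θ' (Kg π (KNegOne.mk (K0.of F)))) = 0 := by
    intro F
    have hB := blow_idem (lau θ) F.idem
    obtain ⟨D, a, hD, hDa⟩ := hSUM N hh q (fun g hg => by
      apply exists_centralizer
      apply hZ
      have : π (g : G) = h := by rw [← hq g, hg, hφg]
      rw [this]
      exact hno) (blow (lau θ) F.mat) hB
    refine ⟨D, hD, ?_⟩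
    have h1 : KNegOne.mk (K0.of F) = ngo F.mat F.idem := by
      unfold ngo
      rw [of_eq_cl]
    have hB' : psh q (blow (lau θ) F.mat) * psh q (blow (lau θ) F.mat) =
      psh q (blow (lau θ) F.mat) := by
      rw [← Matrix.map_mul, hB]
    rw [h1, res_ngo π q θ θ' hc F.mat F.idem hB', hρ]
    exact tcl_nsmul D _ a (fun p K => hDa p K (Nat.prime_of_mem_primeFactors p.2)
      (Nat.dvd_of_mem_primeFactors p.2))
  obtain ⟨D, hD, hDz⟩ : ∃ D : ℕ, 0 < D ∧ D • ρ (Kn θ' (Kg π (KNegOne.mk z))) = 0 := by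
    obtain ⟨F, F', rfl⟩ := K0.exists_sub z
    obtain ⟨D, hD, h1⟩ := key F
    obtain ⟨D', hD', h2⟩ := key F'
    refine ⟨D * D', Nat.mul_pos hD hD', ?_⟩
    rw [map_sub, map_sub, map_sub, map_sub, smul_sub, mul_comm D D', mul_smul, h1, smul_zero,
      mul_comm D' D, mul_smul, h2, smul_zero, sub_zero]
  have hE : ρ (Kn θ' (KNegOne.mk (K0.of E))) = tcl N (fun p K =>
      rg (cN N p (Nat.dvd_of_mem_primeFactors p.2)) (rd ((p : ℕ) ^ K) (blow (lau θ') E.mat))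
        (gn N)) := by
    have h1 : KNegOne.mk (K0.of E) = ngo E.mat E.idem := by
      unfold ngo
      rw [of_eq_cl]
    rw [h1, Kn_ngo, hρ]
  have hI : ρ (Kn θ' (KNegOne.mk (K0.of (IdemMat.free (LG ℤ Q) k0)))) = 0 := by
    have h1 : KNegOne.mk (K0.of (IdemMat.free (LG ℤ Q) k0)) =
        ngo (1 : Matrix (Fin k0) (Fin k0) (LG ℤ Q)) (Matrix.one_mul 1) := by
      unfold ngo
      rw [of_eq_cl]
      rfl
    rw [h1, Kn_ngo, hρ, tcl_eq_zero]
    refine ⟨0, fun p K => ?_⟩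
    have : Fact (p : ℕ).Prime := ⟨Nat.prime_of_mem_primeFactors p.2⟩
    rw [hcc k0 1 (Matrix.one_mul 1) p (Nat.dvd_of_mem_primeFactors p.2) (fun _ => 0)
      (trivOver_one k0 p) K, map_zero, mul_zero, Int.cast_zero]
  have hfin : D • tcl N (fun p K =>
      rg (cN N p (Nat.dvd_of_mem_primeFactors p.2)) (rd ((p : ℕ) ^ K) (blow (lau θ') E.mat))
        (gn N)) = 0 := by
    rw [← hE]
    have h1 : ρ (Kn θ' (KNegOne.mk (K0.of E))) =
        ρ (Kn θ' (KNegOne.mk (K0.of E - K0.of (IdemMat.free _ k0)))) := by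
      rw [map_sub, map_sub, map_sub, hI, sub_zero]
    rw [h1, hX, map_nsmul, map_nsmul, smul_comm]
    change m • (D • ρ (Kn θ' (Kg π (KNegOne.mk z)))) = 0
    rw [hDz, smul_zero]
  obtain ⟨a, ha⟩ := exists_of_tcl_nsmul D _ hfin
  refine ⟨(a : ℚ) / ((D * c : ℕ) : ℚ), fun p _ zz hp hzz => ?_⟩
  have hpN : p ∈ N.primeFactors := by
    rw [Nat.mem_primeFactors]
    exact ⟨Fact.out, hp, by omega⟩
  have h1 : ((D * c : ℕ) : ℤ_[p]) * zz h = (a : ℤ_[p]) := by
    rw [← PadicInt.ext_of_toZModPow]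
    intro K
    have h2 := ha ⟨p, hpN⟩ K
    have h3 := hcc E.n E.mat E.idem p hp zz hzz K
    rw [hφg] at h3
    dsimp only at h2
    rw [h3] at h2
    rw [map_mul, map_natCast, map_intCast, Nat.cast_mul, mul_assoc]
    exact h2
  have h2 : ((D * c : ℕ) : ℚ_[p]) * (zz h : ℚ_[p]) = (a : ℚ_[p]) := by
    rw [← PadicInt.coe_natCast, ← PadicInt.coe_mul, h1, PadicInt.coe_intCast]
  have h0 : ((D * c : ℕ) : ℚ_[p]) ≠ 0 := by
    rw [Nat.cast_ne_zero]
    exact (Nat.mul_pos hD hc0).ne'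
  rw [Rat.cast_div, Rat.cast_intCast, Rat.cast_natCast, eq_div_iff h0, mul_comm]
  exact h2

end NUM

/-- NUM. -/
theorem t_NUM (hSUM : S_SUM.{u, v}) (hRHO : S_RHO.{v}) (hRES1 : S_RES.{u, u, v})
    (hRES2 : S_RES.{v, 0, v}) (hRCM : S_RCM.{u, v}) (hTRV : S_TRV.{v}) : S_NUM.{u, v} := by
  classical
  intro G _ Q _ _ π hπ hZ z X m hX w hw
  obtain ⟨E, k0, y, h1, -, h3⟩ := hw
  rw [h1] at hX
  have key : ∀ h : Q, ∃ r : ℚ, NoFin π h → ∀ (p : ℕ) [Fact p.Prime] (zz : Q → ℤ_[p]),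
      p ∣ orderOf h → TrivOver ℤ_[p] E.mat zz → (zz h : ℚ_[p]) = (r : ℚ_[p]) := by
    intro h
    by_cases hno : NoFin π h
    · by_cases hh : 1 < orderOf h
      · obtain ⟨r, hr⟩ := NUM.main hSUM hRHO hRES1 hRES2 hRCM hTRV π hπ hZ z m E k0 hX h hno hh
        exact ⟨r, fun _ => hr⟩
      · refine ⟨0, fun _ p hp zz hd => ?_⟩
        exfalso
        have h4 : orderOf h = 1 := by
          have := orderOf_pos h
          omega
        rw [h4] at hd
        exact hp.out.one_lt.ne' (Nat.dvd_one.1 hd)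
    · exact ⟨0, fun hno' => absurd hno' hno⟩
  choose r hr using key
  refine ⟨fun h => y h - r h, fun p _ h hp hno => ?_⟩
  obtain ⟨zz, hzz, hw⟩ := h3 p
  rw [hw h, hr h hno p zz hp hzz, Rat.cast_sub]

end Pool.Agent.SM1
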