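import Pool.Agent.SM1.St
import Pool.Agent.Lib_helper25.Detect

/-!
# MP_e40716_gt (T1), module POL: polynomial idempotents
-/

set_option autoImplicit false
set_option linter.unusedSectionVars false

open Matrix Pool.Agent.Lib25 Pool.Agent.KM

noncomputable section

namespace Pool.Agent.SM1

universe u v w

namespace POL

section Deg

variable {S : Type*} [Ring S]

theorem coeff_DL (x : LaurentPolynomial S) (n : ℤ) : (DL x).coeff n = n • x.coeff n := by
  induction x using AddMonoidAlgebra.induction_linear with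
  | zero => simp
  | add f g hf hg =>
    rw [map_add, AddMonoidAlgebra.coeff_add, Finsupp.add_apply, hf, hg, AddMonoidAlgebra.coeff_add,
      Finsupp.add_apply, smul_add]
  | single m a =>
    rw [DL_single, AddMonoidAlgebra.coeff_single, Finsupp.single_apply,
      AddMonoidAlgebra.coeff_single, Finsupp.single_apply]
    by_cases h : m = n
    · rw [if_pos h, if_pos h, h]
    · rw [if_neg h, if_neg h, smul_zero]

theorem coeff_neg (x : LaurentPolynomial S) (n : ℤ) : (-x).coeff n = -x.coeff n := by
  rw [AddMonoidAlgebra.coeff_neg, Finsupp.neg_apply]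

theorem coeff_one (n : ℤ) (h : n ≠ 0) : (1 : LaurentPolynomial S).coeff n = 0 := by
  have h1 : (1 : LaurentPolynomial S) = AddMonoidAlgebra.single 0 1 := rfl
  rw [h1, AddMonoidAlgebra.coeff_single, Finsupp.single_apply, if_neg (Ne.symm h)]

/-- The entries of a degree condition. -/
structure Good (P Q : LaurentPolynomial S → Prop) : Prop where
  zero : P 0
  one : P 1
  add : ∀ x y, P x → P y → P (x + y)
  neg : ∀ x, P x → P (-x)
  mul : ∀ x y, P x → P y → P (x * y)
  dl : ∀ x, P x → Q (DL x)
  qz : Q 0
  qadd : ∀ x y, Q x → Q y → Q (x + y)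
  pq : ∀ x y, P x → Q y → Q (x * y)
  q0 : ∀ x, Q x → coeffZero x = 0

theorem good_pos : Good (DegGE 0 : LaurentPolynomial S → Prop) (DegGE 1) where
  zero := DegGE.zero 0
  one := fun n hn => coeff_one n (by omega)
  add := fun x y hx hy => hx.add hy
  neg := fun x hx n hn => by rw [coeff_neg, hx n hn, neg_zero]
  mul := fun x y hx hy => by
    have h := hx.mul hy
    rw [add_zero] at h
    exact h
  dl := fun x hx n hn => by
    rw [coeff_DL]
    by_cases h : n = 0
    · rw [h, zero_smul]
    · rw [hx n (by omega), smul_zero]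
  qz := DegGE.zero 1
  qadd := fun x y hx hy => hx.add hy
  pq := fun x y hx hy => by
    have h := hx.mul hy
    rw [zero_add] at h
    exact h
  q0 := fun x hx => hx 0 (by omega)

theorem good_neg : Good (DegLE 0 : LaurentPolynomial S → Prop) (DegLE (-1)) where
  zero := DegLE.zero 0
  one := fun n hn => coeff_one n (by omega)
  add := fun x y hx hy => hx.add hy
  neg := fun x hx n hn => by rw [coeff_neg, hx n hn, neg_zero]
  mul := fun x y hx hy => by
    have h := hx.mul hy
    rw [add_zero] at h
    exact h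
  dl := fun x hx n hn => by
    rw [coeff_DL]
    by_cases h : n = 0
    · rw [h, zero_smul]
    · rw [hx n (by omega), smul_zero]
  qz := DegLE.zero (-1)
  qadd := fun x y hx hy => hx.add hy
  pq := fun x y hx hy => by
    have h := hx.mul hy
    rw [zero_add] at h
    exact h
  q0 := fun x hx => hx 0 (by omega)

variable {P Q : LaurentPolynomial S → Prop} (hG : Good P Q)

include hG

theorem Good.psum {ι : Type*} (s : Finset ι) (f : ι → LaurentPolynomial S) (h : ∀ i, P (f i)) :
    P (∑ i ∈ s, f i) := by
  classical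
  induction s using Finset.induction_on with
  | empty => exact hG.zero
  | insert a s ha ih =>
    rw [Finset.sum_insert ha]
    exact hG.add _ _ (h a) ih

theorem Good.qsum {ι : Type*} (s : Finset ι) (f : ι → LaurentPolynomial S) (h : ∀ i, Q (f i)) :
    Q (∑ i ∈ s, f i) := by
  classical
  induction s using Finset.induction_on with
  | empty => exact hG.qz
  | insert a s ha ih =>
    rw [Finset.sum_insert ha]
    exact hG.qadd _ _ (h a) ih

variable {ι : Type*} [Fintype ι] [DecidableEq ι]

theorem Good.mone (i j : ι) : P ((1 : Matrix ι ι (LaurentPolynomial S)) i j) := by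
  rw [Matrix.one_apply]
  split_ifs
  · exact hG.one
  · exact hG.zero

theorem Good.mmul {x y : Matrix ι ι (LaurentPolynomial S)} (hx : ∀ i j, P (x i j))
    (hy : ∀ i j, P (y i j)) (i j : ι) : P ((x * y) i j) := by
  rw [Matrix.mul_apply]
  exact hG.psum _ _ fun k => hG.mul _ _ (hx i k) (hy k j)

theorem Good.mpow {x : Matrix ι ι (LaurentPolynomial S)} (hx : ∀ i j, P (x i j)) (n : ℕ) :
    ∀ i j, P ((x ^ n) i j) := by
  induction n with
  | zero =>
    rw [pow_zero]
    exact hG.mone
  | succ n ih =>
    rw [pow_succ]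
    exact hG.mmul ih hx

/-- The inverse of a matrix `1 - y` with `y` nilpotent. -/
theorem Good.inv {t t' : Matrix ι ι (LaurentPolynomial S)} (ht : ∀ i j, P (t i j))
    (h : t' * t = 1) (hn : IsNilpotent (1 - t)) (i j : ι) : P (t' i j) := by
  obtain ⟨m, hm⟩ := hn
  have h1 : t * ∑ k ∈ Finset.range m, (1 - t) ^ k = 1 := by
    have h2 := mul_neg_geom_sum (1 - t) m
    rw [hm, sub_zero, sub_sub_cancel] at h2
    exact h2
  have h3 : t' = ∑ k ∈ Finset.range m, (1 - t) ^ k := by
    calc t' = t' * (t * ∑ k ∈ Finset.range m, (1 - t) ^ k) := by rw [h1, mul_one]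
      _ = (t' * t) * ∑ k ∈ Finset.range m, (1 - t) ^ k := (mul_assoc _ _ _).symm
      _ = ∑ k ∈ Finset.range m, (1 - t) ^ k := by rw [h, one_mul]
  have hx : ∀ i j, P ((1 - t) i j) := by
    intro i j
    rw [Matrix.sub_apply, sub_eq_add_neg]
    exact hG.add _ _ (hG.mone i j) (hG.neg _ (ht i j))
  rw [h3, Matrix.sum_apply]
  exact hG.psum _ _ fun k => hG.mpow hx k i j

theorem Good.trace {x y z : Matrix ι ι (LaurentPolynomial S)} (hx : ∀ i j, P (x i j))
    (hy : ∀ i j, P (y i j)) (hz : ∀ i j, P (z i j)) :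
    coeffZero (Matrix.trace (x * y * z.map DL)) = 0 := by
  apply hG.q0
  unfold Matrix.trace
  refine hG.qsum _ _ fun i => ?_
  rw [Matrix.diag_apply, Matrix.mul_apply]
  exact hG.qsum _ _ fun k => hG.pq _ _ (hG.mmul hx hy i k) (hG.dl _ (hz k i))

end Deg

end POL

open POL in
theorem t_POL (hDIV : S_DIV.{u, w}) (hUNI : S_UNI.{u, w}) : S_POL.{u, w} := by
  intro G _ p K hp q ι _ _ e he hdeg g
  obtain ⟨hU1, _, hU3, _, _⟩ := hUNI hp q e he
  have hnil : IsNilpotent (1 - th q e) := by
    have h := hDIV.2.2.2 hp (th q e - 1) hU1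
    rw [← neg_sub (th q e) 1]
    exact h.neg
  -- the general argument
  have key : ∀ P Q : LG (ZMod (p ^ K)) (G × Cy p) → Prop, Good P Q →
      (∀ i j, P (E0 p e i j)) → (∀ i j, P (E1 q e i j)) → rg q e g = 0 := by
    intro P Q hG h0 h1
    have hc : ∀ x : Matrix ι ι (LG (ZMod (p ^ K)) (G × Cy p)), (∀ i j, P (x i j)) →
        ∀ i j, P ((1 - x) i j) := by
      intro x hx i j
      rw [Matrix.sub_apply, sub_eq_add_neg]
      exact hG.add _ _ (hG.mone i j) (hG.neg _ (hx i j))
    have hth : ∀ i j, P (th q e i j) := by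
      intro i j
      unfold th
      rw [Matrix.add_apply]
      exact hG.add _ _ (hG.mmul h1 h0 i j) (hG.mmul (hc _ h1) (hc _ h0) i j)
    have hinv : ∀ i j, P (Ring.inverse (th q e) i j) := hG.inv hth hU3 hnil
    have hz := hG.trace h0 hinv hth
    unfold rg OM tauL
    rw [AddMonoidHom.comp_apply, hz, map_zero]
  rcases hdeg with h | h
  · exact key _ _ good_pos (fun i j => (h i j).mapL _) (fun i j => (h i j).mapL _)
  · exact key _ _ good_neg (fun i j => (h i j).mapL _) (fun i j => (h i j).mapL _)

end Pool.Agent.SM1
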