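import Pool.Agent.SM1.St2

/-!
# MP_e40716_gt (T1): module RCM, compatibilities of restriction homomorphisms
-/

set_option autoImplicit false
set_option linter.unusedSectionVars false

open Matrix Pool.Agent.Lib25 Pool.Agent.KM

noncomputable section

namespace Pool.Agent.SM1

universe u v w

namespace RCM

theorem coeff_sg {A : Type*} [CommRing A] {G : Type*} [Group G] (g h : G) (a : A) [Decidable (g = h)] :
    (MonoidAlgebra.single g a).coeff h = if g = h then a else 0 := by
  rw [MonoidAlgebra.coeff_single, Finsupp.single_apply]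

/-- The coefficients of `cgm f id x`. -/
theorem cgm_coeff {A B : Type*} [CommRing A] [CommRing B] {G : Type*} [Group G] (f : A →+* B)
    (x : MonoidAlgebra A G) (g : G) :
    (cgm f (MonoidHom.id G) x).coeff g = f (x.coeff g) := by
  classical
  induction x using MonoidAlgebra.induction_linear with
  | zero => simp
  | add a b ha hb =>
    rw [map_add, MonoidAlgebra.coeff_add, MonoidAlgebra.coeff_add, Finsupp.add_apply,
      Finsupp.add_apply, ha, hb, map_add]
  | single c r =>
    rw [cgm_single, MonoidHom.id_apply, coeff_sg, coeff_sg]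
    split_ifs
    · rfl
    · rw [map_zero]

theorem part1 {A B : Type*} [CommRing A] [CommRing B] {G : Type*} [Group G] {H : Type*} [Group H]
    {k : Type*} [Fintype k] [DecidableEq k] (φ : H →* G) (s : k → G) (f : A →+* B)
    (θ : MonoidAlgebra A G →+* Matrix k k (MonoidAlgebra A H))
    (θ' : MonoidAlgebra B G →+* Matrix k k (MonoidAlgebra B H)) (h1 : IsRes φ s θ)
    (h2 : IsRes φ s θ') (x : MonoidAlgebra A G) :
    θ' (cgm f (MonoidHom.id G) x) = (θ x).map (cgm f (MonoidHom.id H)) := by
  ext i j h
  rw [h2, cgm_coeff, Matrix.map_apply, cgm_coeff, h1]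

section Two

variable {G : Type*} [Group G] {Q : Type*} [Group Q] {C : Type*} [Group C] (π : G →* Q)
  (φ : C →* Q) {k : Type*} (s : k → G)

theorem inj_of_tr (h : Tr φ (fun i => π (s i))) : Function.Injective φ := by
  obtain ⟨⟨i, c0⟩, -⟩ := h.2 1
  intro c c' hc
  have := @h.1 (i, c) (i, c') (by simp only [hc])
  exact (Prod.ext_iff.1 this).2

theorem tr_sub (h : Tr φ (fun i => π (s i))) : Tr (φ.range.comap π).subtype s := by
  constructor
  · rintro ⟨i, y⟩ ⟨j, y'⟩ hy
    obtain ⟨c, hc⟩ := y.2
    obtain ⟨c', hc'⟩ := y'.2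
    have hy1 : s i * (y : G) = s j * (y' : G) := hy
    have h2 : π (s i) * φ c = π (s j) * φ c' := by
      rw [hc, hc', ← map_mul, ← map_mul, hy1]
    have h3 : (i, c) = (j, c') := h.1 h2
    have h4 : i = j := (Prod.ext_iff.1 h3).1
    subst h4
    have h5 : (y : G) = (y' : G) := mul_left_cancel hy1
    rw [Subtype.ext h5]
  · intro g
    obtain ⟨⟨j, c⟩, hc⟩ := h.2 (π g)
    have hc1 : π (s j) * φ c = π g := hc
    refine ⟨(j, ⟨(s j)⁻¹ * g, ?_⟩), ?_⟩
    · refine ⟨c, ?_⟩
      rw [map_mul, map_inv, ← hc1, inv_mul_cancel_left]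
    · change s j * ((s j)⁻¹ * g) = g
      rw [mul_inv_cancel_left]

/-- The homomorphism `q`. -/
def qq (hφ : Function.Injective φ) : (φ.range.comap π) →* C :=
  (MonoidHom.ofInjective hφ).symm.toMonoidHom.comp (π.subgroupComap φ.range)

theorem qq_spec (hφ : Function.Injective φ) (y : φ.range.comap π) : φ (qq π φ hφ y) = π y := by
  have h1 : (MonoidHom.ofInjective hφ) (qq π φ hφ y) = (π.subgroupComap φ.range) y :=
    (MonoidHom.ofInjective hφ).apply_symm_apply _
  have h2 := congrArg Subtype.val h1
  exact h2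

theorem part3 [Fintype k] [DecidableEq k] (hφ : Function.Injective φ)
    (q : (φ.range.comap π) →* C) (hq : ∀ y, φ (q y) = π y)
    (θ : MonoidAlgebra ℤ G →+* Matrix k k (MonoidAlgebra ℤ (φ.range.comap π)))
    (θ' : MonoidAlgebra ℤ Q →+* Matrix k k (MonoidAlgebra ℤ C))
    (h1 : IsRes (φ.range.comap π).subtype s θ) (h2 : IsRes φ (fun i => π (s i)) θ')
    (x : MonoidAlgebra ℤ G) : θ' (grm π x) = (θ x).map (grm q) := by
  classical
  induction x using MonoidAlgebra.induction_linear with
  | zero =>
    rw [map_zero, map_zero, map_zero]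
    ext i j h
    simp
  | add a b ha hb =>
    rw [map_add, map_add, map_add, ha, hb]
    refine Matrix.ext fun i j => ?_
    rw [Matrix.add_apply, Matrix.map_apply, Matrix.map_apply, Matrix.map_apply, Matrix.add_apply,
      map_add]
  | single g a =>
    ext i j c
    rw [h2, grm_single, coeff_sg, Matrix.map_apply]
    by_cases hy : (s i)⁻¹ * g * s j ∈ φ.range.comap π
    · have h3 : θ (MonoidAlgebra.single g a) i j =
          MonoidAlgebra.single (⟨(s i)⁻¹ * g * s j, hy⟩ : φ.range.comap π) a := by
        ext y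
        rw [h1, coeff_sg, coeff_sg]
        have h4 : (g = s i * (φ.range.comap π).subtype y * (s j)⁻¹) ↔
            ((⟨(s i)⁻¹ * g * s j, hy⟩ : φ.range.comap π) = y) := by
          rw [Subtype.ext_iff]
          change (g = s i * (y : G) * (s j)⁻¹) ↔ ((s i)⁻¹ * g * s j = (y : G))
          constructor
          · intro h; rw [h]; group
          · intro h; rw [← h]; group
        by_cases h5 : g = s i * (φ.range.comap π).subtype y * (s j)⁻¹
        · rw [if_pos h5, if_pos (h4.1 h5)]
        · rw [if_neg h5, if_neg (fun h => h5 (h4.2 h))]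
      rw [h3, grm_single, coeff_sg]
      have h6 : (π g = π (s i) * φ c * (π (s j))⁻¹) ↔
          (q (⟨(s i)⁻¹ * g * s j, hy⟩ : φ.range.comap π) = c) := by
        rw [← hφ.eq_iff, hq]
        change (π g = π (s i) * φ c * (π (s j))⁻¹) ↔ (π ((s i)⁻¹ * g * s j) = φ c)
        rw [map_mul, map_mul, map_inv]
        constructor
        · intro h; rw [h]; group
        · intro h; rw [← h]; group
      by_cases h7 : π g = π (s i) * φ c * (π (s j))⁻¹
      · rw [if_pos h7, if_pos (h6.1 h7)]
      · rw [if_neg h7, if_neg (fun h => h7 (h6.2 h))]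
    · have h3 : θ (MonoidAlgebra.single g a) i j = 0 := by
        ext y
        rw [h1, coeff_sg, if_neg]
        · rfl
        · intro h
          apply hy
          have h4 : (s i)⁻¹ * g * s j = (y : G) := by
            rw [h]
            change (s i)⁻¹ * (s i * (y : G) * (s j)⁻¹) * s j = (y : G)
            group
          rw [h4]
          exact y.2
      rw [h3, map_zero, if_neg]
      · rfl
      · intro h
        apply hy
        refine ⟨c, ?_⟩
        rw [map_mul, map_mul, map_inv, h]
        group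

end Two

end RCM

open RCM in
/-- Module RCM. -/
theorem t_RCM : S_RCM.{u, v} := by
  refine ⟨?_, ?_⟩
  · intro A B _ _ G _ H _ k _ _ φ s f θ θ' h1 h2 x
    exact part1 φ s f θ θ' h1 h2 x
  · intro G _ Q _ C _ π φ k _ _ s h
    refine ⟨tr_sub π φ s h, qq π φ (inj_of_tr π φ s h), qq_spec π φ (inj_of_tr π φ s h), ?_⟩
    intro θ θ' h1 h2 x
    exact part3 π φ s (inj_of_tr π φ s h) _ (qq_spec π φ (inj_of_tr π φ s h)) θ θ' h1 h2 x

end Pool.Agent.SM1
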