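import Pool.Agent.SM1.St2

/-!
# Project SM1, module RES: the restriction homomorphism
-/

set_option autoImplicit false
set_option linter.unusedSectionVars false

open Matrix Pool.Agent.Lib25 Pool.Agent.KM

noncomputable section

namespace Pool.Agent.SM1

universe u v w

namespace RES

variable {A : Type} [CommRing A] {G : Type u} [Group G] {H : Type v} [Group H]
  {k : Type w} [Fintype k] [DecidableEq k] {φ : H →* G} {s : k → G}

/-- the inverse of the bijection of `Tr` -/
def iv (hT : Tr φ s) : G → k × H := (Equiv.ofBijective _ hT).symm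

lemma iv_spec (hT : Tr φ s) (g : G) : s (iv hT g).1 * φ (iv hT g).2 = g :=
  (Equiv.ofBijective _ hT).apply_symm_apply g

lemma iv_eq (hT : Tr φ s) (i : k) (h : H) : iv hT (s i * φ h) = (i, h) :=
  (Equiv.ofBijective _ hT).symm_apply_apply (i, h)

/-- the matrix of a group element -/
def T (A : Type) [CommRing A] (hT : Tr φ s) (x : G) : Matrix k k (MonoidAlgebra A H) :=
  Matrix.of fun i j => if i = (iv hT (x * s j)).1 then
    MonoidAlgebra.single (iv hT (x * s j)).2 1 else 0

lemma T_one (hT : Tr φ s) : T A hT 1 = 1 := by
  ext1 i j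
  have h1 : iv hT (1 * s j) = (j, 1) := by
    have := iv_eq hT j 1
    rwa [map_one, mul_one, ← one_mul (s j)] at this
  simp only [T, Matrix.of_apply, h1, Matrix.one_apply]
  split_ifs <;> rfl

lemma T_mul (hT : Tr φ s) (x y : G) : T A hT (x * y) = T A hT x * T A hT y := by
  ext1 i j
  set l := (iv hT (y * s j)).1 with hl
  set h0 := (iv hT (y * s j)).2 with hh0
  have e0 : s l * φ h0 = y * s j := iv_spec hT _
  set i1 := (iv hT (x * s l)).1 with hi1
  set h1 := (iv hT (x * s l)).2 with hh1
  have e1 : s i1 * φ h1 = x * s l := iv_spec hT _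
  have e2 : iv hT (x * y * s j) = (i1, h1 * h0) := by
    have : x * y * s j = s i1 * φ (h1 * h0) := by
      rw [map_mul, ← mul_assoc, e1, mul_assoc x (s l), e0, mul_assoc]
    rw [this, iv_eq]
  rw [Matrix.mul_apply, Finset.sum_eq_single l]
  · simp only [T, Matrix.of_apply, e2, ← hl, ← hh0, ← hi1, ← hh1, if_true]
    split_ifs
    · rw [MonoidAlgebra.single_mul_single, one_mul]
    · rw [zero_mul]
  · intro b _ hb
    simp only [T, Matrix.of_apply, ← hl]
    rw [if_neg hb, mul_zero]
  · intro h
    exact absurd (Finset.mem_univ l) h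

/-- the homomorphism to matrices -/
def TH (A : Type) [CommRing A] (hT : Tr φ s) : G →* Matrix k k (MonoidAlgebra A H) where
  toFun := T A hT
  map_one' := T_one hT
  map_mul' := T_mul hT

/-- the restriction homomorphism -/
def th (A : Type) [CommRing A] (hT : Tr φ s) :
    MonoidAlgebra A G →+* Matrix k k (MonoidAlgebra A H) :=
  MonoidAlgebra.liftNCRingHom (algebraMap A (Matrix k k (MonoidAlgebra A H))) (TH A hT)
    (fun a x => Algebra.commutes a (TH A hT x))

lemma th_single (hT : Tr φ s) (x : G) (a : A) :
    th A hT (MonoidAlgebra.single x a) = a • T A hT x := by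
  have h : th A hT (MonoidAlgebra.single x a) =
      algebraMap A (Matrix k k (MonoidAlgebra A H)) a * T A hT x :=
    MonoidAlgebra.liftNCRingHom_single _ _ _ x a
  rw [h, Algebra.smul_def]

lemma th_res (hT : Tr φ s) : IsRes φ s (th A hT) := by
  classical
  intro x i j h
  induction x using MonoidAlgebra.induction_linear with
  | zero => simp
  | add a b ha hb =>
    rw [map_add, Matrix.add_apply, MonoidAlgebra.coeff_add, MonoidAlgebra.coeff_add,
      Finsupp.add_apply, Finsupp.add_apply, ha, hb]
  | single x a =>
    rw [th_single, Matrix.smul_apply, MonoidAlgebra.coeff_smul_apply, MonoidAlgebra.coeff_single,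
      Finsupp.single_apply]
    simp only [T, Matrix.of_apply]
    by_cases hx : x = s i * φ h * (s j)⁻¹
    · rw [if_pos hx]
      have h1 : iv hT (x * s j) = (i, h) := by
        have : x * s j = s i * φ h := by rw [hx, inv_mul_cancel_right]
        rw [this, iv_eq]
      rw [h1, if_pos rfl, MonoidAlgebra.coeff_single, Finsupp.single_eq_same]
      simp
    · rw [if_neg hx]
      split_ifs with hi
      · rw [MonoidAlgebra.coeff_single, Finsupp.single_apply, if_neg]
        · simp
        · intro hh
          apply hx
          have h2 := iv_spec hT (x * s j)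
          rw [← hi, hh] at h2
          rw [h2, mul_inv_cancel_right]
      · simp

end RES

theorem t_RES : S_RES.{u, v, w} := by
  intro A _ G _ H _ k _ _ φ s hT
  exact ⟨RES.th A hT, RES.th_res hT⟩

end Pool.Agent.SM1
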