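import Pool.Agent.SM1.St2

/-!
# RHO: the invariant as a homomorphism
-/

set_option autoImplicit false
set_option linter.unusedSectionVars false

open Matrix Pool.Agent.Lib25 Pool.Agent.KM

noncomputable section

namespace Pool.Agent.SM1

universe u v w

namespace RHO

section Sub

variable {A : Type*} [CommRing A] {G : Type*} [Group G] {p : ℕ} {ι κ : Type*} [Fintype ι]
  [DecidableEq ι] [Fintype κ] [DecidableEq κ]

theorem inv_of {R : Type*} [Ring R] {a b : R} (h1 : a * b = 1) (h2 : b * a = 1) :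
    Ring.inverse a = b := by
  have := Ring.inverse_unit (⟨a, b, h1, h2⟩ : Rˣ)
  exact this

theorem isUnit_submatrix {R : Type*} [Ring R] {x : Matrix ι ι R} (σ : κ ≃ ι) (h : IsUnit x) :
    IsUnit (x.submatrix σ σ) := by
  obtain ⟨u, rfl⟩ := h
  refine ⟨⟨(u : Matrix ι ι R).submatrix σ σ, ((u⁻¹ : (Matrix ι ι R)ˣ) : Matrix ι ι R).submatrix σ σ,
    ?_, ?_⟩, rfl⟩
  · rw [submatrix_mul_equiv, Units.mul_inv, submatrix_one_equiv]
  · rw [submatrix_mul_equiv, Units.inv_mul, submatrix_one_equiv]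

theorem inv_submatrix {R : Type*} [Ring R] (x : Matrix ι ι R) (σ : κ ≃ ι) :
    Ring.inverse (x.submatrix σ σ) = (Ring.inverse x).submatrix σ σ := by
  by_cases h : IsUnit x
  · apply inv_of
    · rw [submatrix_mul_equiv, Ring.mul_inverse_cancel _ h, submatrix_one_equiv]
    · rw [submatrix_mul_equiv, Ring.inverse_mul_cancel _ h, submatrix_one_equiv]
  · rw [Ring.inverse_non_unit _ h, Ring.inverse_non_unit]
    · rfl
    · intro h1
      apply h
      have h2 := isUnit_submatrix σ.symm h1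
      rw [submatrix_submatrix] at h2
      have h3 : (σ : κ → ι) ∘ σ.symm = id := by
        funext i
        exact σ.apply_symm_apply i
      rw [h3, submatrix_id_id] at h2
      exact h2

theorem th_submatrix (q : G →* Cy p) (e : Matrix ι ι (LG A G)) (σ : κ ≃ ι) :
    th q (e.submatrix σ σ) = (th q e).submatrix σ σ := by
  have h1 : E1 q (e.submatrix σ σ) = (E1 q e).submatrix σ σ := rfl
  have h0 : E0 p (e.submatrix σ σ) = (E0 p e).submatrix σ σ := rfl
  have hone : (1 : Matrix κ κ (LG A (G × Cy p))) = (1 : Matrix ι ι (LG A (G × Cy p))).submatrix σ σ :=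
    (submatrix_one_equiv σ).symm
  have hs : ∀ X : Matrix ι ι (LG A (G × Cy p)),
      (1 : Matrix ι ι (LG A (G × Cy p))).submatrix σ σ - X.submatrix σ σ =
        (1 - X).submatrix σ σ := fun _ => rfl
  have ha : ∀ X Y : Matrix ι ι (LG A (G × Cy p)),
      X.submatrix σ σ + Y.submatrix σ σ = (X + Y).submatrix σ σ := fun _ _ => rfl
  unfold th
  rw [h1, h0, hone, hs, hs, submatrix_mul_equiv, submatrix_mul_equiv, ha]

theorem OM_submatrix (q : G →* Cy p) (e : Matrix ι ι (LG A G)) (σ : κ ≃ ι) :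
    OM q (e.submatrix σ σ) = OM q e := by
  unfold OM
  rw [th_submatrix, inv_submatrix]
  have h1 : ((th q e).submatrix σ σ).map DL = ((th q e).map DL).submatrix σ σ := rfl
  have h0 : E0 p (e.submatrix σ σ) = (E0 p e).submatrix σ σ := rfl
  rw [h1, h0, submatrix_mul_equiv, submatrix_mul_equiv]
  unfold Matrix.trace
  exact Equiv.sum_comp σ fun i => (E0 p e * Ring.inverse (th q e) * (th q e).map DL) i i

theorem rg_submatrix (q : G →* Cy p) (e : Matrix ι ι (LG A G)) (σ : κ ≃ ι) (g : G) :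
    rg q (e.submatrix σ σ) g = rg q e g := by
  unfold rg
  rw [OM_submatrix]

end Sub

/-! ### reduction -/

section Red

variable {G : Type*} [Group G]

theorem red_eq (n : ℕ) (G : Type*) [Group G] :
    red n G = MonoidAlgebra.mapRingHom G (Int.castRingHom (ZMod n)) := by
  apply RingHom.ext
  intro x
  induction x using MonoidAlgebra.induction_linear with
  | zero => rw [map_zero, map_zero]
  | add a b ha hb => rw [map_add, map_add, ha, hb]
  | single c r =>
    unfold red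
    rw [cgm_single, MonoidAlgebra.mapRingHom_single]
    rfl

theorem tauL_red (n : ℕ) (g : G) (z : LG ℤ G) :
    tauL g (mapL (red n G) z) = ((tauL g z : ℤ) : ZMod n) := by
  rw [red_eq, tauL_mapL]
  rfl

theorem trace_rd (n : ℕ) {ι κ : Type*} [Fintype ι] [Fintype κ] (x : Matrix ι κ (LG ℤ G))
    (y : Matrix κ ι (LG ℤ G)) :
    Matrix.trace (rd n x * (rd n y).map DL) = mapL (red n G) (Matrix.trace (x * y.map DL)) := by
  have h1 : (rd n y).map DL = (y.map DL).map (mapL (red n G)) := by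
    exact Matrix.ext fun i j => DL_mapL _ (y i j)
  rw [h1, ← Matrix.map_mul]
  exact (AddMonoidHom.map_trace (mapL (red n G)) (x * y.map DL)).symm

end Red

theorem cN_ne (N p : ℕ) (h : p ∣ N) (hp : p.Prime) : cN N p h (gn N) ≠ 1 := by
  have _ := Fact.mk hp
  intro h1
  have h2 : (ZMod.castHom h (ZMod p)) 1 = 0 := h1
  rw [map_one] at h2
  exact one_ne_zero h2

/-- The family of the invariants. -/
def fam (N : ℕ) {ι : Type*} [Fintype ι] [DecidableEq ι] (e : Matrix ι ι (LG ℤ (Cy N))) : TP N :=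
  fun p K => rg (cN N p (Nat.dvd_of_mem_primeFactors p.2)) (rd ((p : ℕ) ^ K) e) (gn N)

theorem fam_submatrix (N : ℕ) {ι κ : Type*} [Fintype ι] [DecidableEq ι] [Fintype κ]
    [DecidableEq κ] (e : Matrix ι ι (LG ℤ (Cy N))) (σ : κ ≃ ι) :
    fam N (e.submatrix σ σ) = fam N e := by
  funext p K
  exact rg_submatrix _ (rd ((p : ℕ) ^ K) e) σ (gn N)

theorem fam_mvn (hCMP : S_CMP.{0, 0}) (N : ℕ) {m n : ℕ}
    (e : Matrix (Fin m) (Fin m) (LG ℤ (Cy N))) (f : Matrix (Fin n) (Fin n) (LG ℤ (Cy N)))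
    (he : e * e = e) (hf : f * f = f) (h : MvN e f) : tcl N (fam N e) = tcl N (fam N f) := by
  obtain ⟨x, y, hxy, hyx⟩ := h
  rw [← sub_eq_zero, ← map_sub, tcl_eq_zero]
  refine ⟨-tauL (gn N) (Matrix.trace (e * x * (y * e).map DL)), fun p K => ?_⟩
  have h1 : e * x * (y * e) = e := by
    calc e * x * (y * e) = e * (x * y) * e := by simp only [Matrix.mul_assoc]
      _ = e := by rw [hxy, he, he]
  have h2 : y * e * (e * x) = f := by
    calc y * e * (e * x) = y * (e * e) * x := by simp only [Matrix.mul_assoc]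
      _ = (y * x) * (y * x) := by rw [he, ← hxy]; simp only [Matrix.mul_assoc]
      _ = f := by rw [hyx, hf]
  have hp : (p : ℕ).Prime := Nat.prime_of_mem_primeFactors p.2
  have hd : (p : ℕ) ∣ N := Nat.dvd_of_mem_primeFactors p.2
  have h3 := hCMP (p := (p : ℕ)) (K := K) hp (cN N p hd) (rd ((p : ℕ) ^ K) e)
    (rd ((p : ℕ) ^ K) f) (rd ((p : ℕ) ^ K) (e * x)) (rd ((p : ℕ) ^ K) (y * e))
    (by rw [← Matrix.map_mul, he]) (by rw [← Matrix.map_mul, hf]) (by rw [← Matrix.map_mul, h1])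
    (by rw [← Matrix.map_mul, h2]) (by rw [← Matrix.map_mul, ← Matrix.mul_assoc, he])
    (by rw [← Matrix.map_mul, Matrix.mul_assoc, he]) (gn N) (cN_ne N p hd hp)
  rw [trace_rd, tauL_red] at h3
  rw [Int.cast_neg]
  exact h3

theorem fam_blocks (hADD : S_ADD.{0, 0}) (N : ℕ) {m n : ℕ}
    (e : Matrix (Fin m) (Fin m) (LG ℤ (Cy N))) (f : Matrix (Fin n) (Fin n) (LG ℤ (Cy N)))
    (he : e * e = e) (hf : f * f = f) :
    fam N (Matrix.fromBlocks e 0 0 f) = fam N e + fam N f := by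
  funext p K
  have hp : (p : ℕ).Prime := Nat.prime_of_mem_primeFactors p.2
  have hd : (p : ℕ) ∣ N := Nat.dvd_of_mem_primeFactors p.2
  have h3 := (hADD (p := (p : ℕ)) (K := K) hp (cN N p hd) (rd ((p : ℕ) ^ K) e)
    (rd ((p : ℕ) ^ K) f) (by rw [← Matrix.map_mul, he]) (by rw [← Matrix.map_mul, hf]) (gn N)).1
  have h4 : rd ((p : ℕ) ^ K) (Matrix.fromBlocks e 0 0 f) =
      Matrix.fromBlocks (rd ((p : ℕ) ^ K) e) 0 0 (rd ((p : ℕ) ^ K) f) := by
    show (Matrix.fromBlocks e 0 0 f).map (mapL (red ((p : ℕ) ^ K) (Cy N))) = _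
    rw [Matrix.fromBlocks_map, Matrix.map_zero _ (map_zero _), Matrix.map_zero _ (map_zero _)]
  show rg (cN N p hd) (rd ((p : ℕ) ^ K) (Matrix.fromBlocks e 0 0 f)) (gn N) = _
  rw [h4, h3]
  rfl

theorem fam_empty (N : ℕ) (e : Matrix (Fin 0) (Fin 0) (LG ℤ (Cy N))) : fam N e = 0 := by
  funext p K
  show rg _ (rd ((p : ℕ) ^ K) e) (gn N) = 0
  unfold rg OM Matrix.trace
  rw [Finset.univ_eq_empty, Finset.sum_empty, map_zero]

theorem fam_pol (hPOL : S_POL.{0, 0}) (N : ℕ) {n : ℕ}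
    (e : Matrix (Fin n) (Fin n) (LG ℤ (Cy N))) (he : e * e = e)
    (h : (∀ i j, DegGE 0 (e i j)) ∨ (∀ i j, DegLE 0 (e i j))) : fam N e = 0 := by
  funext p K
  have hp : (p : ℕ).Prime := Nat.prime_of_mem_primeFactors p.2
  refine hPOL (p := (p : ℕ)) (K := K) hp _ (rd ((p : ℕ) ^ K) e) (by rw [← Matrix.map_mul, he]) ?_ _
  rcases h with h | h
  · exact Or.inl fun i j => DegGE.mapL _ (h i j)
  · exact Or.inr fun i j => DegLE.mapL _ (h i j)

/-! ### the homomorphisms -/

section Hom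

variable (hCMP : S_CMP.{0, 0}) (hADD : S_ADD.{0, 0}) (N : ℕ)

/-- The invariant on the classes of idempotent matrices. -/
def rho0 : IdemClass (LG ℤ (Cy N)) →+ TT N where
  toFun := Quotient.lift (fun e : IdemMat (LG ℤ (Cy N)) => tcl N (fam N e.mat))
    (fun e f h => fam_mvn hCMP N e.mat f.mat e.idem f.idem h)
  map_zero' := by
    change tcl N (fam N (IdemMat.zero (LG ℤ (Cy N))).mat) = 0
    have h : fam N (IdemMat.zero (LG ℤ (Cy N))).mat = 0 := fam_empty N _
    rw [h, map_zero]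
  map_add' := by
    rintro ⟨e⟩ ⟨f⟩
    change tcl N (fam N (IdemMat.add e f).mat) = tcl N (fam N e.mat) + tcl N (fam N f.mat)
    rw [← map_add, ← fam_blocks hADD N e.mat f.mat e.idem f.idem]
    exact congrArg (tcl N) (fam_submatrix N (Matrix.fromBlocks e.mat 0 0 f.mat)
      finSumFinEquiv.symm)

/-- The invariant on `K₀`. -/
def rho1 : K0 (LG ℤ (Cy N)) →+ TT N := Algebra.GrothendieckAddGroup.lift (rho0 hCMP hADD N)

theorem rho1_of (e : IdemMat (LG ℤ (Cy N))) :
    rho1 hCMP hADD N (K0.of e) = tcl N (fam N e.mat) := by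
  unfold rho1 K0.of
  exact congrArg (fun F => F (IdemClass.mk e)) ((Algebra.GrothendieckAddGroup.lift
    (M := IdemClass (LG ℤ (Cy N))) (G := TT N)).symm_apply_apply _)

theorem rho1_cl {ι : Type*} [Fintype ι] [DecidableEq ι] (e : Matrix ι ι (LG ℤ (Cy N)))
    (he : e * e = e) : rho1 hCMP hADD N (cl e he) = tcl N (fam N e) := by
  unfold cl
  rw [rho1_of]
  exact congrArg (tcl N) (fam_submatrix N e (Fintype.equivFin ι).symm)

theorem rho1_ext (hPOL : S_POL.{0, 0}) :
    extImage (MonoidAlgebra ℤ (Cy N)) ≤ (rho1 hCMP hADD N).ker := by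
  unfold extImage
  rw [sup_le_iff]
  constructor
  · rintro _ ⟨x, rfl⟩
    obtain ⟨a, b, rfl⟩ := K0.exists_sub x
    rw [AddMonoidHom.mem_ker, map_sub, map_sub, K0.map_of, K0.map_of, rho1_of, rho1_of]
    rw [fam_pol hPOL N _ (a.map (posIncl _)).idem (Or.inl fun i j => degGE_posIncl (a.mat i j)),
      fam_pol hPOL N _ (b.map (posIncl _)).idem (Or.inl fun i j => degGE_posIncl (b.mat i j)),
      sub_self]
  · rintro _ ⟨x, rfl⟩
    obtain ⟨a, b, rfl⟩ := K0.exists_sub x
    rw [AddMonoidHom.mem_ker, map_sub, map_sub, K0.map_of, K0.map_of, rho1_of, rho1_of]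
    rw [fam_pol hPOL N _ (a.map (negIncl _)).idem (Or.inr fun i j => degLE_negIncl (a.mat i j)),
      fam_pol hPOL N _ (b.map (negIncl _)).idem (Or.inr fun i j => degLE_negIncl (b.mat i j)),
      sub_self]

end Hom

end RHO

open RHO in
theorem t_RHO (hCMP : S_CMP.{0, 0}) (hADD : S_ADD.{0, 0}) (hPOL : S_POL.{0, 0}) :
    S_RHO.{w} := by
  intro N _
  refine ⟨QuotientAddGroup.lift (extImage (MonoidAlgebra ℤ (Cy N))) (rho1 hCMP hADD N)
    (rho1_ext hCMP hADD N hPOL), ?_⟩
  intro ι _ _ e he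
  exact rho1_cl hCMP hADD N e he

end Pool.Agent.SM1
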