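import Pool.Agent.SM1.St2

/-!
# SM1_SUM: the numbers of the image in `ℤ[C_N]` are rational, independent of `p` and `K`
-/

set_option autoImplicit false
set_option linter.unusedSectionVars false

open Matrix Pool.Agent.Lib25 Pool.Agent.KM

noncomputable section

namespace Pool.Agent.SM1

universe u v w

namespace SUM

/-- Dividing by `v` costs a bounded power of `p`. -/
theorem divl {p : ℕ} (hp : p.Prime) {v : ℤ} (hv : v ≠ 0) :
    ∃ j : ℕ, ∀ (K : ℕ) (R : ℤ), ((p : ℤ) ^ (K + j)) ∣ v * R → ((p : ℤ) ^ K) ∣ R := by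
  have hpp : Prime (p : ℤ) := Nat.prime_iff_prime_int.1 hp
  have hf : FiniteMultiplicity (p : ℤ) v := by
    apply Int.finiteMultiplicity_iff.2
    refine ⟨?_, hv⟩
    simpa using hp.ne_one
  obtain ⟨v', hv', hnd⟩ := hf.exists_eq_pow_mul_and_not_dvd
  refine ⟨multiplicity (p : ℤ) v, fun K R h => ?_⟩
  have h1 : (p : ℤ) ^ (multiplicity (p : ℤ) v) * (p : ℤ) ^ K ∣
      (p : ℤ) ^ (multiplicity (p : ℤ) v) * (v' * R) := by
    have h2 : (p : ℤ) ^ (multiplicity (p : ℤ) v) * (v' * R) = v * R := by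
      conv_rhs => rw [hv']
      ring
    rw [h2, ← pow_add, add_comm]
    exact h
  have h3 : (p : ℤ) ^ K ∣ v' * R :=
    Int.dvd_of_mul_dvd_mul_left (pow_ne_zero _ hpp.ne_zero) h1
  have h4 : IsCoprime ((p : ℤ) ^ K) v' :=
    (hpp.irreducible.coprime_iff_not_dvd.2 hnd).pow_left
  exact h4.dvd_of_dvd_mul_left h3

section Tau

variable {A B : Type} [CommRing A] [CommRing B] {G : Type u} [Group G]

theorem tau_cgm_id (f : A →+* B) (γ : G) (x : MonoidAlgebra A G) :
    tau γ (cgm f (MonoidHom.id G) x) = f (tau γ x) := by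
  classical
  induction x using MonoidAlgebra.induction_linear with
  | zero => simp
  | add a b ha hb => rw [map_add, map_add, ha, hb, map_add, map_add]
  | single g a =>
    rw [cgm_single, tau_single, tau_single]
    change (if IsConj g γ then f a else 0) = _
    split_ifs
    · rfl
    · rw [map_zero]

open scoped Classical in
theorem tau_eq_sum (γ : G) (x : MonoidAlgebra A G) :
    tau γ x = ∑ y ∈ x.coeff.support, if IsConj y γ then x.coeff y else 0 := by
  have h1 : x = ∑ y ∈ x.coeff.support, MonoidAlgebra.single y (x.coeff y) := by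
    have h2 := Finsupp.sum_single x.coeff
    apply MonoidAlgebra.coeff_injective
    rw [MonoidAlgebra.coeff_sum]
    conv_lhs => rw [← h2]
    rfl
  conv_lhs => rw [h1]
  rw [map_sum]
  apply Finset.sum_congr rfl
  intro y _
  rw [tau_single]

open scoped Classical in
theorem tau_cgm_sum {H : Type w} [Group H] (ψ : G →* H) (γ : H) (x : MonoidAlgebra A G) :
    tau γ (cgm (RingHom.id A) ψ x) =
      ∑ y ∈ x.coeff.support, if IsConj (ψ y) γ then x.coeff y else 0 := by
  have h1 : x = ∑ y ∈ x.coeff.support, MonoidAlgebra.single y (x.coeff y) := by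
    have h2 := Finsupp.sum_single x.coeff
    apply MonoidAlgebra.coeff_injective
    rw [MonoidAlgebra.coeff_sum]
    conv_lhs => rw [← h2]
    rfl
  conv_lhs => rw [h1]
  rw [map_sum, map_sum]
  apply Finset.sum_congr rfl
  intro y _
  rw [cgm_single, tau_single]
  rfl

end Tau

section Classes

variable {A : Type} [CommRing A] {G : Type u} [Group G] {N : ℕ} {p : ℕ}

/-- A representative of a conjugacy class. -/
def rep (C : ConjClasses G) : G := (ConjClasses.exists_rep C).choose

theorem mk_rep (C : ConjClasses G) : ConjClasses.mk (rep C) = C :=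
  (ConjClasses.exists_rep C).choose_spec

theorem conj_comm {C : Type*} [CommGroup C] {a b : C} : IsConj a b ↔ a = b := by
  constructor
  · intro h
    obtain ⟨c, hc⟩ := isConj_iff.1 h
    rw [← hc, mul_comm c a, mul_assoc, mul_inv_cancel, mul_one]
  · rintro rfl
    exact IsConj.refl _

theorem map_conj {C : Type*} [CommGroup C] (φ : G →* C) {a b : G} (h : IsConj a b) :
    φ a = φ b := conj_comm.1 (φ.map_isConj h)

theorem conj_prod {C : Type*} [CommGroup C] {a b : G} {c d : C} :
    IsConj (a, c) (b, d) ↔ IsConj a b ∧ c = d := by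
  constructor
  · intro h
    exact ⟨(MonoidHom.fst G C).map_isConj h, conj_comm.1 ((MonoidHom.snd G C).map_isConj h)⟩
  · rintro ⟨h, rfl⟩
    obtain ⟨x, hx⟩ := isConj_iff.1 h
    rw [isConj_iff]
    refine ⟨(x, 1), ?_⟩
    ext
    · exact hx
    · simp

open scoped Classical in
/-- The trace at `(gn, c)` of the push-forward is the sum of the traces at the classes. -/
theorem tau_classes (φ : G →* Cy N) (c0 : Cy p) (z : MonoidAlgebra A (G × Cy p))
    (F : Finset (ConjClasses G)) (hF : ∀ C ∈ F, φ (rep C) = gn N)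
    (h0 : ∀ g : G, φ g = gn N → ConjClasses.mk g ∉ F → tau (g, c0) z = 0) :
    tau (gn N, c0) (cgm (RingHom.id A) (φ.prodMap (MonoidHom.id (Cy p))) z) =
      ∑ C ∈ F, tau (rep C, c0) z := by
  have hout : ∀ C : ConjClasses G, ConjClasses.mk (rep C) = C := mk_rep
  rw [tau_cgm_sum, ← Finset.sum_filter]
  set S := z.coeff.support.filter (fun y => IsConj
    ((φ.prodMap (MonoidHom.id (Cy p))) y) (gn N, c0)) with hS
  have hmem : ∀ y ∈ S, φ y.1 = gn N ∧ y.2 = c0 := by
    intro y hy
    have h1 := (Finset.mem_filter.1 hy).2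
    exact ⟨conj_comm.1 ((MonoidHom.fst (Cy N) (Cy p)).map_isConj h1),
      conj_comm.1 ((MonoidHom.snd (Cy N) (Cy p)).map_isConj h1)⟩
  rw [← Finset.sum_fiberwise_of_maps_to (s := S) (t := S.image (fun y => ConjClasses.mk y.1))
    (g := fun y => ConjClasses.mk y.1) (fun y hy => Finset.mem_image_of_mem _ hy)]
  -- the inner sums
  have hin : ∀ C ∈ S.image (fun y => ConjClasses.mk y.1),
      ∑ y ∈ S with ConjClasses.mk y.1 = C, z.coeff y = tau (rep C, c0) z := by
    intro C hC
    obtain ⟨y0, hy0, rfl⟩ := Finset.mem_image.1 hC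
    have hy0' := hmem y0 hy0
    have hc0 : IsConj (rep (ConjClasses.mk y0.1)) y0.1 :=
      ConjClasses.mk_eq_mk_iff_isConj.1 (hout _)
    have hg : φ (rep (ConjClasses.mk y0.1)) = gn N := by
      rw [map_conj φ hc0, hy0'.1]
    rw [tau_eq_sum, ← Finset.sum_filter]
    apply Finset.sum_congr _ (fun _ _ => rfl)
    ext y
    simp only [hS, Finset.mem_filter]
    constructor
    · rintro ⟨⟨h1, h2⟩, h3⟩
      refine ⟨h1, ?_⟩
      have h4 := (hmem y (Finset.mem_filter.2 ⟨h1, h2⟩)).2
      have h5 : IsConj y.1 (rep (ConjClasses.mk y0.1)) :=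
        (ConjClasses.mk_eq_mk_iff_isConj.1 h3).trans hc0.symm
      exact conj_prod.2 ⟨h5, h4⟩
    · rintro ⟨h1, h2⟩
      obtain ⟨h3, h4⟩ := conj_prod.1 h2
      refine ⟨⟨h1, ?_⟩, ?_⟩
      · apply conj_prod.2
        refine ⟨conj_comm.2 ?_, h4⟩
        change φ y.1 = gn N
        rw [map_conj φ h3, hg]
      · exact ConjClasses.mk_eq_mk_iff_isConj.2 (h3.trans hc0)
  rw [Finset.sum_congr rfl hin]
  set I := S.image (fun y => ConjClasses.mk y.1) with hI
  have hI' : ∀ C ∈ I, φ (rep C) = gn N := by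
    intro C hC
    obtain ⟨y0, hy0, rfl⟩ := Finset.mem_image.1 hC
    have hc0 : IsConj (rep (ConjClasses.mk y0.1)) y0.1 :=
      ConjClasses.mk_eq_mk_iff_isConj.1 (hout _)
    rw [map_conj φ hc0, (hmem y0 hy0).1]
  have e1 : ∑ C ∈ I, tau (rep C, c0) z = ∑ C ∈ I ∩ F, tau (rep C, c0) z := by
    symm
    apply Finset.sum_subset Finset.inter_subset_left
    intro C hC hC'
    apply h0 _ (hI' C hC)
    rw [hout]
    intro hCF
    exact hC' (Finset.mem_inter.2 ⟨hC, hCF⟩)
  have e2 : ∑ C ∈ F, tau (rep C, c0) z = ∑ C ∈ I ∩ F, tau (rep C, c0) z := by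
    symm
    apply Finset.sum_subset Finset.inter_subset_right
    intro C hC hC'
    rw [tau_eq_sum]
    apply Finset.sum_eq_zero
    intro y hy
    rw [if_neg]
    intro hcon
    obtain ⟨h3, h4⟩ := conj_prod.1 hcon
    apply hC'
    refine Finset.mem_inter.2 ⟨?_, hC⟩
    rw [hI, Finset.mem_image]
    refine ⟨y, ?_, ?_⟩
    · rw [hS, Finset.mem_filter]
      refine ⟨hy, conj_prod.2 ⟨conj_comm.2 ?_, h4⟩⟩
      change φ y.1 = gn N
      rw [map_conj φ h3, hF C hC]
    · rw [← hout C]
      exact ConjClasses.mk_eq_mk_iff_isConj.2 h3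
  rw [e1, e2]

end Classes

end SUM

open SUM

open scoped Classical in
theorem t_SUM (hFUG0 : S_FUG.{u, 0, w}) (hFUG : S_FUG.{u, u, w}) (hR1C : S_R1C.{u, w})
    (hFSU : S_FSU.{u, w}) (hWTX : S_WTX.{u}) : S_SUM.{u, w} := by
  intro G _ N hN φ hφ ι _ _ E hE
  -- weights
  have hex : ∀ g : G, ∃ (v : ℤ) (W : G → G → ℤ), φ g = gn N → (v ≠ 0 ∧ IsWt g v W) := by
    intro g
    by_cases hg : φ g = gn N
    · obtain ⟨f, hf⟩ := hφ g hg
      obtain ⟨W, hW⟩ := hWTX g f
      refine ⟨_, W, fun _ => ⟨?_, hW⟩⟩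
      intro h0
      exact hf (by
        rw [← ofAdd_toAdd (f _), h0]
        rfl)
    · exact ⟨0, fun _ _ => 0, fun h => absurd h hg⟩
  choose v W hvW using hex
  obtain ⟨F0, hF0⟩ := hFSU E
  set F : Finset (ConjClasses G) :=
    (F0.image ConjClasses.mk).filter (fun C => φ (rep C) = gn N) with hFdef
  have hout : ∀ C : ConjClasses G, ConjClasses.mk (rep C) = C := mk_rep
  have hF : ∀ C ∈ F, φ (rep C) = gn N := fun C hC => (Finset.mem_filter.1 hC).2
  have hkap : ∀ g : G, φ g = gn N → ConjClasses.mk g ∉ F → kap (W g) E = 0 := by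
    intro g hg hgF
    apply hF0 g (v g) (W g) (hvW g hg).2
    intro x hx hxg
    apply hgF
    rw [hFdef, Finset.mem_filter, Finset.mem_image]
    refine ⟨⟨x, hx, ConjClasses.mk_eq_mk_iff_isConj.2 hxg⟩, ?_⟩
    rw [← hg]
    exact map_conj φ (ConjClasses.mk_eq_mk_iff_isConj.1 (hout _))
  -- the constants
  set P0 : ℤ := ∏ C ∈ F, v (rep C) with hP0
  have hP0ne : P0 ≠ 0 := Finset.prod_ne_zero_iff.2 fun C hC => (hvW _ (hF C hC)).1
  set a0 : ℤ := ∑ C ∈ F, (∏ C' ∈ F.erase C, v (rep C')) *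
    kap (W (rep C)) E with ha0
  refine ⟨(P0 * P0).toNat, P0 * a0, ?_, ?_⟩
  · have : 0 < P0 * P0 := mul_self_pos.2 hP0ne
    omega
  intro p K hp hpN
  have hNe : NeZero p := ⟨hp.ne_zero⟩
  set q : G →* Cy p := (cN N p hpN).comp φ with hq
  have hcN : cN N p hpN (gn N) = Multiplicative.ofAdd 1 := by
    change Multiplicative.ofAdd (ZMod.castHom hpN (ZMod p) 1) = _
    rw [map_one]
  have hne1 : (Multiplicative.ofAdd (1 : ZMod p)) ≠ 1 := by
    have : Fact p.Prime := ⟨hp⟩
    intro h
    exact one_ne_zero (α := ZMod p) (Multiplicative.ofAdd.injective h)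
  have hqg : ∀ g : G, φ g = gn N → q g = Multiplicative.ofAdd 1 := by
    intro g hg
    change cN N p hpN (φ g) = _
    rw [hg, hcN]
  have hrdidem : ∀ K : ℕ, rd (p ^ K) E * rd (p ^ K) E = rd (p ^ K) E := by
    intro K
    rw [← Matrix.map_mul, hE]
  -- the weight identity
  have hR : ∀ (K : ℕ) (g : G), φ g = gn N →
      (v g : ZMod (p ^ K)) * rg q (rd (p ^ K) E) g = ((kap (W g) E : ℤ) : ZMod (p ^ K)) := by
    intro K g hg
    apply hR1C hp q g (v g) (W g) (hvW g hg).2 _ E hE
    rw [hqg g hg]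
    exact hne1
  -- compatibility
  have hcomp : ∀ (K j : ℕ) (g : G), rg q (rd (p ^ K) E) g =
      ZMod.castHom (pow_dvd_pow p (Nat.le_add_right K j)) (ZMod (p ^ K))
        (rg q (rd (p ^ (K + j)) E) g) := by
    intro K j g
    set f := ZMod.castHom (pow_dvd_pow p (Nat.le_add_right K j)) (ZMod (p ^ K)) with hf
    have h1 := hFUG (K := K + j) (K' := K) hp f (MonoidHom.id G) q q rfl
      (rd (p ^ (K + j)) E) (hrdidem _)
    have h2 : (rd (p ^ (K + j)) E).map (mapL (cgm f (MonoidHom.id G))) = rd (p ^ K) E := by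
      refine Matrix.ext fun i k => ?_
      change mapL _ (mapL _ (E i k)) = mapL _ (E i k)
      apply lco_ext
      intro n
      rw [lco_mapL, lco_mapL, lco_mapL]
      unfold red
      rw [cgm_comp]
      congr 2
      exact Subsingleton.elim _ _
    rw [h2] at h1
    unfold rg
    rw [h1, tauL, AddMonoidHom.comp_apply, coeffZero_mapL]
    have h3 : (MonoidHom.id G).prodMap (MonoidHom.id (Cy p)) = MonoidHom.id (G × Cy p) := by
      ext x <;> rfl
    rw [h3, tau_cgm_id]
    rfl
  -- vanishing outside `F`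
  have hvan : ∀ (K : ℕ) (g : G), φ g = gn N → ConjClasses.mk g ∉ F →
      rg q (rd (p ^ K) E) g = 0 := by
    intro K g hg hgF
    obtain ⟨j, hj⟩ := divl hp (hvW g hg).1
    have h1 := hR (K + j) g hg
    rw [hkap g hg hgF, Int.cast_zero] at h1
    obtain ⟨R, hRR⟩ := ZMod.intCast_surjective (rg q (rd (p ^ (K + j)) E) g)
    rw [← hRR, ← Int.cast_mul, ZMod.intCast_zmod_eq_zero_iff_dvd] at h1
    push_cast at h1
    have h2 := hj K R h1
    rw [hcomp K j g, ← hRR, map_intCast, ZMod.intCast_zmod_eq_zero_iff_dvd]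
    push_cast
    exact h2
  -- push-forward
  have hpush : rg (cN N p hpN) (rd (p ^ K) (psh φ E)) (gn N) =
      ∑ C ∈ F, rg q (rd (p ^ K) E) (rep C) := by
    have h1 := hFUG0 (K := K) (K' := K) hp (RingHom.id _) φ q (cN N p hpN) rfl
      (rd (p ^ K) E) (hrdidem K)
    have h2 : (rd (p ^ K) E).map (mapL (cgm (RingHom.id _) φ)) = rd (p ^ K) (psh φ E) := by
      refine Matrix.ext fun i k => ?_
      change mapL _ (mapL _ (E i k)) = mapL _ (mapL _ (E i k))
      apply lco_ext
      intro n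
      rw [lco_mapL, lco_mapL, lco_mapL, lco_mapL]
      have h3 : ∀ x : MonoidAlgebra ℤ G, grm φ x = cgm (RingHom.id ℤ) φ x := by
        intro x
        unfold cgm
        rw [RingHom.comp_apply]
        congr 1
        induction x using MonoidAlgebra.induction_linear with
        | zero => simp
        | add a b ha hb => rw [map_add, ← ha, ← hb]
        | single g a => rw [MonoidAlgebra.mapRingHom_single]; rfl
      unfold red
      rw [h3, cgm_comp, cgm_comp]
      rfl
    rw [h2] at h1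
    unfold rg
    rw [h1, tauL, AddMonoidHom.comp_apply, coeffZero_mapL,
      tau_classes φ (cN N p hpN (gn N)) (coeffZero (OM q (rd (p ^ K) E))) F hF]
    · apply Finset.sum_congr rfl
      intro C hC
      rw [hqg _ (hF C hC), hcN]
      rfl
    · intro g hg hgF
      have h4 := hvan K g hg hgF
      unfold rg at h4
      rw [hqg g hg] at h4
      rw [hcN]
      exact h4
  rw [hpush]
  have h1 : (((P0 * P0).toNat : ℕ) : ZMod (p ^ K)) = ((P0 * P0 : ℤ) : ZMod (p ^ K)) := by
    have h2 : (((P0 * P0).toNat : ℕ) : ℤ) = P0 * P0 := Int.toNat_of_nonneg (mul_self_nonneg P0)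
    conv_rhs => rw [← h2]
    rw [Int.cast_natCast]
  rw [h1, Int.cast_mul, Int.cast_mul, mul_assoc]
  congr 1
  rw [Finset.mul_sum, ha0, Int.cast_sum]
  apply Finset.sum_congr rfl
  intro C hC
  have h3 := hR K _ (hF C hC)
  rw [hP0, ← Finset.mul_prod_erase F _ hC, Int.cast_mul, Int.cast_mul, ← h3]
  ring

end Pool.Agent.SM1
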