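import Pool.Agent.SM1.St2
import Pool.Agent.Lib_helper25.Final0

/-!
# MP_e40716_gt (T1), module TOR: the torsion free case
-/

set_option autoImplicit false
set_option linter.unusedSectionVars false

open Matrix Pool.Agent.Lib25 Pool.Agent.KM

noncomputable section

namespace Pool.Agent.SM1

universe u v w

theorem TOR.triv (hTFI : S_TFI.{v}) (hTAV : S_TAV.{v}) (P : Type v) [Group P] [Subsingleton P]
    (z : KNegOne (MonoidAlgebra ℤ P)) : ∃ m : ℕ, 0 < m ∧ m • z = 0 := by
  obtain ⟨κ, ω, hω, _, _, _, hDet⟩ := hTAV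
  by_contra hcon
  push Not at hcon
  obtain ⟨F, hF⟩ := exists_functional (J := Unit) (fun _ => z) (fun _ => (1 : ℚ)) (by
    intro c hc
    have hc0 : c () = 0 := by
      have hs : (c.sum fun (_ : Unit) (m : ℤ) => m • z) = c () • z := by
        rw [Finsupp.sum_fintype]
        · simp
        · intro i; exact zero_smul _ _
      rw [hs] at hc
      by_contra h0
      have h1 : (c ()).natAbs • z = 0 := by
        rcases Int.natAbs_eq (c ()) with h2 | h2
        · have h3 : ((c ()).natAbs : ℤ) • z = 0 := by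
            rw [← h2]; exact hc
          rwa [natCast_zsmul] at h3
        · have h3 : (-((c ()).natAbs : ℤ)) • z = 0 := by
            rw [← h2]; exact hc
          rw [neg_smul, neg_eq_zero, natCast_zsmul] at h3
          exact h3
      exact hcon _ (Int.natAbs_pos.2 h0) h1
    have hs : (c.sum fun (_ : Unit) (m : ℤ) => (m : ℚ) * 1) = (c () : ℚ) * 1 := by
      rw [Finsupp.sum_fintype]
      · simp
      · intro i; simp
    rw [hs, hc0]
    simp)
  have hF0 : F = 0 := hTFI κ ω hω hDet P F (by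
    intro M hM p _ _ φ hφ
    exfalso
    have : Fact (1 < M) := ⟨hM⟩
    have h1 : (Multiplicative.ofAdd (1 : ZMod M)) = Multiplicative.ofAdd (0 : ZMod M) :=
      hφ (Subsingleton.elim _ _)
    exact one_ne_zero (Multiplicative.ofAdd.injective h1))
  have h1 := hF ()
  rw [hF0] at h1
  simp at h1

theorem t_TOR (hFIN : S_FIN.{u, v}) (hTFI : S_TFI.{v}) (hTAV : S_TAV.{v}) : S_TOR.{u, v} := by
  intro G _ Q _ _ π htf hLZ x
  obtain ⟨n, hn, hmem⟩ := hFIN π hLZ x
  have key : ∀ y ∈ finImg π, ∃ m : ℕ, 0 < m ∧ m • y = 0 := by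
    intro y hy
    unfold finImg at hy
    refine AddSubgroup.iSup_induction _ (C := fun y => ∃ m : ℕ, 0 < m ∧ m • y = 0) hy
      ?_ ⟨1, one_pos, smul_zero _⟩ ?_
    · rintro H _ ⟨z, rfl⟩
      have hH : ∀ h ∈ H.1, h = 1 := by
        intro h hh
        by_contra hne
        have hfin := H.2
        have h1 : IsOfFinOrder (⟨h, hh⟩ : H.1) := isOfFinOrder_of_finite _
        exact htf h hne (by
          have h2 := H.1.subtype.isOfFinOrder h1
          exact h2)
      have : Subsingleton (H.1.map π) := by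
        refine ⟨fun a b => Subtype.ext ?_⟩
        obtain ⟨a, g, hg, rfl⟩ := a
        obtain ⟨b, g', hg', rfl⟩ := b
        show π g = π g'
        rw [hH g hg, hH g' hg']
      obtain ⟨m, hm, hz⟩ := TOR.triv hTFI hTAV _ z
      refine ⟨m, hm, ?_⟩
      rw [← map_nsmul, hz, map_zero]
    · rintro a b ⟨m, hm, ha⟩ ⟨m', hm', hb⟩
      refine ⟨m * m', Nat.mul_pos hm hm', ?_⟩
      have h1 : (m * m') • a = 0 := by rw [mul_comm, mul_smul, ha, smul_zero]
      have h2 : (m * m') • b = 0 := by rw [mul_smul, hb, smul_zero]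
      rw [smul_add, h1, h2, add_zero]
  obtain ⟨m, hm, h⟩ := key _ hmem
  exact ⟨m * n, Nat.mul_pos hm hn, by rw [mul_smul]; exact h⟩

end Pool.Agent.SM1
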