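import Pool.Agent.SM1.St2

/-!
# TRF: the trace of a restriction
-/

set_option autoImplicit false
set_option linter.unusedSectionVars false

open Matrix Pool.Agent.Lib25 Pool.Agent.KM

noncomputable section

namespace Pool.Agent.SM1

universe v

namespace TRF

variable {G : Type v} [Group G] {H : Type} [CommGroup H] {k : Type v} [Fintype k]

open Classical in
/-- the number of the `i` with `s_i φ(h) s_i⁻¹ = y` -/
def cnt (φ : H →* G) (s : k → G) (h : H) (y : G) : ℕ :=
  (Finset.univ.filter fun i : k => s i * φ h * (s i)⁻¹ = y).card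

theorem cnt_le {φ : H →* G} {s : k → G} (hs : Tr φ s) (h : H) (y z : G) :
    cnt φ s h y ≤ cnt φ s h (z * y * z⁻¹) := by
  classical
  have hf : ∀ i : k, ∃ j : k, ∃ b : H, s j * φ b = z * s i := by
    intro i
    obtain ⟨⟨j, b⟩, hjb⟩ := hs.2 (z * s i)
    exact ⟨j, b, hjb⟩
  choose f b hb using hf
  unfold cnt
  refine Finset.card_le_card_of_injOn f ?_ ?_
  · intro i hi
    rw [Finset.mem_coe, Finset.mem_filter] at hi
    rw [Finset.mem_coe, Finset.mem_filter]
    refine ⟨Finset.mem_univ _, ?_⟩
    have h1 : s (f i) = z * s i * (φ (b i))⁻¹ := eq_mul_inv_of_mul_eq (hb i)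
    have h2 : (φ (b i))⁻¹ * φ h * φ (b i) = φ h := by
      rw [← map_inv, ← map_mul, ← map_mul]
      congr 1
      rw [mul_comm (b i)⁻¹ h, inv_mul_cancel_right]
    calc s (f i) * φ h * (s (f i))⁻¹
        = z * s i * ((φ (b i))⁻¹ * φ h * φ (b i)) * (s i)⁻¹ * z⁻¹ := by
          rw [h1]
          group
      _ = z * (s i * φ h * (s i)⁻¹) * z⁻¹ := by
          rw [h2]
          group
      _ = z * y * z⁻¹ := by rw [hi.2]
  · intro i _ j _ hij
    have h1 : s i * φ ((b i)⁻¹ * b j) = s j * φ 1 := by
      have h2 : z * s i * (φ (b i))⁻¹ = s (f i) := (eq_mul_inv_of_mul_eq (hb i)).symm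
      have h3 : z * s j = s (f j) * φ (b j) := (hb j).symm
      rw [map_mul, map_inv, map_one, mul_one, ← mul_assoc]
      apply mul_left_cancel (a := z)
      rw [← mul_assoc, ← mul_assoc, h2, h3]
      exact congrArg (fun t => s t * φ (b j)) hij
    have h2 := hs.1 (a₁ := (i, (b i)⁻¹ * b j)) (a₂ := (j, 1)) h1
    exact congrArg Prod.fst h2

theorem cnt_conj {φ : H →* G} {s : k → G} (hs : Tr φ s) (h : H) (y z : G) :
    cnt φ s h (z * y * z⁻¹) = cnt φ s h y := by
  refine le_antisymm ?_ (cnt_le hs h y z)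
  have h1 := cnt_le hs h (z * y * z⁻¹) z⁻¹
  have h2 : z⁻¹ * (z * y * z⁻¹) * (z⁻¹)⁻¹ = y := by group
  rwa [h2] at h1

theorem cnt_pos {φ : H →* G} {s : k → G} (hs : Tr φ s) (h : H) : 0 < cnt φ s h (φ h) := by
  classical
  obtain ⟨⟨i, b⟩, hib⟩ := hs.2 1
  have h1 : s i * φ b = 1 := hib
  unfold cnt
  refine Finset.card_pos.2 ⟨i, ?_⟩
  rw [Finset.mem_filter]
  refine ⟨Finset.mem_univ _, ?_⟩
  have h2 : s i = φ b⁻¹ := by
    rw [map_inv]
    exact eq_inv_of_mul_eq_one_left h1
  rw [h2, ← map_inv, ← map_mul, ← map_mul]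
  congr 1
  rw [inv_inv, mul_comm b⁻¹ h, inv_mul_cancel_right]

theorem cnt_off {φ : H →* G} {s : k → G} (h : H) (y : G) (hy : ¬ IsConj y (φ h)) :
    cnt φ s h y = 0 := by
  classical
  unfold cnt
  rw [Finset.card_eq_zero, Finset.filter_eq_empty_iff]
  intro i _ hi
  apply hy
  exact (isConj_iff.2 ⟨s i, hi⟩).symm

theorem tau_comm {A : Type} [CommRing A] (h : H) (x : MonoidAlgebra A H) :
    tau h x = x.coeff h := by
  classical
  induction x using MonoidAlgebra.induction_linear with
  | zero => simp
  | add f g hf hg =>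
    rw [map_add, hf, hg]
    rfl
  | single g a =>
    rw [tau_single, MonoidAlgebra.coeff_single, Finsupp.single_apply]
    by_cases hgh : g = h
    · rw [if_pos hgh, if_pos (isConj_iff_eq.2 hgh)]
    · rw [if_neg hgh, if_neg (fun h3 => hgh (isConj_iff_eq.1 h3))]

end TRF

open TRF in
theorem t_TRF : S_TRF.{v} := by
  intro G _ H _ k _ _ φ s hs h
  classical
  refine ⟨cnt φ s h (φ h), cnt_pos hs h, ?_⟩
  intro A _ θ hθ x
  have key : ∀ a : MonoidAlgebra A G, ∑ i, tau h (θ a i i) =
      (cnt φ s h (φ h) : A) * tau (φ h) a := by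
    intro a
    induction a using MonoidAlgebra.induction_linear with
    | zero => simp
    | add f g hf hg =>
      rw [map_add, map_add, mul_add, ← hf, ← hg, ← Finset.sum_add_distrib]
      refine Finset.sum_congr rfl fun i _ => ?_
      rw [Matrix.add_apply, map_add]
    | single y a =>
      have h1 : ∀ i, tau h (θ (MonoidAlgebra.single y a) i i) =
          if s i * φ h * (s i)⁻¹ = y then a else 0 := by
        intro i
        rw [tau_comm, hθ, MonoidAlgebra.coeff_single, Finsupp.single_apply]
        by_cases h2 : y = s i * φ h * (s i)⁻¹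
        · rw [if_pos h2, if_pos h2.symm]
        · rw [if_neg h2, if_neg (fun h3 => h2 h3.symm)]
      rw [Finset.sum_congr rfl fun i _ => h1 i, ← Finset.sum_filter, Finset.sum_const,
        nsmul_eq_mul, tau_single]
      have h2 : ((Finset.univ.filter fun i : k => s i * φ h * (s i)⁻¹ = y).card : A) =
          (cnt φ s h y : A) := by
        unfold cnt
        congr 3
      rw [h2]
      by_cases hy : IsConj y (φ h)
      · obtain ⟨z, hz⟩ := isConj_iff.1 hy.symm
        rw [if_pos hy, ← hz, cnt_conj hs]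
      · rw [if_neg hy, cnt_off h y hy, Nat.cast_zero, zero_mul, mul_zero]
  induction x using AddMonoidAlgebra.induction_linear with
  | zero => simp [Matrix.trace]
  | add f g hf hg =>
    rw [map_add, Matrix.trace_add, map_add, map_add, mul_add, hf, hg]
  | single n a =>
    have h1 : tauL h (Matrix.trace (lau θ (AddMonoidAlgebra.single n a))) =
        ∑ i, tauL h (AddMonoidAlgebra.single n (θ a i i) : LG A H) := by
      rw [Matrix.trace, map_sum]
      refine Finset.sum_congr rfl fun i _ => ?_
      rw [Matrix.diag_apply, lau_single]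
    have h2 : ∀ (P : Type) [Group P] (c : P) (b : MonoidAlgebra A P),
        tauL c (AddMonoidAlgebra.single n b : LG A P) = if n = 0 then tau c b else 0 := by
      intro P _ c b
      rw [tauL, AddMonoidHom.comp_apply, coeffZero_single]
      split_ifs <;> simp
    have h3 : tauL (φ h) (AddMonoidAlgebra.single n a : LG A G) =
        if n = 0 then tau (φ h) a else 0 := by
      rw [tauL, AddMonoidHom.comp_apply, coeffZero_single]
      split_ifs <;> simp
    rw [h1, h3, Finset.sum_congr rfl fun i _ => h2 H h (θ a i i)]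
    by_cases hn : n = 0
    · simp only [if_pos hn]
      exact key a
    · simp only [if_neg hn, Finset.sum_const_zero, mul_zero]

end Pool.Agent.SM1
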