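import Pool.Agent.SM1.St2

/-!
# MP_e40716_gt (T1): the invariant of a matrix with a trivialisation (module TRV)
-/

set_option autoImplicit false
set_option linter.unusedSectionVars false

open Matrix Pool.Agent.Lib25 Pool.Agent.KM

noncomputable section

namespace Pool.Agent.SM1

universe u v w

namespace TRV

theorem cgm_id_eq {A B : Type*} [CommRing A] [CommRing B] {G : Type*} [Group G] (f : A →+* B)
    (x : MonoidAlgebra A G) : cgm f (MonoidHom.id G) x = MonoidAlgebra.mapRingHom G f x := by
  induction x using MonoidAlgebra.induction_linear with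
  | zero => simp
  | add a b ha hb => rw [map_add, map_add, ha, hb]
  | single c r => rw [cgm_single, MonoidAlgebra.mapRingHom_single]; rfl

theorem mapL_mapL {R S T : Type*} [Ring R] [Ring S] [Ring T] (φ : R →+* S) (χ : S →+* T)
    (x : LaurentPolynomial R) : mapL χ (mapL φ x) = mapL (χ.comp φ) x := by
  induction x using AddMonoidAlgebra.induction_linear with
  | zero => simp
  | add f g hf hg => simp only [map_add, hf, hg]
  | single n a => rw [mapL_single, mapL_single, mapL_single]; rfl

theorem tauL_cgm {A B : Type*} [CommRing A] [CommRing B] {G : Type*} [Group G] (f : A →+* B)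
    (h : G) (x : LG A G) : tauL h (mapL (cgm f (MonoidHom.id G)) x) = f (tauL h x) := by
  have h1 : cgm f (MonoidHom.id G) = MonoidAlgebra.mapRingHom G f :=
    RingHom.ext fun x => cgm_id_eq f x
  rw [h1, tauL_mapL]

section Blow

variable {R S : Type*} [Ring R] [Ring S] {k : Type*} [Fintype k] [DecidableEq k]

theorem DL_lau (θ : R →+* Matrix k k S) (x : LaurentPolynomial R) (a b : k) :
    DL (lau θ x a b) = lau θ (DL x) a b := by
  induction x using AddMonoidAlgebra.induction_linear with
  | zero => simp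
  | add f g hf hg => simp only [map_add, Matrix.add_apply, hf, hg]
  | single n r =>
    rw [lau_single, DL_single, DL_single, lau_single, map_zsmul, Matrix.smul_apply]

theorem DL_blow (θ : R →+* Matrix k k S) {m n : Type*} (x : Matrix m n (LaurentPolynomial R)) :
    (blow (lau θ) x).map DL = blow (lau θ) (x.map DL) := by
  refine Matrix.ext fun i j => ?_
  rw [Matrix.map_apply, blow_apply, blow_apply, DL_lau]
  rfl

theorem trace_blow (θ : R →+* Matrix k k S) {m : Type*} [Fintype m]
    (x : Matrix m m (LaurentPolynomial R)) :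
    Matrix.trace (blow (lau θ) x) = Matrix.trace (lau θ (Matrix.trace x)) := by
  simp only [Matrix.trace, Matrix.diag_apply]
  rw [Fintype.sum_prod_type, map_sum]
  simp only [blow_apply, Matrix.sum_apply]
  rw [Finset.sum_comm]

end Blow

theorem gn_ne (N p : ℕ) (hp : p.Prime) (hpN : p ∣ N) : cN N p hpN (gn N) ≠ 1 := by
  have : Fact (1 < p) := ⟨hp.one_lt⟩
  intro h
  have h1 : (ZMod.castHom hpN (ZMod p)) (1 : ZMod N) = 0 := by
    have h2 := congrArg Multiplicative.toAdd h
    exact h2
  rw [map_one] at h1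
  exact one_ne_zero h1

end TRV

theorem t_TRV (hCMP : S_CMP.{0, v}) (hADD : S_ADD.{0, v}) (hRES : S_RES.{v, 0, v})
    (hRCM : S_RCM.{u, v}) (hTRF : S_TRF.{v}) : S_TRV.{v} := by
  intro Q _ N hN φ k _ _ s hTr θ hθ
  obtain ⟨c, hc0, hc⟩ := hTRF φ s hTr (gn N)
  refine ⟨c, hc0, ?_⟩
  intro n E hE p _ hpN z hz K
  obtain ⟨m, α, β, hαβ, hβα, hz⟩ := hz
  have hp : p.Prime := Fact.out
  obtain ⟨θK, hθK⟩ := hRES (A := ZMod (p ^ K)) φ s hTr
  let f : ℤ_[p] →+* ZMod (p ^ K) := PadicInt.toZModPow K
  let F : LG ℤ_[p] Q →+* LG (ZMod (p ^ K)) Q := mapL (cgm f (MonoidHom.id Q))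
  have h1 : (α.map F) * (β.map F) = rd (p ^ K) E := by
    rw [← Matrix.map_mul, hαβ]
    refine Matrix.ext fun i j => ?_
    change F (cc ℤ_[p] Q (E i j)) = mapL (red (p ^ K) Q) (E i j)
    simp only [F, cc]
    rw [TRV.mapL_mapL]
    congr 1
    have h2 : (cgm f (MonoidHom.id Q)).comp
        (MonoidAlgebra.mapRingHom Q (Int.castRingHom ℤ_[p])) = red (p ^ K) Q := by
      refine RingHom.ext fun x => ?_
      rw [RingHom.comp_apply, ← TRV.cgm_id_eq, cgm_comp]
      unfold red
      congr 1
      congr 1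
      exact RingHom.ext_int _ _
    rw [h2]
  have h3 : (β.map F) * (α.map F) = 1 := by
    rw [← Matrix.map_mul, hβα, Matrix.map_one _ (map_zero _) (map_one _)]
  set α' := blow (lau θK) (α.map F) with hα'
  set β' := blow (lau θK) (β.map F) with hβ'
  set e : Matrix (Fin n × k) (Fin n × k) (LG (ZMod (p ^ K)) (Cy N)) :=
    rd (p ^ K) (blow (lau θ) E) with he
  have h4 : α' * β' = e := by
    rw [hα', hβ', ← blow_mul, h1, he]
    refine Matrix.ext fun i j => ?_
    change lau θK (mapL (red (p ^ K) Q) (E i.1 j.1)) i.2 j.2 =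
      mapL (red (p ^ K) (Cy N)) (lau θ (E i.1 j.1) i.2 j.2)
    generalize E i.1 j.1 = x
    generalize i.2 = a
    generalize j.2 = b
    induction x using AddMonoidAlgebra.induction_linear with
    | zero => simp
    | add f g hf hg => simp only [map_add, Matrix.add_apply, hf, hg]
    | single n r =>
      rw [mapL_single, lau_single, lau_single, mapL_single]
      congr 1
      have h5 := hRCM.1 φ s (Int.castRingHom (ZMod (p ^ K))) θ θK hθ hθK r
      have h6 := congrFun (congrFun h5 a) b
      exact h6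
  have h5 : β' * α' = 1 := by
    rw [hα', hβ', ← blow_mul, h3, blow_one]
  have h6 : e * e = e := by
    rw [← h4, Matrix.mul_assoc, ← Matrix.mul_assoc β', h5, Matrix.one_mul]
  have h7 : e * α' = α' := by
    rw [← h4, Matrix.mul_assoc, h5, Matrix.mul_one]
  have h8 : β' * e = β' := by
    rw [← h4, ← Matrix.mul_assoc, h5, Matrix.one_mul]
  have h9 := hCMP hp (cN N p hpN) e (1 : Matrix (Fin m × k) (Fin m × k) _) α' β' h6
    (Matrix.one_mul 1) h4 h5 h7 h8 (gn N) (TRV.gn_ne N p hp hpN)
  have h10 := (hADD hp (cN N p hpN) e (1 : Matrix (Fin m × k) (Fin m × k)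
    (LG (ZMod (p ^ K)) (Cy N))) h6 (Matrix.one_mul 1) (gn N))
  have h11 := (hADD hp (cN N p hpN) (1 : Matrix (Fin m × k) (Fin m × k)
    (LG (ZMod (p ^ K)) (Cy N))) e (Matrix.one_mul 1) h6 (gn N)).2
  rw [h11, sub_zero] at h9
  rw [h9]
  have h12 : tauL (gn N) (Matrix.trace (α' * β'.map DL)) +
      tauL (gn N) (Matrix.trace (β' * α'.map DL)) = 0 := by
    rw [trace_comm_of_tracial (tauL (gn N)) (tauL_mul_comm (gn N)) α' (β'.map DL), ← map_add,
      ← Matrix.trace_add, ← map_DL_mul, h5]
    have h13 : (1 : Matrix (Fin m × k) (Fin m × k) (LG (ZMod (p ^ K)) (Cy N))).map DL = 0 := by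
      refine Matrix.ext fun i j => ?_
      rw [Matrix.map_apply, Matrix.one_apply, Matrix.zero_apply]
      split_ifs
      · have h14 : (1 : LG (ZMod (p ^ K)) (Cy N)) = AddMonoidAlgebra.single 0 1 := rfl
        rw [h14, DL_single, zero_smul]
        exact AddMonoidAlgebra.single_zero _
      · rw [map_zero]
    rw [h13, Matrix.trace_zero, map_zero]
  rw [neg_eq_of_add_eq_zero_right h12]
  rw [hα', hβ', TRV.DL_blow, ← blow_mul, TRV.trace_blow, hc θK hθK]
  congr 1
  rw [hz, ← TRV.tauL_cgm f]
  congr 1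
  have h15 : (α.map F).map DL = (α.map DL).map F := by
    refine Matrix.ext fun i j => ?_
    rw [Matrix.map_apply, Matrix.map_apply, Matrix.map_apply, Matrix.map_apply]
    exact DL_mapL _ _
  rw [h15, ← Matrix.map_mul]
  exact (AddMonoidHom.map_trace (F : LG ℤ_[p] Q →+ LG (ZMod (p ^ K)) Q) (β * α.map DL)).symm

end Pool.Agent.SM1
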