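import Pool.Agent.SM1.St

/-!
# MP_e40716_gt (T1): module UNI

`θ = e₁ e₀ + (1 - e₁)(1 - e₀)` is invertible and conjugates `e₀` into `e₁`.
-/

set_option autoImplicit false

open Matrix Pool.Agent.Lib25 Pool.Agent.KM

noncomputable section

namespace Pool.Agent.SM1

universe u v w

namespace UNI

variable {R : Type*} [Ring R]

/-- `θ - 1 = (e₁ - e₀) (2 e₀ - 1)`. -/
theorem sub_one_eq (a b : R) (hb : b * b = b) :
    a * b + (1 - a) * (1 - b) - 1 = (a - b) * (b + b - 1) := by
  have h1 : a * b + (1 - a) * (1 - b) - 1 = a * b + a * b - a - b := by noncomm_ring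
  have h2 : (a - b) * (b + b - 1) = a * b + a * b - a - (b * b + b * b) + b := by noncomm_ring
  rw [h1, h2, hb]
  abel

/-- `e₁ θ = e₁ e₀`. -/
theorem left_eq (a b : R) (ha : a * a = a) : a * (a * b + (1 - a) * (1 - b)) = a * b := by
  have h1 : a * (a * b + (1 - a) * (1 - b)) = a * a * b + (a - a * a) * (1 - b) := by noncomm_ring
  rw [h1, ha, sub_self, zero_mul, add_zero]

/-- `θ e₀ = e₁ e₀`. -/
theorem right_eq (a b : R) (hb : b * b = b) : (a * b + (1 - a) * (1 - b)) * b = a * b := by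
  have h1 : (a * b + (1 - a) * (1 - b)) * b = a * (b * b) + (1 - a) * (b - b * b) := by
    noncomm_ring
  rw [h1, hb, sub_self, mul_zero, add_zero]

theorem inv_sub_one (x y : R) (h : x * y = 1) : x - 1 = (-x) * (y - 1) := by
  rw [mul_sub, mul_one, neg_mul, h]
  abel

end UNI

theorem t_UNI (hDIV : S_DIV.{u, w}) : S_UNI.{u, w} := by
  intro G _ p K hp q ι _ _ e he
  have : NeZero p := ⟨hp.ne_zero⟩
  obtain ⟨d1, d2, d3, d4⟩ := hDIV
  have h0 : E0 p e * E0 p e = E0 p e := by
    rw [← Matrix.map_mul, he]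
  have h1 : E1 q e * E1 q e = E1 q e := by
    rw [← Matrix.map_mul, he]
  have hsub : th q e - 1 = (E1 q e - E0 p e) * (E0 p e + E0 p e - 1) :=
    UNI.sub_one_eq (E1 q e) (E0 p e) h0
  have hdiv : DivU (th q e - 1) := by
    rw [hsub]
    exact (d1 (E1 q e - E0 p e) (E0 p e + E0 p e - 1)).1 (d3 q e)
  have hnil : IsNilpotent (th q e - 1) := d4 hp _ hdiv
  have hunit : IsUnit (th q e) := by
    have h2 := hnil.isUnit_one_add
    rwa [add_sub_cancel] at h2
  have hr : th q e * Ring.inverse (th q e) = 1 := Ring.mul_inverse_cancel _ hunit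
  have hl : Ring.inverse (th q e) * th q e = 1 := Ring.inverse_mul_cancel _ hunit
  refine ⟨hdiv, hr, hl, ?_, ?_⟩
  · have h2 : E1 q e * th q e = E1 q e * E0 p e := UNI.left_eq _ _ h1
    have h3 : th q e * E0 p e = E1 q e * E0 p e := UNI.right_eq _ _ h0
    rw [h2, h3]
  · have h2 : Ring.inverse (th q e) - 1 = (- Ring.inverse (th q e)) * (th q e - 1) :=
      UNI.inv_sub_one _ _ hl
    rw [h2]
    exact (d1 (- Ring.inverse (th q e)) (th q e - 1)).2 hdiv

end Pool.Agent.SM1
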