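import Pool.Agent.SM1.St2

/-!
# MP_e40716_gt (T1), module WLP: the form of a weight for matrices
-/

set_option autoImplicit false
set_option linter.unusedSectionVars false

open Matrix Pool.Agent.Lib25 Pool.Agent.KM

noncomputable section

namespace Pool.Agent.SM1

universe u v w

namespace WLP

section scalar

variable {A : Type v} [CommRing A] {G : Type u} [Group G]

/-- the weight with values in `A` -/
def wa (A : Type v) [CommRing A] {G : Type u} (W : G → G → ℤ) : G → G → A := fun x y => (W x y : A)

theorem WG_cyc {g : G} {v : ℤ} {W : G → G → ℤ} (hW : IsWt g v W) (x y z : MonoidAlgebra A G) :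
    WG (wa A W) x (y * z) = WG (wa A W) (x * y) z + WG (wa A W) (z * x) y := by
  induction x using MonoidAlgebra.induction_linear with
  | zero => simp
  | add f f' hf hf' =>
    rw [map_add, AddMonoidHom.add_apply, hf, hf', add_mul, mul_add, map_add, map_add,
      AddMonoidHom.add_apply, AddMonoidHom.add_apply]
    abel
  | single a₁ r₁ =>
    induction y using MonoidAlgebra.induction_linear with
    | zero => simp
    | add f f' hf hf' =>
      rw [add_mul, map_add, hf, hf', mul_add, map_add, AddMonoidHom.add_apply, map_add]
      abel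
    | single a₂ r₂ =>
      induction z using MonoidAlgebra.induction_linear with
      | zero => simp
      | add f f' hf hf' =>
        rw [mul_add, map_add, hf, hf', add_mul, map_add, map_add, AddMonoidHom.add_apply]
        abel
      | single a₃ r₃ =>
        rw [MonoidAlgebra.single_mul_single, MonoidAlgebra.single_mul_single,
          MonoidAlgebra.single_mul_single, WG_single, WG_single, WG_single]
        unfold wa
        rw [hW.cyc a₁ a₂ a₃]
        push_cast
        ring

theorem WL_cyc {g : G} {v : ℤ} {W : G → G → ℤ} (hW : IsWt g v W) (x y z : LG A G) :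
    WL (wa A W) x (y * z) = WL (wa A W) (x * y) z + WL (wa A W) (z * x) y := by
  induction x using AddMonoidAlgebra.induction_linear with
  | zero => simp
  | add f f' hf hf' =>
    rw [map_add, AddMonoidHom.add_apply, hf, hf', add_mul, mul_add, map_add, map_add,
      AddMonoidHom.add_apply, AddMonoidHom.add_apply]
    abel
  | single n₁ r₁ =>
    induction y using AddMonoidAlgebra.induction_linear with
    | zero => simp
    | add f f' hf hf' =>
      rw [add_mul, map_add, hf, hf', mul_add, map_add, AddMonoidHom.add_apply, map_add]
      abel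
    | single n₂ r₂ =>
      induction z using AddMonoidAlgebra.induction_linear with
      | zero => simp
      | add f f' hf hf' =>
        rw [mul_add, map_add, hf, hf', add_mul, map_add, map_add, AddMonoidHom.add_apply]
        abel
      | single n₃ r₃ =>
        rw [AddMonoidAlgebra.single_mul_single, AddMonoidAlgebra.single_mul_single,
          AddMonoidAlgebra.single_mul_single, WL_single, WL_single, WL_single, WG_cyc hW]
        by_cases h : n₁ + (n₂ + n₃) = 0
        · rw [if_pos h, if_pos (by omega), if_pos (by omega)]
        · rw [if_neg h, if_neg (by omega), if_neg (by omega), add_zero]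

theorem WL_der (W : G → G → ℤ) (x y : LG A G) :
    WL (wa A W) (DL x) y + WL (wa A W) x (DL y) = 0 := by
  induction x using AddMonoidAlgebra.induction_linear with
  | zero => simp
  | add f f' hf hf' =>
    rw [map_add, map_add, map_add, AddMonoidHom.add_apply, AddMonoidHom.add_apply,
      add_add_add_comm, hf, hf', add_zero]
  | single n₁ r₁ =>
    induction y using AddMonoidAlgebra.induction_linear with
    | zero => simp
    | add f f' hf hf' =>
      rw [map_add, map_add, map_add, add_add_add_comm, hf, hf', add_zero]
    | single n₂ r₂ =>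
      rw [DL_single, DL_single, WL_single, WL_single]
      by_cases h : n₁ + n₂ = 0
      · rw [if_pos h, if_pos h, map_zsmul, map_zsmul, AddMonoidHom.zsmul_apply, ← add_smul, h,
          zero_smul]
      · rw [if_neg h, if_neg h, add_zero]

theorem W_one {g : G} {v : ℤ} {W : G → G → ℤ} (hW : IsWt g v W) (y : G) : W y 1 = 0 := by
  have h := hW.cyc y 1 1
  rw [mul_one, mul_one, one_mul] at h
  omega

theorem WL_one {g : G} {v : ℤ} {W : G → G → ℤ} (hW : IsWt g v W) (x : LG A G) :
    WL (wa A W) 1 x = (v : A) * tauL g x := by
  classical
  induction x using AddMonoidAlgebra.induction_linear with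
  | zero => simp
  | add f f' hf hf' => rw [map_add, map_add, hf, hf', mul_add]
  | single n r =>
    have h1 : (1 : LG A G) = AddMonoidAlgebra.single 0 1 := rfl
    rw [h1, WL_single, tauL, AddMonoidHom.comp_apply, coeffZero_single, zero_add]
    by_cases hn : n = 0
    · rw [if_pos hn, if_pos hn]
      induction r using MonoidAlgebra.induction_linear with
      | zero => simp
      | add f f' hf hf' => rw [map_add, map_add, hf, hf', mul_add]
      | single y b =>
        have h2 : (1 : MonoidAlgebra A G) = MonoidAlgebra.single 1 1 := rfl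
        rw [h2, WG_single, tau_single, one_mul]
        by_cases hy : IsConj y g
        · rw [if_pos hy]
          have h3 := hW.sym 1 y (by rwa [one_mul])
          rw [W_one hW, add_zero] at h3
          unfold wa
          rw [h3, mul_comm]
        · rw [if_neg hy]
          have h3 := hW.off 1 y (by rwa [one_mul])
          unfold wa
          rw [h3]
          simp
    · rw [if_neg hn, if_neg hn, map_zero, mul_zero]

end scalar

section matrix

variable {A : Type v} [CommRing A] {G : Type u} [Group G] {ι : Type w} [Fintype ι]

/-- the form for matrices -/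
def BM (W : G → G → A) : Matrix ι ι (LG A G) →+ Matrix ι ι (LG A G) →+ A :=
  AddMonoidHom.mk' (fun X => AddMonoidHom.mk' (fun Y => ∑ i, ∑ j, WL W (X i j) (Y j i)) (by
    intro Y Y'
    simp only [Matrix.add_apply, map_add, Finset.sum_add_distrib])) (by
    intro X X'
    ext Y
    simp only [AddMonoidHom.mk'_apply, AddMonoidHom.add_apply, Matrix.add_apply, map_add,
      Finset.sum_add_distrib])

theorem BM_apply (W : G → G → A) (X Y : Matrix ι ι (LG A G)) :
    BM W X Y = ∑ i, ∑ j, WL W (X i j) (Y j i) := rfl

end matrix

end WLP

open WLP in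
theorem t_WLP : S_WLP.{u, w} := by
  intro A _ G _ g v W hW ι _ _
  refine ⟨BM (wa A W), fun X Y => rfl, ?_, ?_, ?_⟩
  · intro x y z
    rw [BM_apply, BM_apply, BM_apply]
    have e1 : ∑ i, ∑ j, WL (wa A W) (x i j) ((y * z) j i) =
        ∑ i, ∑ j, ∑ k, (WL (wa A W) (x i j * y j k) (z k i) +
          WL (wa A W) (z k i * x i j) (y j k)) := by
      refine Finset.sum_congr rfl fun i _ => Finset.sum_congr rfl fun j _ => ?_
      rw [Matrix.mul_apply, map_sum]
      exact Finset.sum_congr rfl fun k _ => WL_cyc hW _ _ _
    have e2 : ∑ i, ∑ j, WL (wa A W) ((x * y) i j) (z j i) =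
        ∑ i, ∑ j, ∑ k, WL (wa A W) (x i j * y j k) (z k i) := by
      refine Finset.sum_congr rfl fun i _ => ?_
      rw [Finset.sum_comm]
      refine Finset.sum_congr rfl fun k _ => ?_
      rw [Matrix.mul_apply, map_sum, AddMonoidHom.finsetSum_apply]
    have e3 : ∑ i, ∑ j, WL (wa A W) ((z * x) i j) (y j i) =
        ∑ i, ∑ j, ∑ k, WL (wa A W) (z k i * x i j) (y j k) := by
      have e4 : ∑ i, ∑ j, WL (wa A W) ((z * x) i j) (y j i) =
          ∑ k, ∑ j, ∑ i, WL (wa A W) (z k i * x i j) (y j k) := by
        refine Finset.sum_congr rfl fun k _ => Finset.sum_congr rfl fun j _ => ?_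
        rw [Matrix.mul_apply, map_sum, AddMonoidHom.finsetSum_apply]
      rw [e4]
      calc ∑ k, ∑ j, ∑ i, WL (wa A W) (z k i * x i j) (y j k)
          = ∑ k, ∑ i, ∑ j, WL (wa A W) (z k i * x i j) (y j k) :=
            Finset.sum_congr rfl fun k _ => Finset.sum_comm
        _ = ∑ i, ∑ k, ∑ j, WL (wa A W) (z k i * x i j) (y j k) := Finset.sum_comm
        _ = ∑ i, ∑ j, ∑ k, WL (wa A W) (z k i * x i j) (y j k) :=
            Finset.sum_congr rfl fun i _ => Finset.sum_comm
    rw [e1, e2, e3, ← Finset.sum_add_distrib]
    refine Finset.sum_congr rfl fun i _ => ?_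
    rw [← Finset.sum_add_distrib]
    refine Finset.sum_congr rfl fun j _ => ?_
    rw [← Finset.sum_add_distrib]
  · intro x y
    rw [BM_apply, BM_apply, ← Finset.sum_add_distrib]
    refine Finset.sum_eq_zero fun i _ => ?_
    rw [← Finset.sum_add_distrib]
    refine Finset.sum_eq_zero fun j _ => ?_
    rw [Matrix.map_apply, Matrix.map_apply]
    exact WL_der W _ _
  · intro x
    rw [BM_apply, Matrix.trace, map_sum, Finset.mul_sum]
    refine Finset.sum_congr rfl fun i _ => ?_
    rw [Finset.sum_eq_single i]
    · rw [Matrix.one_apply_eq, Matrix.diag_apply]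
      exact WL_one hW _
    · intro j _ hj
      rw [Matrix.one_apply_ne (Ne.symm hj), map_zero, AddMonoidHom.zero_apply]
    · intro h
      exact absurd (Finset.mem_univ i) h

end Pool.Agent.SM1
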