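import Pool.Agent.SM1.St

/-!
# Module WTX: weights from homomorphisms of the centralizer
-/

set_option autoImplicit false

namespace Pool.Agent.SM1

universe u

namespace WTX

variable {G : Type u} [Group G] (g : G) (f : Subgroup.centralizer {g} →* Multiplicative ℤ)

open Classical in
/-- the extension of `f` by zero -/
noncomputable def fz (e : G) : ℤ :=
  if h : e ∈ Subgroup.centralizer {g} then Multiplicative.toAdd (f ⟨e, h⟩) else 0

theorem fz_mem {e : G} (h : e ∈ Subgroup.centralizer {g}) :
    fz g f e = Multiplicative.toAdd (f ⟨e, h⟩) := dif_pos h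

theorem fz_mul {a b : G} (ha : a ∈ Subgroup.centralizer {g})
    (hb : b ∈ Subgroup.centralizer {g}) : fz g f (a * b) = fz g f a + fz g f b := by
  rw [fz_mem g f ha, fz_mem g f hb, fz_mem g f (mul_mem ha hb), ← toAdd_mul, ← map_mul]
  rfl

theorem mem_of_conj {e : G} (h : e * g * e⁻¹ = g) : e ∈ Subgroup.centralizer {g} := by
  rw [Subgroup.mem_centralizer_singleton_iff]
  rw [mul_inv_eq_iff_eq_mul] at h
  exact h

open Classical in
/-- conjugators -/
noncomputable def ga (y : G) : G :=
  if h : ∃ c : G, c * g * c⁻¹ = y then h.choose else 1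

theorem ga_spec {y : G} (h : IsConj g y) : ga g y * g * (ga g y)⁻¹ = y := by
  have h' : ∃ c : G, c * g * c⁻¹ = y := isConj_iff.1 h
  unfold ga
  rw [dif_pos h']
  exact h'.choose_spec

theorem conj_right {y : G} (h : IsConj g y) (x : G) : IsConj g (x * y * x⁻¹) :=
  h.trans (isConj_iff.2 ⟨x, rfl⟩)

/-- the element of the centralizer -/
noncomputable def el (x y : G) : G := (ga g (x * y * x⁻¹))⁻¹ * x * ga g y

theorem el_mem {y : G} (h : IsConj g y) (x : G) : el g x y ∈ Subgroup.centralizer {g} := by
  apply mem_of_conj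
  have h1 := ga_spec g h
  have h2 := ga_spec g (conj_right g h x)
  unfold el
  have e1 : (ga g (x * y * x⁻¹))⁻¹ * x * ga g y * g * ((ga g (x * y * x⁻¹))⁻¹ * x * ga g y)⁻¹ =
      (ga g (x * y * x⁻¹))⁻¹ * (x * (ga g y * g * (ga g y)⁻¹) * x⁻¹) * ga g (x * y * x⁻¹) := by
    group
  rw [e1, h1]
  conv_lhs =>
    enter [1, 2]
    rw [← h2]
  group

/-- the cocycle -/
noncomputable def F (x y : G) : ℤ := fz g f (el g x y)

theorem F_mul {y : G} (h : IsConj g y) (x x' : G) :
    F g f (x * x') y = F g f x (x' * y * x'⁻¹) + F g f x' y := by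
  unfold F
  rw [← fz_mul g f (el_mem g (conj_right g h x') x) (el_mem g h x')]
  congr 1
  unfold el
  have e1 : x * x' * y * (x * x')⁻¹ = x * (x' * y * x'⁻¹) * x⁻¹ := by group
  rw [e1]
  group

theorem F_self {y : G} (h : IsConj g y) : F g f y y = fz g f g := by
  unfold F
  congr 1
  unfold el
  have h1 := ga_spec g h
  have e1 : y * y * y⁻¹ = y := by group
  rw [e1]
  have e2 : g = (ga g y)⁻¹ * (ga g y * g * (ga g y)⁻¹) * ga g y := by group
  rw [h1] at e2
  exact e2.symm

open Classical in
/-- the weight -/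
noncomputable def W (x y : G) : ℤ := if IsConj g (x * y) then F g f y (x * y) else 0

end WTX

open WTX in
theorem t_WTX : S_WTX.{u} := by
  intro G _ g f
  refine ⟨W g f, ?_, ?_, ?_⟩
  · intro x y z
    have e1 : z * (x * y * z) * z⁻¹ = z * x * y := by group
    by_cases h : IsConj g (x * y * z)
    · have h1 : IsConj g (x * (y * z)) := by rw [← mul_assoc]; exact h
      have h2 : IsConj g (z * x * y) := by
        rw [← e1]; exact conj_right g h z
      unfold W
      rw [if_pos h1, if_pos h, if_pos h2]
      have h3 := F_mul g f h y z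
      rw [e1] at h3
      rw [← mul_assoc, h3]
      ring
    · have h1 : ¬ IsConj g (x * (y * z)) := by rw [← mul_assoc]; exact h
      have h2 : ¬ IsConj g (z * x * y) := by
        intro h3
        apply h
        have h4 := conj_right g h3 z⁻¹
        have e2 : z⁻¹ * (z * x * y) * z⁻¹⁻¹ = x * y * z := by group
        rwa [e2] at h4
      unfold W
      rw [if_neg h1, if_neg h, if_neg h2, add_zero]
  · intro x y h
    have h0 : IsConj g (x * y) := h.symm
    have e1 : y * (x * y) * y⁻¹ = y * x := by group
    have h1 : IsConj g (y * x) := by rw [← e1]; exact conj_right g h0 y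
    unfold W
    rw [if_pos h0, if_pos h1]
    have h2 := F_mul g f h0 x y
    rw [e1, F_self g f h0] at h2
    rw [← fz_mem g f, h2]
    ring
  · intro x y h
    unfold W
    rw [if_neg]
    exact fun h1 => h h1.symm

end Pool.Agent.SM1
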