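import Pool.Agent.KM.All
import Pool.Agent.SM1.P_ABT
import Pool.Agent.SM1.P_ADD
import Pool.Agent.SM1.P_CMP
import Pool.Agent.SM1.P_COL
import Pool.Agent.SM1.P_DIV
import Pool.Agent.SM1.P_F21
import Pool.Agent.SM1.P_FIN2
import Pool.Agent.SM1.P_FNS2
import Pool.Agent.SM1.P_FSU
import Pool.Agent.SM1.P_FUG
import Pool.Agent.SM1.P_GEN2
import Pool.Agent.SM1.P_LOG
import Pool.Agent.SM1.P_LPF
import Pool.Agent.SM1.P_NUM
import Pool.Agent.SM1.P_POL
import Pool.Agent.SM1.P_R1C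
import Pool.Agent.SM1.P_RCM
import Pool.Agent.SM1.P_RES
import Pool.Agent.SM1.P_RHO
import Pool.Agent.SM1.P_SUM
import Pool.Agent.SM1.P_TOR
import Pool.Agent.SM1.P_TR2
import Pool.Agent.SM1.P_TRF
import Pool.Agent.SM1.P_TRV
import Pool.Agent.SM1.P_UNI
import Pool.Agent.SM1.P_WLP
import Pool.Agent.SM1.P_WTX

/-!
# MP_e40716_gt (T1): assembly of the proof
-/

set_option autoImplicit false

open Matrix Pool.Agent.Lib25 Pool.Agent.KM

noncomputable section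

namespace Pool.Agent.SM1

universe u v w

theorem all_UNI : S_UNI.{u, w} := t_UNI t_DIV
theorem all_CMP : S_CMP.{u, w} := t_CMP t_DIV all_UNI t_LOG
theorem all_ADD : S_ADD.{u, w} := t_ADD all_UNI
theorem all_FUG : S_FUG.{u, v, w} := t_FUG all_UNI
theorem all_POL : S_POL.{u, w} := t_POL t_DIV all_UNI
theorem all_R1C : S_R1C.{u, w} := t_R1C t_ABT t_WLP all_UNI
theorem all_SUM : S_SUM.{u, w} := t_SUM all_FUG all_FUG all_R1C t_FSU t_WTX
theorem all_RHO : S_RHO.{v} := t_RHO all_CMP all_ADD all_POL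
theorem all_TRV : S_TRV.{v} := t_TRV all_CMP all_ADD t_RES t_RCM.{0, v} t_TRF
theorem all_NUM : S_NUM.{u, v} := t_NUM all_SUM all_RHO t_RES t_RES t_RCM all_TRV
theorem all_GEN2 : S_GEN2.{v} := t_GEN2 t_TRL all_TFI t_ZAD
theorem all_FNS2 : S_FNS2.{u, v} := t_FNS2 all_NUM t_TR2 all_GEN2 t_LPF t_TKA
/-- **T1** -/
theorem all_FIN2 : S_FIN2.{u, v} := t_FIN2 all_FNS2 t_COL
/-- The torsion free case. -/
theorem all_TOR : S_TOR.{u, v} := t_TOR (t_F21 all_FIN2) all_TFI all_TAV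

end Pool.Agent.SM1
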