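import Pool.Agent.SM1.St2
import Pool.Agent.SUR.LING
import Pool.Agent.SUR.VALG
import Pool.Agent.SUR.VALF
import Pool.Agent.SUR.NFH
import Pool.Agent.SUR.LCO
import Pool.Agent.SUR.EIGG
import Pool.Agent.SUR.WAL
import Pool.Agent.SUR.WALC

/-!
# MP_e40716_gt (T1): groups with the property `LZ`
-/

set_option autoImplicit false

open Matrix Pool.Agent.Lib25 Pool.Agent.KM

namespace Pool.Agent.SM1

universe u v

/-- Local homomorphisms of centralizers to `ℤ`. -/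
theorem lz_of_loc {G : Type u} [Group G] (h : Pool.Agent.SUR.LocCentHom G) {Q : Type v} [Group Q]
    (π : G →* Q) : LZ π := by
  intro G0 hG0
  refine ⟨G0, le_rfl, fun g hg => ?_⟩
  obtain ⟨f, hf⟩ := h G0 hG0 g (hg g rfl)
  exact ⟨f, fun h1 => hf (by rw [h1]; rfl)⟩

/-- Linear groups. -/
theorem lz_linear (F : Type u) [Field F] (n : ℕ) (G : Subgroup (GL (Fin n) F))
    (h : ∀ g ∈ G, IsNilpotent ((g : Matrix (Fin n) (Fin n) F) - 1) → IsOfFinOrder g)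
    {Q : Type v} [Group Q] (π : G →* Q) : LZ π :=
  lz_of_loc ((Pool.Agent.SUR.t_LING (Pool.Agent.SUR.t_VALG Pool.Agent.SUR.t_VALF
    Pool.Agent.SUR.t_NFH Pool.Agent.SUR.t_LCO) Pool.Agent.SUR.t_EIGG).1 F n G h) π

/-- Linear groups in positive characteristic. -/
theorem lz_linear_char (F : Type u) [Field F] (p : ℕ) [Fact p.Prime] [CharP F p] (n : ℕ)
    (G : Subgroup (GL (Fin n) F)) {Q : Type v} [Group Q] (π : G →* Q) : LZ π :=
  lz_linear F n G (fun g _ hg => (Pool.Agent.SUR.t_LING (Pool.Agent.SUR.t_VALG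
    Pool.Agent.SUR.t_VALF Pool.Agent.SUR.t_NFH Pool.Agent.SUR.t_LCO)
    Pool.Agent.SUR.t_EIGG).2 F p n g hg) π

/-- Groups acting on spaces with walls. -/
theorem lz_walls (G V : Type u) [Group G] [MulAction G V] (ℋ : Set (Set V)) (h0 : Nonempty V)
    (h1 : ∀ (g : G), ∀ h ∈ ℋ, (fun x => g • x) '' h ∈ ℋ)
    (h2 : ∀ x y : V, {h ∈ ℋ | x ∈ h ∧ y ∉ h}.Finite)
    (h3 : ∀ g : G, ¬IsOfFinOrder g → ∃ h ∈ ℋ, ∃ (x : V) (n : ℕ), ∀ i : ℕ, n ≤ i →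
      (g⁻¹) ^ i • x ∈ h ∧ g ^ i • x ∉ h) {Q : Type v} [Group Q] (π : G →* Q) : LZ π :=
  lz_of_loc (Pool.Agent.SUR.t_WALC Pool.Agent.SUR.t_WAL G V ℋ h0 h1 h2 h3) π

end Pool.Agent.SM1
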