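import Pool.Agent.KM.St4

/-!
# MP_e40716_gt (T1): surjectivity in degree `-1` seen in finite quotients: definitions

* `Cy n` : the cyclic group of order `n`.
* `cgm f φ : A[G] →+* B[H]`.
* `i0 A G p`, `i1 A q : A[G] →+* A[G × C_p]`, `g ↦ (g, 1)`, `g ↦ (g, q g)`.
* `th q e` : the matrix `e₁ e₀ + (1 - e₁)(1 - e₀)`.
* `OM q e` : `tr(e₀ θ⁻¹ t dθ/dt)`; `rg q e g` : its trace at the class of `(g, q g)`.
* `uu`, `DivU`: the central element `(1, c) - 1` and the matrices divisible by it.
* `WL W`, `kap W E`: the weighted trace.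
* `resH`: restriction (transfer) homomorphisms.
* `TT N`: the target of the invariant of `K_{-1}(ℤ[C_N])`.
-/

set_option autoImplicit false
set_option linter.unusedSectionVars false

open Matrix Pool.Agent.Lib25 Pool.Agent.KM

noncomputable section

namespace Pool.Agent.SM1

universe u v w

/-- The cyclic group of order `n`. -/
abbrev Cy (n : ℕ) : Type := Multiplicative (ZMod n)

/-- The Laurent polynomials over the group ring `A[G]`. -/
abbrev LG (A : Type*) [CommRing A] (G : Type*) [Group G] : Type _ :=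
  LaurentPolynomial (MonoidAlgebra A G)

section Cgm

variable {A B C : Type*} [CommRing A] [CommRing B] [CommRing C] {G H P : Type*} [Group G] [Group H]
  [Group P]

/-- The ring homomorphism `A[G] → B[H]` induced by `f : A → B` and `φ : G → H`. -/
def cgm (f : A →+* B) (φ : G →* H) : MonoidAlgebra A G →+* MonoidAlgebra B H :=
  (MonoidAlgebra.mapDomainRingHom B φ).comp (MonoidAlgebra.mapRingHom G f)

theorem cgm_single (f : A →+* B) (φ : G →* H) (g : G) (a : A) :
    cgm f φ (MonoidAlgebra.single g a) = MonoidAlgebra.single (φ g) (f a) := by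
  unfold cgm
  rw [RingHom.comp_apply, MonoidAlgebra.mapRingHom_single]
  change MonoidAlgebra.mapDomain _ _ = _
  rw [MonoidAlgebra.mapDomain_single]

theorem cgm_comp (f : A →+* B) (φ : G →* H) (f' : B →+* C) (φ' : H →* P) (x : MonoidAlgebra A G) :
    cgm f' φ' (cgm f φ x) = cgm (f'.comp f) (φ'.comp φ) x := by
  induction x using MonoidAlgebra.induction_linear with
  | zero => simp
  | add a b ha hb => rw [map_add, map_add, ha, hb, map_add]
  | single c r => rw [cgm_single, cgm_single, cgm_single]; rfl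

variable (A G)

/-- `g ↦ (g, 1)` -/
def i0 (p : ℕ) : MonoidAlgebra A G →+* MonoidAlgebra A (G × Cy p) :=
  cgm (RingHom.id A) (MonoidHom.inl G (Cy p))

variable {G}

/-- `g ↦ (g, q g)` -/
def i1 {p : ℕ} (q : G →* Cy p) : MonoidAlgebra A G →+* MonoidAlgebra A (G × Cy p) :=
  cgm (RingHom.id A) ((MonoidHom.id G).prod q)

variable (G)

/-- The central element `(1, c) - 1`, `c` the generator of `C_p`. -/
def uu (p : ℕ) : LG A (G × Cy p) :=
  LaurentPolynomial.C (MonoidAlgebra.single ((1 : G), (Multiplicative.ofAdd 1 : Cy p)) 1 - 1)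

variable {A G}

/-- Matrices all of whose entries are multiples of `uu`. -/
def DivU {p : ℕ} {ι κ : Type*} (x : Matrix ι κ (LG A (G × Cy p))) : Prop :=
  ∃ y : Matrix ι κ (LG A (G × Cy p)), x = y.map (fun a => uu A G p * a)

variable {ι κ : Type*} [Fintype ι] [DecidableEq ι] [Fintype κ] [DecidableEq κ] {p : ℕ}

/-- `e₀` -/
abbrev E0 (p : ℕ) (e : Matrix ι κ (LG A G)) : Matrix ι κ (LG A (G × Cy p)) :=
  e.map (mapL (i0 A G p))

/-- `e₁` -/
abbrev E1 (q : G →* Cy p) (e : Matrix ι κ (LG A G)) : Matrix ι κ (LG A (G × Cy p)) :=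
  e.map (mapL (i1 A q))

/-- `θ = e₁ e₀ + (1 - e₁)(1 - e₀)` -/
def th (q : G →* Cy p) (e : Matrix ι ι (LG A G)) : Matrix ι ι (LG A (G × Cy p)) :=
  E1 q e * E0 p e + (1 - E1 q e) * (1 - E0 p e)

/-- `tr(e₀ θ⁻¹ t dθ/dt)` -/
def OM (q : G →* Cy p) (e : Matrix ι ι (LG A G)) : LG A (G × Cy p) :=
  Matrix.trace (E0 p e * Ring.inverse (th q e) * (th q e).map DL)

/-- The invariant at the class of `g`. -/
def rg (q : G →* Cy p) (e : Matrix ι ι (LG A G)) (g : G) : A := tauL (g, q g) (OM q e)

/-- Reduction of the coefficients modulo `n`. -/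
def red (n : ℕ) (G : Type*) [Group G] : MonoidAlgebra ℤ G →+* MonoidAlgebra (ZMod n) G :=
  cgm (Int.castRingHom (ZMod n)) (MonoidHom.id G)

/-- The matrix over `ℤ[G][t,t⁻¹]` modulo `n`. -/
abbrev rd (n : ℕ) (e : Matrix ι κ (LG ℤ G)) : Matrix ι κ (LG (ZMod n) G) := e.map (mapL (red n G))

/-- The map `ℤ[G][t,t⁻¹] → ℤ[H][t,t⁻¹]` applied to a matrix. -/
abbrev psh (φ : G →* H) (e : Matrix ι κ (LG ℤ G)) : Matrix ι κ (LG ℤ H) := e.map (mapL (grm φ))

/-- The reduction `C_N → C_p` for `p ∣ N`. -/
def cN (N p : ℕ) (h : p ∣ N) : Cy N →* Cy p :=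
  AddMonoidHom.toMultiplicative (ZMod.castHom h (ZMod p)).toAddMonoidHom

end Cgm

section Weight

variable {A : Type v} [CommRing A] {G : Type u} [Group G]

/-- The additive map `b h ↦ b W(x, h)`. -/
def WR (W : G → G → A) (x : G) : MonoidAlgebra A G →+ A :=
  (Finsupp.liftAddHom (fun h : G => AddMonoidHom.mulRight (W x h))).comp
    (MonoidAlgebra.coeffAddEquiv (R := A) (M := G)).toAddMonoidHom

theorem WR_single (W : G → G → A) (x y : G) (b : A) :
    WR W x (MonoidAlgebra.single y b) = b * W x y := by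
  simp only [WR, AddMonoidHom.comp_apply]
  have : (MonoidAlgebra.coeffAddEquiv (R := A) (M := G)).toAddMonoidHom
      (MonoidAlgebra.single y b) = Finsupp.single y b := rfl
  rw [this, Finsupp.liftAddHom_apply_single]
  rfl

/-- The bilinear form on `A[G]` of a function `W : G → G → A`. -/
def WG (W : G → G → A) : MonoidAlgebra A G →+ MonoidAlgebra A G →+ A :=
  (Finsupp.liftAddHom (fun x : G =>
    (AddMonoidHom.compHom' (WR W x)).comp (AddMonoidHom.mul (R := A)))).comp
    (MonoidAlgebra.coeffAddEquiv (R := A) (M := G)).toAddMonoidHom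

theorem WG_single (W : G → G → A) (x y : G) (a b : A) :
    WG W (MonoidAlgebra.single x a) (MonoidAlgebra.single y b) = a * b * W x y := by
  simp only [WG, AddMonoidHom.comp_apply]
  have : (MonoidAlgebra.coeffAddEquiv (R := A) (M := G)).toAddMonoidHom
      (MonoidAlgebra.single x a) = Finsupp.single x a := rfl
  rw [this, Finsupp.liftAddHom_apply_single, AddMonoidHom.comp_apply]
  change a * WR W x (MonoidAlgebra.single y b) = _
  rw [WR_single, mul_assoc]

/-- The coefficient of `t ^ n`. -/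
def cf (n : ℤ) : LG A G →+ MonoidAlgebra A G where
  toFun x := x.coeff n
  map_zero' := by simp
  map_add' _ _ := by simp

theorem cf_single (n m : ℤ) (a : MonoidAlgebra A G) :
    cf n (AddMonoidAlgebra.single m a : LG A G) = if m = n then a else 0 := by
  change (AddMonoidAlgebra.single m a).coeff n = _
  rw [AddMonoidAlgebra.coeff_single, Finsupp.single_apply]

/-- The coefficient of `t ^ 0` of the bilinear form of `W` on `A[G][t,t⁻¹]`. -/
def WL (W : G → G → A) : LG A G →+ LG A G →+ A :=
  (Finsupp.liftAddHom (fun n : ℤ => (AddMonoidHom.compHom' (cf (-n))).comp (WG W))).comp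
    (AddMonoidAlgebra.coeffAddEquiv (R := MonoidAlgebra A G) (M := ℤ)).toAddMonoidHom

theorem WL_single (W : G → G → A) (n m : ℤ) (a b : MonoidAlgebra A G) :
    WL W (AddMonoidAlgebra.single n a) (AddMonoidAlgebra.single m b) =
      if n + m = 0 then WG W a b else 0 := by
  simp only [WL, AddMonoidHom.comp_apply]
  have : (AddMonoidAlgebra.coeffAddEquiv (R := MonoidAlgebra A G) (M := ℤ)).toAddMonoidHom
      (AddMonoidAlgebra.single n a) = Finsupp.single n a := rfl
  rw [this, Finsupp.liftAddHom_apply_single, AddMonoidHom.comp_apply,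
    AddMonoidHom.compHom'_apply_apply]
  change (WG W a) (cf (-n) (AddMonoidAlgebra.single m b)) = _
  rw [cf_single]
  by_cases h : n + m = 0
  · rw [if_pos h, if_pos (by omega)]
  · rw [if_neg h, if_neg (by omega), map_zero]

/-- The weighted trace `tr(E [δE, DE])`. -/
def kap (W : G → G → A) {ι : Type*} [Fintype ι] (E : Matrix ι ι (LG A G)) : A :=
  ∑ i, ∑ j, WL W ((E.map DL * E - E * E.map DL) i j) (E j i)

/-- `W` is a weight of value `v` at the conjugacy class of `g`. -/
structure IsWt (g : G) (v : ℤ) (W : G → G → ℤ) : Prop where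
  cyc : ∀ x y z, W x (y * z) = W (x * y) z + W (z * x) y
  sym : ∀ x y, IsConj (x * y) g → W x y + W y x = v
  off : ∀ x y, ¬ IsConj (x * y) g → W x y = 0

end Weight

section Res

variable {A : Type*} [CommRing A] {G : Type*} [Group G] {H : Type*} [Group H] {k : Type*}
  [Fintype k] [DecidableEq k]

/-- `φ : H → G` is injective and the `s i` represent the cosets `G/φ(H)`. -/
def Tr (φ : H →* G) (s : k → G) : Prop := Function.Bijective (fun z : k × H => s z.1 * φ z.2)

/-- `θ : A[G] → M_k(A[H])` is the restriction homomorphism of `φ`, `s`. -/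
def IsRes (φ : H →* G) (s : k → G)
    (θ : MonoidAlgebra A G →+* Matrix k k (MonoidAlgebra A H)) : Prop :=
  ∀ x i j h, (θ x i j).coeff h = x.coeff (s i * φ h * (s j)⁻¹)

end Res

/-- The target of the invariant: the families `(r_(p,K))`, `p` a prime factor of `N`, modulo the
integers. -/
abbrev TP (N : ℕ) : Type := ∀ (p : N.primeFactors) (K : ℕ), ZMod ((p : ℕ) ^ K)

/-- The target of the invariant. -/
def TT (N : ℕ) : Type := TP N ⧸ (Int.castAddHom (TP N)).range

instance (N : ℕ) : AddCommGroup (TT N) :=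
  QuotientAddGroup.Quotient.addCommGroup (Int.castAddHom (TP N)).range

/-- The class of a family. -/
def tcl (N : ℕ) : TP N →+ TT N := QuotientAddGroup.mk' (Int.castAddHom (TP N)).range

theorem tcl_eq_zero {N : ℕ} (x : TP N) : tcl N x = 0 ↔ ∃ a : ℤ, ∀ p K, x p K = (a : ZMod _) := by
  have h : tcl N x = 0 ↔ x ∈ (Int.castAddHom (TP N)).range := QuotientAddGroup.eq_zero_iff x
  rw [h, AddMonoidHom.mem_range]
  constructor
  · rintro ⟨a, ha⟩
    exact ⟨a, fun p K => by rw [← ha]; rfl⟩
  · rintro ⟨a, ha⟩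
    exact ⟨a, by funext p K; rw [ha p K]; rfl⟩

end Pool.Agent.SM1
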