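import Pool.Agent.SM1.All
import Pool.Agent.SM1.Cond

/-!
# MP_e40716_gt (T1): named conditions and conclusions
-/

set_option autoImplicit false

open Pool.Agent.Lib25 Pool.Agent.KM

namespace Pool.Agent.SM1

universe u v

/-- The kernel of the assembly map in degree `-1` is a torsion group. -/
def InjRat (G : Type u) [Group G] : Prop :=
  ∀ s : Src G, asm G s = 0 → ∃ n : ℕ, 0 < n ∧ n • s = 0

/-- For every `x ∈ K_{-1}(ℤ[G])` there are `n > 0` and `s ∈ Src G` such that `n x` and `asm s` have the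
same image in `K_{-1}(ℤ[Q])`. -/
def SurjSeen {G : Type u} [Group G] {Q : Type v} [Group Q] (π : G →* Q) : Prop :=
  ∀ x : KNegOne (MonoidAlgebra ℤ G), ∃ (n : ℕ) (s : Src G), 0 < n ∧
    Kg π (n • x) = Kg π (asm G s)

/-- The image of `K_{-1}(ℤ[G])` in `K_{-1}(ℤ[Q])` is a torsion group. -/
def TorsImage {G : Type u} [Group G] {Q : Type v} [Group Q] (π : G →* Q) : Prop :=
  ∀ x : KNegOne (MonoidAlgebra ℤ G), ∃ n : ℕ, 0 < n ∧ n • Kg π x = 0

/-- `F` has positive characteristic or the unipotent elements of `G ≤ GL_n F` have finite order. -/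
def TorsUnip {F : Type u} [Field F] {n : ℕ} (G : Subgroup (GL (Fin n) F)) : Prop :=
  (∃ p : ℕ, p ≠ 0 ∧ CharP F p) ∨
    ∀ g ∈ G, IsNilpotent ((g : Matrix (Fin n) (Fin n) F) - 1) → IsOfFinOrder g

/-- `ℋ` is an invariant set of subsets of `V`; for all points `x, y` only finitely many `h ∈ ℋ` contain
`x` and not `y`, and for each `g` of infinite order some `h ∈ ℋ` contains `g ^ (-i) x` and not `g ^ i x`,
for some `x` and all large `i`. -/
def Walls (G V : Type u) [Group G] [MulAction G V] (ℋ : Set (Set V)) : Prop :=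
  (∀ g : G, ∀ h ∈ ℋ, (fun x => g • x) '' h ∈ ℋ) ∧
  (∀ x y : V, {h ∈ ℋ | x ∈ h ∧ y ∉ h}.Finite) ∧
  (∀ g : G, ¬IsOfFinOrder g → ∃ h ∈ ℋ, ∃ (x : V) (n : ℕ), ∀ i : ℕ, n ≤ i →
    (g⁻¹) ^ i • x ∈ h ∧ g ^ i • x ∉ h)

theorem n_inj (G : Type u) [Group G] : InjRat G := all_ZIN G

theorem n_surj {G : Type u} {Q : Type v} [Group G] [Group Q] [Finite Q] (π : G →* Q)
    (hπ : LZ π) : SurjSeen π := by
  intro x
  obtain ⟨n, s, hn, hs⟩ := all_FIN2 π hπ x
  exact ⟨n, s, hn, by rw [map_nsmul]; exact hs⟩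

theorem n_tors {G : Type u} {Q : Type v} [Group G] [Group Q] [Finite Q] (π : G →* Q)
    (hπ : LZ π) (htf : ∀ g : G, IsOfFinOrder g → g = 1) : TorsImage π :=
  fun x => all_TOR π (fun g hg h => hg (htf g h)) hπ x

theorem n_linear {F : Type u} [Field F] {n : ℕ} (G : Subgroup (GL (Fin n) F)) (h : TorsUnip G)
    {Q : Type v} [Group Q] (π : G →* Q) : LZ π := by
  rcases h with ⟨p, hp0, hp⟩ | h
  · have : Fact p.Prime := ⟨(CharP.char_is_prime_or_zero F p).resolve_right hp0⟩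
    exact lz_linear_char F p n G π
  · exact lz_linear F n G h π

theorem n_walls (G V : Type u) [Group G] [MulAction G V] (ℋ : Set (Set V)) (h0 : Nonempty V)
    (h : Walls G V ℋ) {Q : Type v} [Group Q] (π : G →* Q) : LZ π :=
  lz_walls G V ℋ h0 h.1 h.2.1 h.2.2 π

end Pool.Agent.SM1
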