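import Pool.Agent.SM1.St2

/-!
# MP_e40716_gt (T1), module FIN: the theorem
-/

set_option autoImplicit false
set_option linter.unusedSectionVars false

open Matrix Pool.Agent.Lib25 Pool.Agent.KM

noncomputable section

namespace Pool.Agent.SM1

universe u v w

theorem FIN.finImg_le {G : Type u} [Group G] {Q : Type v} [Group Q] (π : G →* Q)
    (G1 : Subgroup G) : finImg (π.comp G1.subtype) ≤ finImg π := by
  refine iSup_le fun H => ?_
  have hfin : Finite (H.1.map G1.subtype) := by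
    have := H.2
    exact Finite.of_surjective (fun h : H.1 => (⟨G1.subtype h, Subgroup.mem_map_of_mem _ h.2⟩ :
      (H.1.map G1.subtype))) (by
        rintro ⟨y, h, hh, rfl⟩
        exact ⟨⟨h, hh⟩, rfl⟩)
  have e : (H.1.map G1.subtype).map π = H.1.map (π.comp G1.subtype) := Subgroup.map_map _ _ _
  rw [← e]
  exact le_iSup (fun H : {H : Subgroup G // Finite H} => (Kg (H.1.map π).subtype).range)
    ⟨H.1.map G1.subtype, hfin⟩

theorem t_FIN (hFNL : S_FNL.{u, v}) (hCOL : S_COL.{u}) : S_FIN.{u, v} := by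
  intro G _ Q _ _ π hLZ x
  obtain ⟨G0, hG0, h⟩ := hCOL x
  obtain ⟨G1, hle, hZ⟩ := hLZ G0 hG0
  obtain ⟨x1, hx1⟩ := h G1 hle
  obtain ⟨n, hn, hmem⟩ := hFNL (π.comp G1.subtype) hZ x1
  refine ⟨n, hn, FIN.finImg_le π G1 ?_⟩
  rw [← hx1]
  convert hmem using 2
  exact Kg_comp _ _ _

end Pool.Agent.SM1
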