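import Pool.Agent.SM1.St2
import Pool.Agent.KM.P_TAV
import Pool.Agent.KM.P_ZAD

/-!
# SM1_GEN: functionals on `K_{-1}(ℤ[Q])` in terms of the universal classes, and generation
-/

set_option autoImplicit false
set_option linter.unusedSectionVars false

open Matrix Pool.Agent.Lib25 Pool.Agent.KM

noncomputable section

namespace Pool.Agent.SM1

universe v

namespace GEN

/-- A functional which vanishes on a subgroup and not at an element. -/
theorem exists_sep {K : Type v} [AddCommGroup K] (S : AddSubgroup K) (z : K)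
    (h : ∀ m : ℕ, 0 < m → m • z ∉ S) : ∃ l : K →+ ℚ, (∀ y ∈ S, l y = 0) ∧ l z = 1 := by
  obtain ⟨F, hF⟩ := exists_functional (A := K ⧸ S) (J := Unit)
    (fun _ => QuotientAddGroup.mk' S z) (fun _ => 1) (by
      intro c hc
      have h0 : c.sum (fun (_ : Unit) (m : ℤ) => m • QuotientAddGroup.mk' S z) =
          c () • QuotientAddGroup.mk' S z := by
        refine (Finsupp.sum_fintype c (fun (_ : Unit) (m : ℤ) => m • QuotientAddGroup.mk' S z)
          fun _ => zero_smul ℤ _).trans ?_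
        exact Fintype.sum_unique _
      have h0' : c.sum (fun (_ : Unit) (m : ℤ) => (m : ℚ) * 1) = ((c () : ℤ) : ℚ) := by
        refine (Finsupp.sum_fintype c (fun (_ : Unit) (m : ℤ) => (m : ℚ) * 1)
          fun _ => by rw [Int.cast_zero, zero_mul]).trans ?_
        refine (Fintype.sum_unique _).trans ?_
        exact mul_one _
      rw [h0, ← map_zsmul] at hc
      rw [h0']
      have h1 : c () • z ∈ S := (QuotientAddGroup.eq_zero_iff _).1 hc
      have h2 : c () = 0 := by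
        by_contra h3
        refine h (c ()).natAbs (Int.natAbs_pos.2 h3) ?_
        rcases Int.natAbs_eq (c ()) with h4 | h4
        · rw [h4, natCast_zsmul] at h1
          exact h1
        · rw [h4, neg_smul, natCast_zsmul] at h1
          exact neg_mem_iff.1 h1
      rw [h2, Int.cast_zero])
  refine ⟨F.comp (QuotientAddGroup.mk' S), fun y hy => ?_, hF ()⟩
  have h1 : QuotientAddGroup.mk' S y = 0 := (QuotientAddGroup.eq_zero_iff y).2 hy
  rw [AddMonoidHom.comp_apply, h1, map_zero]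

end GEN

open GEN TAV in
/-- GEN: functionals and generation. -/
theorem t_GEN (hTKA : S_TKA.{v}) (hTRL : S_TRL.{v}) (hTFI : S_TFI.{v}) (hZAD : S_ZAD.{v}) :
    S_GEN.{v} := by
  have hex : ∀ n : ℕ, ∃ (N : ℕ)
      (x : ℕ → K0 (LaurentPolynomial (MonoidAlgebra ℤ (Multiplicative (ZMod n))))), 0 < N ∧
      ∀ [NeZero n], LocN.{v} n N x := by
    intro n
    by_cases h : n = 0
    · exact ⟨1, 0, one_pos, fun {inst} => absurd h inst.ne⟩
    · have : NeZero n := ⟨h⟩
      obtain ⟨N, x, hN, hx⟩ := hTKA n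
      exact ⟨N, x, hN, fun {_} => hx⟩
  choose N x hN hx using hex
  set κ0 : ∀ N : ℕ, ℕ → KNegOne (MonoidAlgebra ℤ (Multiplicative (ZMod N))) :=
    fun n p => KNegOne.mk (x n p) with hκ0
  -- functionals for groups in `Type v`
  have hfun : ∀ (G : Type v) [Group G] (L : ℕ → G → ℚ), AdmM L →
      ∃ F : KNegOne (MonoidAlgebra ℤ G) →+ ℚ,
      ∀ (N : ℕ), 0 < N → ∀ p : ℕ, p.Prime → p ∣ N → ∀ φ : Multiplicative (ZMod N) →* G,
      Function.Injective φ → F (Kg φ (κ0 N p)) = L p (φ (gn N)) := by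
    intro G _ L hL
    obtain ⟨F, hF⟩ := exists_functional (J := IdxM G)
      (fun j => Kg j.φ (KNegOne.mk (x j.n j.p))) (fun j => L j.p (j.φ (gn j.n)))
      (fun c hc => hTRL N x (fun n _ => hN n) (fun n _ => hx n) L hL c hc)
    exact ⟨F, fun n hn p hp hpn φ hφ => hF ⟨n, p, hn, hp, hpn, φ, hφ⟩⟩
  -- functionals for groups in `Type`
  have hfun0 : ∀ (G : Type) [Group G] (L : ℕ → G → ℚ), AdmM L →
      ∃ F : KNegOne (MonoidAlgebra ℤ G) →+ ℚ,
      ∀ (N : ℕ), 0 < N → ∀ p : ℕ, p.Prime → p ∣ N → ∀ φ : Multiplicative (ZMod N) →* G,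
      Function.Injective φ → F (Kg φ (κ0 N p)) = L p (φ (gn N)) := by
    intro G _ L hL
    obtain ⟨F, hF⟩ := hfun (ULift.{v} G) _ (admM_ulift.{v} hL)
    refine ⟨F.comp (Kg (ulE.{v} G).symm.toMonoidHom),
      fun n hn p hp hpn φ hφ => ?_⟩
    rw [AddMonoidHom.comp_apply, Kg_comp]
    have h1 := hF n hn p hp hpn ((ulE.{v} G).symm.toMonoidHom.comp φ)
      ((ulE.{v} G).symm.injective.comp hφ)
    rw [h1]
    rfl
  have hω : ∀ n, 1 < n → omg n ≠ 0 := by
    intro n hn
    have : NeZero n := ⟨by omega⟩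
    rw [omg_eq]
    exact_mod_cast (om_pos hn).ne'
  have hk1 : ∀ (n : ℕ) [NeZero n], 1 < n → ∀ p : ℕ, p.Prime → p ∣ n → ∀ w : (ZMod n)ˣ,
      uR n p w 1 → Kg (pwr n w) (TAV.kap κ0 n p) = TAV.kap κ0 n p := by
    intro n _ hn p _ _ w hw
    rw [kap_eq]
    exact tw_kap3 (κ0 n) p w hw
  have hk2 : ∀ (n : ℕ) [NeZero n], 1 < n → ∑ q ∈ n.primeFactors, ∑ w : (ZMod n)ˣ,
      Kg (pwr n w) (TAV.kap κ0 n q) = 0 := by
    intro n _ hn
    simp only [kap_eq]
    exact sum_kap3 (κ0 n)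
  have hdet0 : ∀ (G : Type) [Group G], DetG (TAV.kap κ0) omg G := fun G _ => detG κ0 (hfun0 G)
  intro Q _ _
  -- the admissible function of a functional
  have key : ∀ l : KNegOne (MonoidAlgebra ℤ Q) →+ ℚ, ∃ L : ℕ → Q → ℚ, AdmM L ∧
      (∀ j : IdxM Q, l (Kg j.φ (KNegOne.mk (x j.n j.p))) = L j.p (j.φ (gn j.n))) ∧
      ∀ M : ℕ, 1 < M → ∀ p : ℕ, p.Prime → p ∣ M → ∀ φ : Multiplicative (ZMod M) →* Q,
        Function.Injective φ → l (Kg φ (TAV.kap κ0 M p)) = omg M * L p (φ (gn M)) := by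
    intro l
    obtain ⟨L, hL, hLΛ⟩ := hZAD (TAV.kap κ0) omg hω hk1 hk2 (l.comp (asm Q))
    have hc : ∀ M : ℕ, 1 < M → ∀ p : ℕ, p.Prime → p ∣ M → ∀ φ : Multiplicative (ZMod M) →* Q,
        Function.Injective φ → l (Kg φ (TAV.kap κ0 M p)) = omg M * L p (φ (gn M)) := by
      intro M hM p hp hpM φ hφ
      have : NeZero M := ⟨by omega⟩
      rw [hLΛ M hM p hp hpM φ hφ, AddMonoidHom.comp_apply, asm_scl]
    obtain ⟨F, hF⟩ := hfun Q L hL
    have hFc : ∀ M : ℕ, 1 < M → ∀ p : ℕ, p.Prime → p ∣ M →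
        ∀ φ : Multiplicative (ZMod M) →* Q,
        Function.Injective φ → F (Kg φ (TAV.kap κ0 M p)) = omg M * L p (φ (gn M)) := by
      intro M hM p hp hpM φ hφ
      have : NeZero M := ⟨by omega⟩
      rw [kap_eq, omg_eq]
      exact functional_kap3 (κ0 M) L hL F
        (fun p φ hp hpn hφ => hF M (by omega) p hp hpn φ hφ) p
        (Nat.mem_primeFactors.2 ⟨hp, hpM, NeZero.ne M⟩) φ hφ
    have hlF : l - F = 0 := by
      refine hTFI (TAV.kap κ0) omg hω hdet0 Q (l - F) fun M hM p hp hpM φ hφ => ?_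
      rw [AddMonoidHom.sub_apply, hc M hM p hp hpM φ hφ, hFc M hM p hp hpM φ hφ, sub_self]
    have hlF' : l = F := sub_eq_zero.1 hlF
    refine ⟨L, hL, fun j => ?_, hc⟩
    rw [hlF']
    exact hF j.n j.hn j.p j.hp j.hpn j.φ j.inj
  refine ⟨N, x, fun n _ => hN n, fun n _ => hx n, fun l => ?_, fun z => ?_⟩
  · obtain ⟨L, hL, hj, -⟩ := key l
    refine ⟨L, hL, hj, fun h hy p hp => ?_⟩
    have hn : 0 < orderOf h := orderOf_pos h
    have : NeZero (orderOf h) := ⟨by omega⟩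
    have hord : orderOf (⟨h, Subgroup.mem_zpowers h⟩ : Subgroup.zpowers h) = orderOf h := by
      rw [← Subgroup.orderOf_coe]
    have hpow : (⟨h, Subgroup.mem_zpowers h⟩ : Subgroup.zpowers h) ^ orderOf h = 1 := by
      rw [← hord]
      exact pow_orderOf_eq_one _
    have hinj := ZAD.hmg_inj hord hpow
    have h1 := hj ⟨orderOf h, p, hn, Nat.prime_of_mem_primeFactors hp,
      Nat.dvd_of_mem_primeFactors hp, (Subgroup.zpowers h).subtype.comp
        (ZAD.hmg (orderOf h) ⟨h, Subgroup.mem_zpowers h⟩ hpow),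
      (Subgroup.zpowers h).subtype_injective.comp hinj⟩
    have h2 : ((Subgroup.zpowers h).subtype.comp
        (ZAD.hmg (orderOf h) ⟨h, Subgroup.mem_zpowers h⟩ hpow)) (gn (orderOf h)) = h := by
      rw [MonoidHom.comp_apply, ZAD.hmg_gn]
      rfl
    change l (Kg ((Subgroup.zpowers h).subtype.comp
      (ZAD.hmg (orderOf h) ⟨h, Subgroup.mem_zpowers h⟩ hpow)) (KNegOne.mk (x (orderOf h) p))) =
      L p (((Subgroup.zpowers h).subtype.comp
        (ZAD.hmg (orderOf h) ⟨h, Subgroup.mem_zpowers h⟩ hpow)) (gn (orderOf h))) at h1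
    rw [h2, ← Kg_comp, hy] at h1
    exact h1.symm
  · by_contra hcon
    set a : IdxM Q → KNegOne (MonoidAlgebra ℤ Q) :=
      fun j => Kg j.φ (KNegOne.mk (x j.n j.p)) with ha
    obtain ⟨l, hl0, hl1⟩ := exists_sep
      (LinearMap.range (Finsupp.linearCombination ℤ a)).toAddSubgroup z (by
        intro m hm hmem
        apply hcon
        obtain ⟨c, hc⟩ := hmem
        refine ⟨m, hm, c, ?_⟩
        rw [← hc, Finsupp.linearCombination_apply])
    obtain ⟨L, -, hj, hc⟩ := key l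
    have hl : l = 0 := by
      refine hTFI (TAV.kap κ0) omg hω hdet0 Q l fun M hM p hp hpM φ hφ => ?_
      have h1 := hj ⟨M, p, by omega, hp, hpM, φ, hφ⟩
      change l (Kg φ (KNegOne.mk (x M p))) = L p (φ (gn M)) at h1
      rw [hl0 (Kg φ (KNegOne.mk (x M p))) ⟨Finsupp.single ⟨M, p, by omega, hp, hpM, φ, hφ⟩ 1, by
        rw [Finsupp.linearCombination_single, one_smul]⟩] at h1
      rw [hc M hM p hp hpM φ hφ, ← h1, mul_zero]
    rw [hl] at hl1
    exact zero_ne_one hl1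

end Pool.Agent.SM1
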