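import Pool.Agent.SM1.St2

/-!
# MP_e40716_gt (T1): module R1C

The weight identity for `rg`: proof of `S_R1C`.
-/

set_option autoImplicit false
set_option linter.unusedSectionVars false

open Matrix Pool.Agent.Lib25 Pool.Agent.KM

noncomputable section

namespace Pool.Agent.SM1

universe u v w

namespace R1C

variable {G : Type u} [Group G]

/-- Compatibility of the bilinear forms with a change of the group and of the coefficients. -/
theorem WL_compat {H : Type v} [Group H] (n : ℕ) (φ : G →* H) (W1 : G → G → ℤ) (W2 : H → H → ℤ)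
    (hW : ∀ x y, W2 (φ x) (φ y) = W1 x y) (x y : LG ℤ G) :
    WL (fun a b => (W2 a b : ZMod n)) (mapL (cgm (RingHom.id (ZMod n)) φ) (mapL (red n G) x))
      (mapL (cgm (RingHom.id (ZMod n)) φ) (mapL (red n G) y)) = ((WL W1 x y : ℤ) : ZMod n) := by
  induction x using AddMonoidAlgebra.induction_linear with
  | zero => simp
  | add a b ha hb =>
    simp only [map_add, AddMonoidHom.add_apply, ha, hb, Int.cast_add]
  | single k a =>
    induction y using AddMonoidAlgebra.induction_linear with
    | zero => simp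
    | add a b ha hb => simp only [map_add, ha, hb, Int.cast_add]
    | single l b =>
      rw [mapL_single, mapL_single, mapL_single, mapL_single, WL_single, WL_single]
      by_cases h : k + l = 0
      · rw [if_pos h, if_pos h]
        induction a using MonoidAlgebra.induction_linear with
        | zero => simp
        | add a b ha hb => simp only [map_add, AddMonoidHom.add_apply, ha, hb, Int.cast_add]
        | single g r =>
          induction b using MonoidAlgebra.induction_linear with
          | zero => simp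
          | add a b ha hb => simp only [map_add, ha, hb, Int.cast_add]
          | single g' s =>
            unfold red
            rw [cgm_single, cgm_single, cgm_single, cgm_single, WG_single, WG_single]
            simp [hW]
      · rw [if_neg h, if_neg h, Int.cast_zero]

/-- The form of the zero function vanishes. -/
theorem WL_zero' (x y : LG ℤ G) : WL (fun _ _ : G => (0 : ℤ)) x y = 0 := by
  induction x using AddMonoidAlgebra.induction_linear with
  | zero => simp
  | add a b ha hb =>
    simp only [map_add, AddMonoidHom.add_apply, ha, hb, add_zero]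
  | single k a =>
    induction y using AddMonoidAlgebra.induction_linear with
    | zero => simp
    | add a b ha hb => simp only [map_add, ha, hb, add_zero]
    | single l b =>
      rw [WL_single]
      by_cases h : k + l = 0
      · rw [if_pos h]
        induction a using MonoidAlgebra.induction_linear with
        | zero => simp
        | add a b ha hb => simp only [map_add, AddMonoidHom.add_apply, ha, hb, add_zero]
        | single g r =>
          induction b using MonoidAlgebra.induction_linear with
          | zero => simp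
          | add a b ha hb => simp only [map_add, ha, hb, add_zero]
          | single g' s =>
            rw [WG_single, mul_zero]
      · rw [if_neg h]

open scoped Classical in
/-- The weight on `G × C_p`. -/
def W' {p : ℕ} (q : G →* Cy p) (g : G) (W : G → G → ℤ) (x y : G × Cy p) : ℤ :=
  if x.2 * y.2 = q g then W x.1 y.1 else 0

theorem isConj_prod {p : ℕ} (q : G →* Cy p) (g : G) (x : G × Cy p) :
    IsConj x (g, q g) ↔ IsConj x.1 g ∧ x.2 = q g := by
  rw [isConj_iff, isConj_iff]
  constructor
  · rintro ⟨c, hc⟩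
    have h1 : c.1 * x.1 * c.1⁻¹ = g := congrArg Prod.fst hc
    have h2 : c.2 * x.2 * c.2⁻¹ = q g := congrArg Prod.snd hc
    refine ⟨⟨c.1, h1⟩, ?_⟩
    rw [← h2, mul_comm c.2 x.2, mul_inv_cancel_right]
  · rintro ⟨⟨c, hc⟩, h2⟩
    refine ⟨(c, 1), Prod.ext hc ?_⟩
    change (1 : Cy p) * x.2 * (1 : Cy p)⁻¹ = q g
    rw [one_mul, inv_one, mul_one, h2]

theorem isWt_W' {p : ℕ} (q : G →* Cy p) (g : G) (v : ℤ) (W : G → G → ℤ) (hW : IsWt g v W) :
    IsWt (g, q g) v (W' q g W) := by
  refine ⟨fun x y z => ?_, fun x y h => ?_, fun x y h => ?_⟩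
  · unfold W'
    simp only [Prod.snd_mul, Prod.fst_mul]
    have e1 : x.2 * (y.2 * z.2) = x.2 * y.2 * z.2 := (mul_assoc _ _ _).symm
    have e2 : z.2 * x.2 * y.2 = x.2 * y.2 * z.2 := by
      rw [mul_assoc, mul_comm]
    rw [e1, e2]
    by_cases h : x.2 * y.2 * z.2 = q g
    · rw [if_pos h, if_pos h, if_pos h]
      exact hW.cyc _ _ _
    · rw [if_neg h, if_neg h, if_neg h, add_zero]
  · obtain ⟨h1, h2⟩ := (isConj_prod q g (x * y)).1 h
    have h3 : x.2 * y.2 = q g := h2
    have h4 : y.2 * x.2 = q g := by rw [mul_comm]; exact h3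
    unfold W'
    rw [if_pos h3, if_pos h4]
    exact hW.sym _ _ h1
  · unfold W'
    by_cases h3 : x.2 * y.2 = q g
    · rw [if_pos h3]
      refine hW.off _ _ fun h1 => h ?_
      exact (isConj_prod q g (x * y)).2 ⟨h1, h3⟩
    · rw [if_neg h3]

theorem q_isConj {p : ℕ} (q : G →* Cy p) (g x : G) (h : IsConj x g) : q x = q g := by
  obtain ⟨c, hc⟩ := isConj_iff.1 h
  rw [← hc, map_mul, map_mul, map_inv, mul_comm (q c) (q x), mul_inv_cancel_right]

theorem W'_one {p : ℕ} (q : G →* Cy p) (g : G) (v : ℤ) (W : G → G → ℤ) (hW : IsWt g v W) (x y : G) :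
    W' q g W (((MonoidHom.id G).prod q) x) (((MonoidHom.id G).prod q) y) = W x y := by
  unfold W'
  simp only [MonoidHom.prod_apply, MonoidHom.id_apply]
  by_cases h : q x * q y = q g
  · rw [if_pos h]
  · rw [if_neg h]
    refine (hW.off x y fun h1 => h ?_).symm
    rw [← map_mul]
    exact q_isConj q g _ h1

theorem W'_zero {p : ℕ} (q : G →* Cy p) (g : G) (W : G → G → ℤ) (hq : q g ≠ 1) (x y : G) :
    W' q g W (MonoidHom.inl G (Cy p) x) (MonoidHom.inl G (Cy p) y) = 0 := by
  unfold W'
  rw [if_neg]
  intro h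
  apply hq
  rw [← h]
  exact one_mul (1 : Cy p)

variable {ι : Type w} [Fintype ι] [DecidableEq ι]

theorem map_comm (n : ℕ) {H : Type v} [Group H] (φ : G →* H) (E : Matrix ι ι (LG ℤ G)) :
    ((rd n E).map (mapL (cgm (RingHom.id (ZMod n)) φ))).map DL *
        ((rd n E).map (mapL (cgm (RingHom.id (ZMod n)) φ))) -
      ((rd n E).map (mapL (cgm (RingHom.id (ZMod n)) φ))) *
        ((rd n E).map (mapL (cgm (RingHom.id (ZMod n)) φ))).map DL =
      ((E.map DL * E - E * E.map DL).map (mapL (red n G))).map
        (mapL (cgm (RingHom.id (ZMod n)) φ)) := by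
  have h1 : ((rd n E).map (mapL (cgm (RingHom.id (ZMod n)) φ))).map DL =
      ((E.map DL).map (mapL (red n G))).map (mapL (cgm (RingHom.id (ZMod n)) φ)) := by
    ext1 i j
    simp only [Matrix.map_apply, DL_mapL]
  rw [h1]
  have h2 : ∀ X Y : Matrix ι ι (LG ℤ G),
      (X.map (mapL (red n G))).map (mapL (cgm (RingHom.id (ZMod n)) φ)) *
        (Y.map (mapL (red n G))).map (mapL (cgm (RingHom.id (ZMod n)) φ)) =
      ((X * Y).map (mapL (red n G))).map (mapL (cgm (RingHom.id (ZMod n)) φ)) := by
    intro X Y
    rw [Matrix.map_mul, Matrix.map_mul]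
  rw [h2, h2]
  ext1 i j
  simp only [Matrix.map_apply, Matrix.sub_apply, map_sub]

end R1C

open R1C in
theorem t_R1C (hABT : S_ABT.{max u w, 0}) (hWLP : S_WLP.{u, w}) (hUNI : S_UNI.{u, w}) :
    S_R1C.{u, w} := by
  intro G _ p K hp q g v W hW hq ι _ _ E hE
  obtain ⟨B, hB, hcyc, hDB, hB1⟩ := hWLP (A := ZMod (p ^ K)) (G := G × Cy p) (g, q g) v (W' q g W)
    (isWt_W' q g v W hW) (ι := ι)
  set e : Matrix ι ι (LG (ZMod (p ^ K)) G) := rd (p ^ K) E with he
  have hee : e * e = e := by
    rw [he]
    change E.map _ * E.map _ = E.map _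
    rw [← Matrix.map_mul, hE]
  obtain ⟨-, hu1, hu2, hu3, -⟩ := hUNI (K := K) hp q e hee
  have hE0 : E0 p e * E0 p e = E0 p e := by
    change e.map _ * e.map _ = e.map _
    rw [← Matrix.map_mul, hee]
  have hconj : th q e * E0 p e * Ring.inverse (th q e) = E1 q e := by
    rw [← hu3, mul_assoc, hu1, mul_one]
  have key := hABT (AddMonoidHom.mapMatrix DL) B (fun x y => map_DL_mul x y) hcyc hDB (E0 p e)
    (th q e) (Ring.inverse (th q e)) hE0 hu1 hu2
  rw [hconj] at key
  simp only [AddMonoidHom.mapMatrix_apply] at key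
  rw [hB1, hB, hB] at key
  have hrg : rg q e g = tauL (g, q g) (Matrix.trace (E0 p e * Ring.inverse (th q e) *
    (th q e).map DL)) := rfl
  rw [hrg, key]
  have t1 : ((E1 q e).map DL * E1 q e - E1 q e * (E1 q e).map DL) =
      ((E.map DL * E - E * E.map DL).map (mapL (red (p ^ K) G))).map
        (mapL (cgm (RingHom.id (ZMod (p ^ K))) ((MonoidHom.id G).prod q))) := map_comm (p ^ K) _ E
  have t0 : ((E0 p e).map DL * E0 p e - E0 p e * (E0 p e).map DL) =
      ((E.map DL * E - E * E.map DL).map (mapL (red (p ^ K) G))).map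
        (mapL (cgm (RingHom.id (ZMod (p ^ K))) (MonoidHom.inl G (Cy p)))) := map_comm (p ^ K) _ E
  rw [t1, t0]
  have s1 : ∀ i j, WL (fun x y => ((W' q g W x y : ℤ) : ZMod (p ^ K)))
      ((((E.map DL * E - E * E.map DL).map (mapL (red (p ^ K) G))).map
        (mapL (cgm (RingHom.id (ZMod (p ^ K))) ((MonoidHom.id G).prod q)))) i j) (E1 q e j i) =
      ((WL W ((E.map DL * E - E * E.map DL) i j) (E j i) : ℤ) : ZMod (p ^ K)) := fun i j =>
    WL_compat (p ^ K) ((MonoidHom.id G).prod q) W (W' q g W) (W'_one q g v W hW) _ _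
  have s0 : ∀ i j, WL (fun x y => ((W' q g W x y : ℤ) : ZMod (p ^ K)))
      ((((E.map DL * E - E * E.map DL).map (mapL (red (p ^ K) G))).map
        (mapL (cgm (RingHom.id (ZMod (p ^ K))) (MonoidHom.inl G (Cy p))))) i j) (E0 p e j i) =
      0 := fun i j => by
    have := WL_compat (p ^ K) (MonoidHom.inl G (Cy p)) (fun _ _ => (0 : ℤ)) (W' q g W)
      (W'_zero q g W hq) ((E.map DL * E - E * E.map DL) i j) (E j i)
    rw [WL_zero', Int.cast_zero] at this
    exact this
  rw [Finset.sum_congr rfl fun i _ => Finset.sum_congr rfl fun j _ => s1 i j,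
    Finset.sum_congr rfl fun i _ => Finset.sum_congr rfl fun j _ => s0 i j]
  unfold kap
  push_cast
  simp

end Pool.Agent.SM1
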