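import Pool.Agent.SM1.Defs

/-!
# MP_e40716_gt (T1): surjectivity in degree `-1` seen in finite quotients: statements

Module `X` proves `theorem t_X (h : S_Y) ... : S_X` in `Pool/Agent/SM1/P_X.lean`, namespace
`Pool.Agent.SM1`; the hypotheses are the statements named in the doc string, nothing else.
All the definitions are in `Defs.lean`. `E0 p e`, `E1 q e` are `e.map (mapL (i0 ..))`,
`e.map (mapL (i1 ..))`; `th q e = E1 E0 + (1 - E1)(1 - E0)`; `OM q e = tr(E0 th⁻¹ DL th)`;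
`rg q e g = tauL (g, q g) (OM q e)`.
Library: `Lib_helper25/Traces.lean` (`tau`, `tauL`, `tauL_mul_comm`, `DL`, `DL_mul`, `map_DL_mul`,
`DL_mapL`, `coeffZero`, `trace_comm_of_tracial`), `Lib_helper25/KDefs.lean` (`K0`, `KNegOne`, `MvN`,
`mapL`, `posIncl`, `negIncl`), `KM/Defs.lean` (`cl`, `ngo`, `cl_eq_iff`), `KM/ADefs.lean` (`blow`,
`lau`, `K0m`, `Kn`, `ngo_congr`, `ngo_blocks`, `Kn_ngo`), `KM/ZDefs.lean` (`grm`, `Kg`).
-/

set_option autoImplicit false
set_option linter.unusedSectionVars false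

open Matrix Pool.Agent.Lib25 Pool.Agent.KM

noncomputable section

namespace Pool.Agent.SM1

universe u v w

/-- DIV (150 lines). The matrices divisible by `uu`.

PROOF. `uu` is central in `LG A (G × C_p)` (it commutes with every `single n (single x a)`: the
element `(1, c)` is central in `G × C_p`). So `DivU` is stable under sums and products. Difference:
for `z = single n (single g a)`: `mapL i1 z - mapL i0 z = single n (single (g, q g) a - single (g, 1) a)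
= uu * (single n (single (g,1) a) * ∑_{i<j} (1,c)^i)` with `q g = c ^ j`; then by additivity (`choose`
for every entry). Nilpotent: `uu ^ p = p * y`, `y` commuting with `uu` (`Commute.add_pow_prime_eq` or
`exists_add_pow_prime_eq` for `(1,c)` and `-1`; `(1,c)^p = 1`; `(-1)^p = -1` or `p = 2`), so
`uu ^ (p K) = p ^ K * y ^ K = 0` as `(p ^ K : ZMod (p ^ K)) = 0`; and `(uu y')^m = uu ^ m y'^m` for
matrices (`uu` central: `x = (uu • 1) * y'`). -/
def S_DIV : Prop :=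
  (∀ {A : Type} [CommRing A] {G : Type u} [Group G] {p : ℕ} {ι κ l : Type w} [Fintype ι] [Fintype κ]
    [Fintype l] (x : Matrix ι κ (LG A (G × Cy p))) (y : Matrix κ l (LG A (G × Cy p))),
    (DivU x → DivU (x * y)) ∧ (DivU y → DivU (x * y))) ∧
  (∀ {A : Type} [CommRing A] {G : Type u} [Group G] {p : ℕ} {ι κ : Type w} [Fintype ι] [Fintype κ]
    (x y : Matrix ι κ (LG A (G × Cy p))), DivU x → DivU y → DivU (x + y) ∧ DivU (x - y)) ∧
  (∀ {A : Type} [CommRing A] {G : Type u} [Group G] {p : ℕ} [NeZero p] (q : G →* Cy p) {ι κ : Type w}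
    [Fintype ι] [Fintype κ] (z : Matrix ι κ (LG A G)), DivU (E1 q z - E0 p z)) ∧
  (∀ {G : Type u} [Group G] {p K : ℕ}, p.Prime → ∀ {ι : Type w} [Fintype ι] [DecidableEq ι]
    (x : Matrix ι ι (LG (ZMod (p ^ K)) (G × Cy p))), DivU x → IsNilpotent x)

/-- UNI (80 lines; hypothesis `S_DIV.{u, w}`). `θ` is invertible and conjugates `e₀` into `e₁`.

PROOF. `θ = 1 + (e₁ - e₀)(2 e₀ - 1)` (idempotents), so `θ - 1` is divisible by `uu` and nilpotent:
`IsUnit θ` (`IsNilpotent.isUnit_one_add`). `e₁ θ = e₁ e₀ = θ e₀`. -/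
def S_UNI : Prop := ∀ {G : Type u} [Group G] {p K : ℕ}, p.Prime → ∀ (q : G →* Cy p) {ι : Type w}
  [Fintype ι] [DecidableEq ι] (e : Matrix ι ι (LG (ZMod (p ^ K)) G)), e * e = e →
  DivU (th q e - 1) ∧ th q e * Ring.inverse (th q e) = 1 ∧ Ring.inverse (th q e) * th q e = 1 ∧
  E1 q e * th q e = th q e * E0 p e ∧ DivU (Ring.inverse (th q e) - 1)

/-- LOG (90 lines; no hypotheses).

PROOF. `c' = ∑_{i<m} x^i` (`x ^ m = 0`; inverses are unique), `(1 - x).map DL = - x.map DL`, so it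
suffices that `tauL γ (tr (x^i * x.map DL)) = 0` for all `i`. Lift `x` to a matrix `X` over `LG ℤ Γ`
(`LG ℤ Γ → LG (ZMod n) Γ` is surjective: choose preimages of the entries; `mapL (cgm (Int.castRingHom _) id)`;
`tauL_mapL`). Over `ℤ`: `tr ((X^(i+1)).map DL) = ∑_j tr (X^j * X.map DL * X^(i-j))`, so
`(i + 1) * tauL γ (tr (X^i * X.map DL)) = tauL γ (DL (tr X^(i+1))) = 0` (`coeffZero (DL y) = 0`), and
`ℤ` has no torsion. -/
def S_LOG : Prop := ∀ {n : ℕ} {Γ : Type u} [Group Γ] {ι : Type w} [Fintype ι] [DecidableEq ι]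
  (x c' : Matrix ι ι (LG (ZMod n) Γ)), IsNilpotent x → (1 - x) * c' = 1 → ∀ γ : Γ,
  tauL γ (Matrix.trace (c' * (1 - x).map DL)) = 0

/-- CMP (200 lines; hypotheses `S_DIV.{u, w}`, `S_UNI.{u, w}`, `S_LOG.{u, w}`). Equivalent idempotents.

PROOF. `α e' = α` (`α β α`), `e' β = β` follow from `e α = α`, `β e = β`.
Images: `α₀, α₁, β₀, β₁` under `i0`, `i1`; `θ, θ'` for `e, e'`.
`c₀ = β₁ θ α₀ θ'⁻¹`, `c₀' = θ' β₀ θ⁻¹ α₁`: `c₀ c₀' = e'₁ = c₀' c₀`, `e'₁ c₀ = c₀ = c₀ e'₁` (same for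
`c₀'`). `c = c₀ + (1 - e'₁)`, `c' = c₀' + (1 - e'₁)`: `c c' = 1`; `c = 1 - x` with `x` divisible by `uu`
(`c₀ - β₀ α₀` is: all of `β₁ - β₀`, `θ - 1`, `θ'⁻¹ - 1` are; `β₀ α₀ = e'₀`), nilpotent. `S_LOG`:
`tauL γ (tr (c' Dc)) = 0`. `tr (c' Dc) = tr (c₀' Dc₀)` for the tracial functional (use
`tr(X Y) = tr(Y X)` under `tauL γ`; `e De e = 0`), and
`tr(c₀' Dc₀) = tr(α₁ Dβ₁) + tr(e₀ θ⁻¹ Dθ) + tr(β₀ Dα₀) - tr(e'₀ θ'⁻¹ Dθ')` (four terms of the product
rule; `D(θ'⁻¹) = - θ'⁻¹ Dθ' θ'⁻¹`). At `γ = (g, q g)`, `q g ≠ 1`: the third term is in the image of `i0`: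
`tauL γ (mapL i0 z) = 0`; the first: `tauL (g, q g) (mapL i1 z) = tauL g z`. -/
def S_CMP : Prop := ∀ {G : Type u} [Group G] {p K : ℕ}, p.Prime → ∀ (q : G →* Cy p) {ι κ : Type w}
  [Fintype ι] [DecidableEq ι] [Fintype κ] [DecidableEq κ] (e : Matrix ι ι (LG (ZMod (p ^ K)) G))
  (e' : Matrix κ κ (LG (ZMod (p ^ K)) G)) (α : Matrix ι κ (LG (ZMod (p ^ K)) G))
  (β : Matrix κ ι (LG (ZMod (p ^ K)) G)), e * e = e → e' * e' = e' → α * β = e → β * α = e' →
  e * α = α → β * e = β → ∀ g : G, q g ≠ 1 →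
  rg q e g - rg q e' g = - tauL g (Matrix.trace (α * β.map DL))

/-- ADD (80 lines; hypothesis `S_UNI.{u, w}`). Block sums; the zero and identity matrices.

PROOF. `th` of the block matrix is the block matrix of the `th`s, the inverse too (uniqueness of the
inverse), the trace is the sum. `th q 1 = 1`, `DL 1 = 0`. -/
def S_ADD : Prop := ∀ {G : Type u} [Group G] {p K : ℕ}, p.Prime → ∀ (q : G →* Cy p) {ι κ : Type w}
  [Fintype ι] [DecidableEq ι] [Fintype κ] [DecidableEq κ] (e : Matrix ι ι (LG (ZMod (p ^ K)) G))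
  (f : Matrix κ κ (LG (ZMod (p ^ K)) G)), e * e = e → f * f = f → ∀ g : G,
  rg q (Matrix.fromBlocks e 0 0 f) g = rg q e g + rg q f g ∧
  rg q (1 : Matrix ι ι (LG (ZMod (p ^ K)) G)) g = 0

/-- FUG (70 lines; hypothesis `S_UNI.{u, w}`). Functoriality. `q' ∘ φ = q`.

PROOF. `mapL (cgm f (φ.prodMap id))` maps `E0 p e`, `E1 q e` to `E0`, `E1` of the image (check on
`single n (single g a)`), so `th` to `th`; the inverse to the inverse (`Ring.inverse` of a unit is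
preserved: uniqueness), `DL_mapL`. -/
def S_FUG : Prop := ∀ {G : Type u} {H : Type v} [Group G] [Group H] {p K K' : ℕ}, p.Prime →
  ∀ (f : ZMod (p ^ K) →+* ZMod (p ^ K')) (φ : G →* H) (q : G →* Cy p) (q' : H →* Cy p),
  q'.comp φ = q → ∀ {ι : Type w} [Fintype ι] [DecidableEq ι] (e : Matrix ι ι (LG (ZMod (p ^ K)) G)),
  e * e = e →
  OM q' (e.map (mapL (cgm f φ))) = mapL (cgm f (φ.prodMap (MonoidHom.id (Cy p)))) (OM q e)

/-- POL (90 lines; hypotheses `S_DIV.{u, w}`, `S_UNI.{u, w}`). Polynomial idempotents.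

PROOF. Positive case: all entries of `e₀, e₁, θ` are `DegGE 0` (`DegGE` of Lib_helper25/Window.lean,
`degGE_posIncl`, `DegGE.mapL`, `.mul`, `.sum`, `.add`), and `θ⁻¹ = ∑_{i<m} (1 - θ)^i` (`1 - θ` nilpotent
by `S_UNI` and `S_DIV`; here simply: `IsUnit` and nilpotent from `S_DIV`) too; `DL θ` is `DegGE 1`
(`DL` multiplies the coefficient of `t^n` by `n`). So the trace is `DegGE 1` and its coefficient of
`t^0` vanishes. Negative case: `DegLE 0`, `DegLE (-1)`. -/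
def S_POL : Prop := ∀ {G : Type u} [Group G] {p K : ℕ}, p.Prime → ∀ (q : G →* Cy p) {ι : Type w}
  [Fintype ι] [DecidableEq ι] (e : Matrix ι ι (LG (ZMod (p ^ K)) G)), e * e = e →
  ((∀ i j, DegGE 0 (e i j)) ∨ (∀ i j, DegLE 0 (e i j))) → ∀ g : G, rg q e g = 0

/-- WTX (150 lines; no hypotheses). Weights from homomorphisms of the centralizer.

PROOF. For `y` conjugate to `g` choose `γ y` with `γ y * g * (γ y)⁻¹ = y`. For `y ~ g` and any `x` the
element `(γ (x y x⁻¹))⁻¹ * x * γ y` centralizes `g`; `F x y = f` of it. `F (x x') y = F x (x' y x'⁻¹) +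
F x' y`; `F y y = f g` (`x = y`: `(γ y)⁻¹ y γ y = g`). `W x y = F y (x y)` if `x y ~ g`, `0` otherwise
(the arrow `y : x y → y (x y) y⁻¹ = y x`). `cyc`: `W x (y z) = F (y z) (x y z) = F y (z (x y z) z⁻¹) +
F z (x y z) = F y (z x y) + F z (x y z) = W (z x) y + W (x y) z`. `sym`: `W x y + W y x = F y (x y) +
F x (y x) = F (x y) (x y) = f g`. -/
def S_WTX : Prop := ∀ {G : Type u} [Group G] (g : G)
  (f : Subgroup.centralizer {g} →* Multiplicative ℤ),
  ∃ W : G → G → ℤ, IsWt g (Multiplicative.toAdd (f ⟨g, Subgroup.mem_centralizer_singleton_iff.2 rfl⟩)) W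

/-- ABT (120 lines; no hypotheses). The abstract weight identity.

PROOF. Write `τ x = B 1 x`. `B x 1 = 0` (cyc with `y = z = 1`). `τ (x y) = B x y + B y x` (cyc with
`x = 1`: `B 1 (y z) = B y z + B z y`), so `τ (x y) = τ (y x)`. `τ (D x) = 0` (`hD` with `x = 1`,
`D 1 = 0`). `B y θ' = - B (θ' * y * θ') θ` (`0 = B (y θ') (θ θ')..`: cyc gives
`B z (θ θ') = B (z θ) θ' + B (θ' z) θ`, with `z θ = y`). Put `X = θ' Dθ`, `E = θ e θ'`.
`D E = θ (D e + X e - e X) θ'`. For every `y` with `y' = θ' y θ`: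
`B y E = B y' e + B (e y' θ') θ - B (y' e θ') θ` (cyc twice). With `y = DE E - E DE`,
`y' = z e - e z`, `z = D e + X e - e X`: `e y' = e z e - e z`, `y' e = z e - e z e`, so
`B y E = B (z e - e z) e + B ((2 e z e - e z - z e) θ') θ`; now expand with `e z e = 0` (`e De e = 0`,
`e (X e - e X) e = 0`): `z = De + X e - e X`,
`B (z e - e z) e = B (De e - e De) e + B (X e - e X e - e X e + e X) e`, and
`B (u e + ..) e`: use `B (w e) e`, `B (e w) e`, `B w e = B (w e) e + B (e w) e` (cyc for `e = e e`), so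
`B (e w e) e = ..`: `B (e w e) (e) = B (e w e) e + B (e w e) e`, so `B (e w e) e = 0` and
`B (X e + e X) e = B X e` . Hence `B (z e - e z) e = B (De e - e De) e + B X e`, and
`- B ((e z + z e) θ') θ = - B (De θ' + (e X e - e X + X e - e X e) θ') θ` [`e z + z e = De + X e - e X`]
`= - B (De θ') θ + B ((e X - X e) θ') θ`. Finally (product rules)
`τ (e X) = τ(e θ' Dθ)`: `B X e - B (De θ') θ + B ((e X - X e) θ') θ = τ (e X)` follows from
`τ (e θ' D θ) = B (e θ') (Dθ) + B (Dθ) (e θ')`, `hD` for `B (e θ') θ`: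
`B (D (e θ')) θ + B (e θ') (Dθ) = 0`, `D(e θ') = De θ' - e X θ'`, and
`B (Dθ) (e θ') = B (Dθ e) θ' + B (θ' Dθ) e = B X e - B (θ' Dθ e θ') θ = B X e - B (X e θ') θ`. -/
def S_ABT : Prop := ∀ {S : Type u} [Ring S] {V : Type v} [AddCommGroup V] (D : S →+ S)
  (B : S →+ S →+ V),
  (∀ x y, D (x * y) = D x * y + x * D y) → (∀ x y z, B x (y * z) = B (x * y) z + B (z * x) y) →
  (∀ x y, B (D x) y + B x (D y) = 0) → ∀ e θ θ' : S, e * e = e → θ * θ' = 1 → θ' * θ = 1 →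
  B 1 (e * θ' * D θ) = B (D (θ * e * θ') * (θ * e * θ') - (θ * e * θ') * D (θ * e * θ')) (θ * e * θ') -
    B (D e * e - e * D e) e

end Pool.Agent.SM1
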