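import Pool.Agent.SM1.St

/-!
# MP_e40716_gt (T1): statements, part 2
-/

set_option autoImplicit false
set_option linter.unusedSectionVars false

open Matrix Pool.Agent.Lib25 Pool.Agent.KM

noncomputable section

namespace Pool.Agent.SM1

universe u v w

/-- WLP (130 lines; no hypotheses). The form `WL` of a weight, for any coefficient ring: the three
properties for matrices.

PROOF. All three are additive in `x`, `y`, `z`: check them on `single n (single a g)`
(`WL_single`, `WG_single`, `DL_single`): `WL W x (y z) = WL W (x y) z + WL W (z x) y`;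
`WL W (DL x) y + WL W x (DL y) = 0` (degrees `n + m = 0`); `WL W 1 x = v tauL g x`
(`W 1 y = v` if `y ~ g`: `W x 1 = 0` by `cyc x 1 1`). Then sum over the matrix entries
(`B X Y = ∑ i, ∑ j, WL W (X i j) (Y j i)`). `W : G → G → ℤ`, coefficients `A`. -/
def S_WLP : Prop := ∀ {A : Type} [CommRing A] {G : Type u} [Group G] (g : G) (v : ℤ) (W : G → G → ℤ),
  IsWt g v W → ∀ {ι : Type w} [Fintype ι] [DecidableEq ι],
  ∃ B : Matrix ι ι (LG A G) →+ Matrix ι ι (LG A G) →+ A,
    (∀ X Y, B X Y = ∑ i, ∑ j, WL (fun x y => (W x y : A)) (X i j) (Y j i)) ∧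
    (∀ x y z, B x (y * z) = B (x * y) z + B (z * x) y) ∧
    (∀ x y, B (x.map DL) y + B x (y.map DL) = 0) ∧
    (∀ x, B 1 x = (v : A) * tauL g (Matrix.trace x))

/-- R1C (150 lines; hypotheses `S_ABT.{max u w, 0}`, `S_WLP.{u, w}`, `S_UNI.{u, w}`). The weight
identity for `rg`.

PROOF. On `G × C_p` let `W' (x, c) (y, d) = W x y` if `c d = q g`, `0` otherwise: a weight of value `v`
at `(g, q g)` (`C_p` commutative: `(x,c)(y,d) ~ (g, q g)` iff `x y ~ g` and `c d = q g`). `B` from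
`S_WLP` for `W'` and `A = ZMod (p^K)`, `S = Matrix ι ι (LG A (G × C_p))`, `D = map DL`,
`e = E0`, `θ = th`, `θ' = Ring.inverse`: `θ e θ' = E1` by `S_UNI`. `S_ABT`:
`v rg = B 1 (e θ' Dθ) = (term of E1) - (term of E0)`. The term of `E1` is `kap W E` modulo `p^K`
(`WL` of images under `mapL (i1 ..)` and `red`: on `single`s; `c d = q x q y = q (x y) = q g` if
`x y ~ g`); the term of `E0` vanishes (`c d = 1 ≠ q g`). -/
def S_R1C : Prop := ∀ {G : Type u} [Group G] {p K : ℕ}, p.Prime → ∀ (q : G →* Cy p) (g : G) (v : ℤ)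
  (W : G → G → ℤ), IsWt g v W → q g ≠ 1 → ∀ {ι : Type w} [Fintype ι] [DecidableEq ι]
  (E : Matrix ι ι (LG ℤ G)), E * E = E →
  (v : ZMod (p ^ K)) * rg q (rd (p ^ K) E) g = ((kap W E : ℤ) : ZMod (p ^ K))

/-- FSU (60 lines; no hypotheses). `kap W E` is `0` for almost all classes.

PROOF. `F` = the products of two elements of the supports of the coefficients of the entries of
`E.map DL * E - E * E.map DL` and of `E`; if `W x y = 0` for all `x y ∈ F`, all terms vanish. -/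
def S_FSU : Prop := ∀ {G : Type u} [Group G] {ι : Type w} [Fintype ι] [DecidableEq ι]
  (E : Matrix ι ι (LG ℤ G)), ∃ F : Finset G, ∀ (g : G) (v : ℤ) (W : G → G → ℤ), IsWt g v W →
  (∀ x ∈ F, ¬ IsConj x g) → kap W E = 0

/-- SUM (200 lines; hypotheses `S_FUG.{u, 0, w}`, `S_FUG.{u, u, w}`, `S_R1C.{u, w}`, `S_FSU.{u, w}`,
`S_WTX.{u}`).  The numbers of the image in `ℤ[C_N]` are rational, independent of `p` and `K`.

PROOF. Write `Q = cN N p`, `q = Q ∘ φ`. By `S_FUG` `OM Q (rd (psh φ E)) = mapL (cgm id (φ × id)) (OM q (rd E))`,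
so `rg Q (rd (psh φ E)) (gn N) = τ_(gn, 1')(..)` = sum of the coefficients of
`z = coeffZero (OM q (rd E)) ∈ A[G × C_p]` at the `(y, c)` with `φ y = gn N`, `c = Q (gn N)`
`= ∑_[g] rg q (rd E) g`, the sum over the classes `[g]` of `G` over `gn N` which meet the support
of `z` (`Finset.sum_fiberwise` over `ConjClasses G`).
For each such `g` take `f`, `W` (`S_WTX`), `v = f g ≠ 0`: `v * rg = kap W E`. Let `F` be the finite set of
`S_FSU`, `Fc` its set of classes over `gn N`, representatives `g_1 .. g_m`, `v_i`, `W_i`. For `g` not in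
these classes: `v rg_(K+j) = 0` in `ZMod (p^(K+j))` with `j = v_p(v)`; `rg_K` is the reduction of
`rg_(K+j)` (`S_FUG` with `ZMod.castHom`), so `rg_K = 0`. So `rg Q .. = ∑_i rg q (rd E) g_i`, and with
`D = |∏ v_i|`, `a = ∑_i (D / v_i) kap W_i E` one gets `D * rg Q .. = a`. `D`, `a` do not depend on
`p`, `K`. -/
def S_SUM : Prop := ∀ {G : Type u} [Group G] (N : ℕ), 1 < N → ∀ (φ : G →* Cy N),
  (∀ g : G, φ g = gn N → ∃ f : Subgroup.centralizer {g} →* Multiplicative ℤ,
    f ⟨g, Subgroup.mem_centralizer_singleton_iff.2 rfl⟩ ≠ 1) →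
  ∀ {ι : Type w} [Fintype ι] [DecidableEq ι] (E : Matrix ι ι (LG ℤ G)), E * E = E →
  ∃ (D : ℕ) (a : ℤ), 0 < D ∧ ∀ (p K : ℕ) (hp : p.Prime) (hpN : p ∣ N),
    (D : ZMod (p ^ K)) * rg (cN N p hpN) (rd (p ^ K) (psh φ E)) (gn N) = (a : ZMod (p ^ K))

/-- RHO (180 lines; hypotheses `S_CMP.{0, w}`, `S_ADD.{0, w}`, `S_POL.{0, w}` and the same with `w = 0`).
The invariant as a homomorphism.

PROOF. On idempotent matrices `e` over `LG ℤ C_N`: `ρ e = tcl (fun p K => rg (cN N p _) (rd (p^K) e) (gn N))`.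
Equivalent matrices (`e = x y`, `f = y x`; replace `x` by `e x`, `y` by `y e`): by `S_CMP` the
difference is the reduction of the integer `- tauL gn (tr (x Dy))`, independent of `p`, `K`
(`tauL_mapL`, `DL_mapL`; `cN N p _ (gn N) = ofAdd 1 ≠ 1`). Block sums: `S_ADD` and reindexing
(`MvN.submatrix`). So a homomorphism `K0 (LG ℤ C_N) →+ TT N` (`Algebra.GrothendieckAddGroup.lift`, as in
`K0m`), `0` on the images of `K0` of the polynomial rings by `S_POL` (`degGE_posIncl`,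
`degLE_negIncl`, `DegGE.mapL`) : a homomorphism on `KNegOne` (`QuotientAddGroup.lift`). For an
index type `ι : Type w` reindex by `Fintype.equivFin` (equivalence `MvN.submatrix`; to compare
`rg` of matrices with index types in different universes do the reindexing directly:
`rg q (e.submatrix σ σ) g = rg q e g` for an equivalence `σ`). -/
def S_RHO : Prop := ∀ (N : ℕ), 1 < N → ∃ ρ : KNegOne (MonoidAlgebra ℤ (Cy N)) →+ TT N,
  ∀ {ι : Type w} [Fintype ι] [DecidableEq ι] (e : Matrix ι ι (LG ℤ (Cy N))) (he : e * e = e),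
  ρ (ngo e he) = tcl N (fun p K => rg (cN N p (Nat.dvd_of_mem_primeFactors p.2))
    (rd ((p : ℕ) ^ K) e) (gn N))

/-- RES (120 lines; no hypotheses). The restriction homomorphism.

PROOF. `θ (single x a) i j = single h a` if `(s i)⁻¹ x (s j) = φ h` for a (unique) `h`, `0` otherwise.
For fixed `x`, `j` there is exactly one `i` and one `h` with `x s_j = s_i φ h` (`Tr`). Multiplicative:
`(x y) s_j = x (s_l φ h') = s_i φ (h h')`. Build with `MonoidAlgebra.liftNCRingHom` from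
`G →* Matrix k k A[H]` and the scalars (as `tw` in KM/ADefs.lean), check `IsRes` on singles
(both sides are additive in `x`). -/
def S_RES : Prop := ∀ {A : Type} [CommRing A] {G : Type u} [Group G] {H : Type v} [Group H]
  {k : Type w} [Fintype k] [DecidableEq k] (φ : H →* G) (s : k → G), Tr φ s →
  ∃ θ : MonoidAlgebra A G →+* Matrix k k (MonoidAlgebra A H), IsRes φ s θ

/-- RCM (100 lines; no hypotheses). Compatibilities of restriction homomorphisms.

PROOF. (1) coefficientwise; additive in `x`; or: both sides have the coefficient `f (x (s_i φ h s_j⁻¹))`.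
(2) `Tr`: `π` surjective on cosets: `g = s_j y` with `y ∈ G'` iff `π g = π(s_j) φ' h`: `π g = π s_j φ h`
for unique `j`, `h`, and `y = s_j⁻¹ g ∈ G'`. (3) on `x = single g 1`: the `(i,j)` entry of the left
side is `single (q y) 1` if `y = s_i⁻¹ g s_j ∈ G'`, and `π y = φ (q y)`. -/
def S_RCM : Prop :=
  (∀ {A B : Type} [CommRing A] [CommRing B] {G : Type v} [Group G] {H : Type} [Group H]
    {k : Type v} [Fintype k] [DecidableEq k] (φ : H →* G) (s : k → G) (f : A →+* B)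
    (θ : MonoidAlgebra A G →+* Matrix k k (MonoidAlgebra A H))
    (θ' : MonoidAlgebra B G →+* Matrix k k (MonoidAlgebra B H)), IsRes φ s θ → IsRes φ s θ' →
    ∀ x, θ' (cgm f (MonoidHom.id G) x) = (θ x).map (cgm f (MonoidHom.id H))) ∧
  (∀ {G : Type u} [Group G] {Q : Type v} [Group Q] {C : Type} [Group C] (π : G →* Q) (φ : C →* Q)
    {k : Type v} [Fintype k] [DecidableEq k] (s : k → G), Tr φ (fun i => π (s i)) →
    Tr (φ.range.comap π).subtype s ∧
    ∃ q : (φ.range.comap π) →* C, (∀ y, φ (q y) = π y) ∧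
      ∀ (θ : MonoidAlgebra ℤ G →+* Matrix k k (MonoidAlgebra ℤ (φ.range.comap π)))
        (θ' : MonoidAlgebra ℤ Q →+* Matrix k k (MonoidAlgebra ℤ C)),
        IsRes (φ.range.comap π).subtype s θ → IsRes φ (fun i => π (s i)) θ' →
        ∀ x, θ' (grm π x) = (θ x).map (grm q))

/-- TRF (100 lines; no hypotheses). The trace of a restriction.

PROOF. `c = #{i | s_i φ h (s_i)⁻¹ = φ h}`, positive: by `Tr` some `i` and `h'` have `1 = s_i φ h'`,
`s_i = φ h'⁻¹`, and `H` is commutative. On `x = single 0 (single y a)` (`lau_single`; degrees `≠ 0`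
give `0` on both sides): the trace has at `h` the coefficient `#{i | s_i φ h s_i⁻¹ = y} a`
(`IsRes`). If `y` is not conjugate to `φ h` this is `0`; if `y = z φ h z⁻¹` the map `i ↦ i'`,
`z s_i ∈ s_i' φ(H)`, is a bijection of `{i | s_i φ h s_i⁻¹ = φ h}` with `{i' | s_i' φ h s_i'⁻¹ = y}`
(`H` commutative). In `H` conjugate elements are equal. -/
def S_TRF : Prop := ∀ {G : Type v} [Group G] {H : Type} [CommGroup H] {k : Type v} [Fintype k]
  [DecidableEq k] (φ : H →* G) (s : k → G), Tr φ s → ∀ h : H, ∃ c : ℕ, 0 < c ∧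
  ∀ {A : Type} [CommRing A] (θ : MonoidAlgebra A G →+* Matrix k k (MonoidAlgebra A H)),
  IsRes φ s θ → ∀ x : LG A G, tauL h (Matrix.trace (lau θ x)) = (c : A) * tauL (φ h) x

/-- TRV (150 lines; hypotheses `S_CMP.{0, v}`, `S_ADD.{0, v}`, `S_RES.{v, 0, v}`, `S_RCM.{u, v}`,
`S_TRF.{v}`).  The invariant of a matrix with a trivialisation over `ℤ_p`.

PROOF. `α β = E`, `β α = 1` over `LG ℤ_[p] Q` (`TrivOver`). Reduce modulo `p ^ K`
(`PadicInt.toZModPow K`), apply `blow (lau θ_K)`, `θ_K` the restriction over `ZMod (p ^ K)` (`S_RES`):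
`α' β' = rd (blow (lau θ) E)` (`S_RCM` (1) twice), `β' α' = 1`. `S_CMP`, `S_ADD` (`rg 1 = 0`):
`rg = - tauL gn (tr (α' Dβ')) = tauL gn (tr (β' Dα'))` (the sum is `tauL (DL (tr (β' α'))) = 0`, up to
`tauL_mul_comm`), `= c * tauL (φ gn) (tr (β Dα))` mod `p ^ K` by `S_TRF`
(`tr (blow (lau θ) Y) = tr (lau θ (tr Y))`, `DL` commutes with `lau`), `= c z(φ gn)`. `c` is the `c` of
`S_TRF` for `h = gn N`. -/
def S_TRV : Prop := ∀ {Q : Type v} [Group Q] (N : ℕ), 1 < N → ∀ (φ : Cy N →* Q) {k : Type v}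
  [Fintype k] [DecidableEq k] (s : k → Q), Tr φ s →
  ∀ (θ : MonoidAlgebra ℤ Q →+* Matrix k k (MonoidAlgebra ℤ (Cy N))), IsRes φ s θ →
  ∃ c : ℕ, 0 < c ∧ ∀ (n : ℕ) (E : Matrix (Fin n) (Fin n) (LG ℤ Q)), E * E = E →
  ∀ (p : ℕ) [Fact p.Prime] (hpN : p ∣ N) (z : Q → ℤ_[p]), TrivOver ℤ_[p] E z → ∀ K : ℕ,
  rg (cN N p hpN) (rd (p ^ K) (blow (lau θ) E)) (gn N) =
    (c : ZMod (p ^ K)) * PadicInt.toZModPow K (z (φ (gn N)))

/-- `h` is not the image of an element of finite order. -/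
def NoFin {G : Type u} [Group G] {Q : Type v} [Group Q] (π : G →* Q) (h : Q) : Prop :=
  ∀ g : G, π g = h → ¬ IsOfFinOrder g

/-- The hypothesis (Z1): every `g` over an `h` which is not the image of an element of finite order
has a homomorphism `f : Z_G(g) → ℤ` with `f g ≠ 0`. -/
def Z1 {G : Type u} [Group G] {Q : Type v} [Group Q] (π : G →* Q) : Prop :=
  ∀ g : G, NoFin π (π g) → ∃ f : Subgroup.centralizer {g} →* Multiplicative ℤ,
    f ⟨g, Subgroup.mem_centralizer_singleton_iff.2 rfl⟩ ≠ 1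

/-- NUM (200 lines; hypotheses `S_SUM.{u, v}`, `S_RHO.{v}`, `S_RES`, `S_RCM.{u, v}`, `S_TRV.{v}`).

PROOF. Let `h` with `orderOf h = N > 1` (`p ∣ orderOf h`) and `NoFin π h` (otherwise `y h = 0`),
`φ : C_N → Q`, `gn ↦ h`, injective. `k = Q ⧸ φ.range` (finite), `s i ∈ G` with `π (s i)` a representative of
`i` (`π` surjective): `Tr φ (π ∘ s)`. `G' = φ.range.comap π`, `q : G' → C_N`, `θ`, `θ'` from `S_RES`,
`S_RCM`: `Kn θ' ∘ Kg π = Kg q ∘ Kn θ` on `KNegOne ℤ[G]` (`KNegOne_hom_ext`, `Kn_ngo`, `map_ngo`). `ρ` from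
`S_RHO`, `R = ρ ∘ Kn θ'`. For `x = mk z`, `z = [F] - [F']` (`K0.exists_sub`): `Kg q (Kn θ x) =
ngo (psh q (blow (lau θ) F)) - ngo (..F')`, `S_SUM` for `q : G' → C_N` (an element `g ∈ G'` with
`q g = gn` lies over `h`; restrict `f` of `Z1` to the centralizer in `G'`) gives `D`, `a`, `D'`, `a'`:
`(D D') • R (Kg π x) = 0` (the family is constant: `tcl_eq_zero`). `X = [E] - [1_k]`, `TrivOver ℤ_[p] E z_p`,
`w p = y - z_p`: `R (mk X) = tcl (c z_p(h) mod p^K)` by `S_TRV` (`rg` of the identity matrix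
is `0`: `S_ADD`, or `S_TRV` for the identity matrix, `z = 0`). `R (mk X) = m R (Kg π x)`, so
`D D' c z_p(h) = a` in all `ZMod (p^K)`, `a ∈ ℤ` independent of `p`, `K`: `z_p(h) = a/(D D' c)` in `ℚ_[p]`
(`PadicInt.ext_of_toZModPow`), `w p h = y h - a/(D D' c)`. -/
def S_NUM : Prop := ∀ {G : Type u} [Group G] {Q : Type v} [Group Q] [Finite Q] (π : G →* Q),
  Function.Surjective π → Z1 π → ∀ (z : K0 (LG ℤ G)) (X : K0 (LG ℤ Q)) (m : ℕ),
  KNegOne.mk X = m • KNegOne.mk (K0.map (mapL (grm π)) z) →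
  ∀ w : ∀ (p : ℕ) [Fact p.Prime], Q → ℚ_[p], Triv X w →
  ∃ y : Q → ℚ, ∀ (p : ℕ) [Fact p.Prime] (h : Q), p ∣ orderOf h → NoFin π h → w p h = (y h : ℚ_[p])

/-- TR2 (ADAPTATION of `t_TRL`, KM/P_TRL.lean; no hypotheses). The relation with an exceptional set
`T`, on which `L` vanishes.

PROOF. Exactly the proof of `t_TRL`: instead of `detection htriv hmem` use the hypothesis `hX` (for
`w = ∑ c_j w_j`); `star` only for `h0 ∉ T`; in `main j0`: if `hh j0 ∈ T` then all `hh j` with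
`cz (hh j) = cz (hh j0)` are in `T` (`cz` equal: conjugate to a generator of the same cyclic group,
`exists_unit_of_cz`), so every term of the sum is `0`. -/
def S_TR2 : Prop := ∀ {G : Type v} [Group G] (N : ℕ → ℕ)
  (x : ∀ n : ℕ, ℕ → K0 (LaurentPolynomial (MonoidAlgebra ℤ (Multiplicative (ZMod n))))),
  (∀ n, 0 < n → 0 < N n) → (∀ (n : ℕ) [NeZero n], LocN.{v} n (N n) (x n)) →
  ∀ (L : ℕ → G → ℚ), AdmM L → ∀ (T : Set G), (∀ h ∈ T, ∀ g, g * h * g⁻¹ ∈ T) →
  (∀ h ∈ T, ∀ n : ℕ, h ^ n ∈ T) → (∀ h ∈ T, ∀ p ∈ (orderOf h).primeFactors, L p h = 0) →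
  ∀ c : IdxM G →₀ ℤ,
  (∀ w : ∀ (p : ℕ) [Fact p.Prime], G → ℚ_[p],
    Triv (∑ j ∈ c.support, c j • K0.map (mapL (grm j.φ)) (x j.n j.p)) w →
    ∃ y : G → ℚ, ∀ (p : ℕ) [Fact p.Prime] (h : G), IsOfFinOrder h → p ∣ orderOf h → h ∉ T →
      w p h = (y h : ℚ_[p])) →
  (c.sum fun j m => (m : ℚ) * L j.p (j.φ (gn j.n))) = 0

/-- GEN (200 lines; hypotheses `S_TKA.{v}`, `S_TRL.{v}`, `S_TFI.{v}`, `S_ZAD.{v}`).  A functional on
`K_{-1}(ℤ[Q])` in terms of the universal classes, and generation.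

PROOF. `N`, `x` from `S_TKA` as in `t_TAV`; `κ0 n p = mk (x n p)`, `κ = kap κ0`, `ω = omg`
(`Pool.Agent.KM.TAV`, KM/P_TAV.lean: `functional_kap3`, `kap_eq`, `omg_eq`, `tw_kap3`, `sum_kap3`, `detG`,
`admM_ulift` for the groups in `Type`). Let `l` be a functional. `S_ZAD` for `Λ = l ∘ asm Q` gives `L`
admissible with `ω N * L p (φ gn) = Λ (scl φ κ) = l (Kg φ κ)` (`asm_scl`). `S_TRL` and
`exists_functional` give `F` with `F (Kg φ (κ0 n p)) = L p (φ gn)`, so `F (Kg φ (κ N p)) = ω N L p (φ gn)`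
(`functional_kap3`), and `l = F` by `S_TFI` for `l - F`. This is (1); the value of `L` at `h` of order
`n > 1`, `p ∣ n` is `l (Kg φ (κ n p)) / ω n` for `φ gn = h`, so it is `0` if `l` vanishes on the image of
`K_{-1}(ℤ[zpowers h])` (`φ` factors through the subgroup). (2) Let `S` be the subgroup of the integral combinations of
the `Kg j.φ (mk (x j.n j.p))`. If no positive multiple of `z` is in `S`, there is a functional `l` with
`l = 0` on `S` and `l z = 1` (`exists_functional` on `K ⧸ S`); `l` vanishes on the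
`Kg φ (κ N p)` (combinations of the `Kg (φ ∘ pwr) (κ0 ..)`), so `l = 0` by `S_TFI`. -/
def S_GEN : Prop := ∀ (Q : Type v) [Group Q] [Finite Q], ∃ (N : ℕ → ℕ)
  (x : ∀ n : ℕ, ℕ → K0 (LaurentPolynomial (MonoidAlgebra ℤ (Multiplicative (ZMod n))))),
  (∀ n, 0 < n → 0 < N n) ∧ (∀ (n : ℕ) [NeZero n], LocN.{v} n (N n) (x n)) ∧
  (∀ l : KNegOne (MonoidAlgebra ℤ Q) →+ ℚ, ∃ L : ℕ → Q → ℚ, AdmM L ∧
    (∀ j : IdxM Q, l (Kg j.φ (KNegOne.mk (x j.n j.p))) = L j.p (j.φ (gn j.n))) ∧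
    ∀ h : Q, (∀ y, l (Kg (Subgroup.zpowers h).subtype y) = 0) →
      ∀ p ∈ (orderOf h).primeFactors, L p h = 0) ∧
  ∀ z : KNegOne (MonoidAlgebra ℤ Q), ∃ m : ℕ, 0 < m ∧ ∃ c : IdxM Q →₀ ℤ,
    m • z = c.sum fun j n => n • Kg j.φ (KNegOne.mk (x j.n j.p))

/-- The subgroup of `K_{-1}(ℤ[Q])` generated by the images of the `K_{-1}(ℤ[π(H)])`, `H` a finite
subgroup of `G`. -/
def finImg {G : Type u} [Group G] {Q : Type v} [Group Q] (π : G →* Q) :
    AddSubgroup (KNegOne (MonoidAlgebra ℤ Q)) :=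
  ⨆ H : {H : Subgroup G // Finite H}, (Kg (H.1.map π).subtype).range

/-- FNS (150 lines; hypotheses `S_NUM.{u, v}`, `S_TR2.{v}`, `S_GEN.{v}`).  The theorem for surjective `π`.

PROOF. `T = {h | ∃ g of finite order, π g = h}`: closed under conjugation (`π` surjective) and powers.
Suppose no positive multiple of `y = Kg π x` is in `S = finImg π`; `exists_functional` on the quotient
by `S`: `l = 0` on `S`, `l y = 1`. `L` from `S_GEN` (1); for `h ∈ T`, `h = π g`, `zpowers h = (zpowers g).map π`,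
`zpowers g` finite: `l` vanishes on the image of `K_{-1}(ℤ[zpowers h])`, so `L p h = 0` for
`p ∣ orderOf h`. `m y = ∑ c_j Kg φ_j (mk x_j)` (2) `= mk X`, `X = ∑ c_j K0.map .. x_j`. `S_NUM` is the
hypothesis of `S_TR2` (`h ∉ T` iff `NoFin π h`), so `0 = ∑ c_j L_j = l (m y) = m`, a contradiction. -/
def S_FNS : Prop := ∀ {G : Type u} [Group G] {Q : Type v} [Group Q] [Finite Q] (π : G →* Q),
  Function.Surjective π → Z1 π → ∀ x : KNegOne (MonoidAlgebra ℤ G),
  ∃ n : ℕ, 0 < n ∧ n • Kg π x ∈ finImg π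

/-- FNL (60 lines; hypothesis `S_FNS.{u, v}`).  The theorem for any `π` with `Z1`.

PROOF. `π = (subtype of the range) ∘ (π.rangeRestrict)`; `Z1` for `π.rangeRestrict` follows from
`Z1 π` (`NoFin` is the same condition); `Kg_comp`, and `Kg (range).subtype` maps `finImg` of the
corestriction into `finImg π` (`AddSubgroup.map_iSup` or `iSup` induction; `H.map π.rangeRestrict`
is isomorphic to `H.map π` over `Q`). -/
def S_FNL : Prop := ∀ {G : Type u} [Group G] {Q : Type v} [Group Q] [Finite Q] (π : G →* Q),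
  Z1 π → ∀ x : KNegOne (MonoidAlgebra ℤ G), ∃ n : ℕ, 0 < n ∧ n • Kg π x ∈ finImg π

/-- The hypothesis of the theorem: `Z1` on a cofinal family of subgroups. -/
def LZ {G : Type u} [Group G] {Q : Type v} [Group Q] (π : G →* Q) : Prop :=
  ∀ G0 : Subgroup G, G0.FG → ∃ G1 : Subgroup G, G0 ≤ G1 ∧ Z1 (π.comp G1.subtype)

/-- COL (100 lines; no hypotheses).  Every element of `K_{-1}(ℤ[G])` comes from a finitely generated
subgroup.

PROOF. `x = mk z`, `z = [E] - [F]` (`K0.exists_sub`). `G0` = the subgroup generated by the supports of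
the coefficients of the entries of `E`, `F` (finitely many elements). For `G0 ≤ G1` the entries are
images under `mapL (grm G1.subtype)` (`lmk` of KM/Defs.lean and sums of singles), so `E = E'.map ..`;
`mapL (grm G1.subtype)` is injective, so `E'` is idempotent. -/
def S_COL : Prop := ∀ {G : Type u} [Group G] (x : KNegOne (MonoidAlgebra ℤ G)),
  ∃ G0 : Subgroup G, G0.FG ∧ ∀ G1 : Subgroup G, G0 ≤ G1 →
    ∃ x1 : KNegOne (MonoidAlgebra ℤ G1), Kg G1.subtype x1 = x

/-- FIN (40 lines; hypotheses `S_FNL.{u, v}`, `S_COL.{u}`).  **The theorem.**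

PROOF. `x = Kg G1.subtype x1` with `Z1 (π ∘ G1.subtype)`; `finImg (π ∘ G1.subtype) ≤ finImg π`
(`H ≤ G1` finite: `H.map G1.subtype` is finite and has the same image in `Q`). -/
def S_FIN : Prop := ∀ {G : Type u} [Group G] {Q : Type v} [Group Q] [Finite Q] (π : G →* Q),
  LZ π → ∀ x : KNegOne (MonoidAlgebra ℤ G), ∃ n : ℕ, 0 < n ∧ n • Kg π x ∈ finImg π

/-- TOR (60 lines; hypotheses `S_FIN.{u, v}`, `S_TFI.{v}`, `S_TAV.{v}`).  The torsion free case.

PROOF. Every finite `H ≤ G` is trivial, `H.map π` is trivial, and `K_{-1}(ℤ[P])` is torsion for a trivial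
group `P`: otherwise there is a functional `l ≠ 0` (`exists_functional` of Lib_helper25/Final0.lean
for a one element family), but `l = 0` by `S_TFI` (with `κ`, `ω` of `S_TAV`): there is no injective
homomorphism `C_M → P` with `M > 1`. -/
def S_TOR : Prop := ∀ {G : Type u} [Group G] {Q : Type v} [Group Q] [Finite Q] (π : G →* Q),
  (∀ g : G, g ≠ 1 → ¬ IsOfFinOrder g) → LZ π → ∀ x : KNegOne (MonoidAlgebra ℤ G),
  ∃ n : ℕ, 0 < n ∧ n • Kg π x = 0

end Pool.Agent.SM1
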