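import Pool.Agent.SM1.St2

/-!
# MP_e40716_gt (T1): statements, part 3: the form with the assembly map itself

The image of `x` has a positive multiple in the image of the assembly map of `G` (not only in the
image of the groups `K_{-1}(ℤ[π(H)])`).  Idea: the universal classes at the level `n` may be replaced
by the images of the universal classes at the level `n M` under the reduction `C_(nM) → C_n`.
-/

set_option autoImplicit false
set_option linter.unusedSectionVars false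

open Matrix Pool.Agent.Lib25 Pool.Agent.KM

noncomputable section

namespace Pool.Agent.SM1

universe u v w

/-- LPF (130 lines; no hypotheses).  The local property is stable under the reduction `C_n' → C_n`.

PROOF.  `p ∣ n`.  `t'` for `n'`; `red = ZMod.unitsMap h : (ZMod n')ˣ →* (ZMod n)ˣ`; `t u = ∑_{red u' = u} t' u'`.
(1) `∑_u t u Y u = y` means `∑_u' t' u' Y (red u') = y`, so
`N ∑_{u' ~ z'} Y (red u') = y #{u' ~ z'}` for `z'` over `z` (`ZMod.unitsMap_surjective`); the map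
`red : {u' | uR n' p u' z'} → {u | uR n p u z}` is onto with fibres of the same size `c > 0`
(multiplication by `u0' u1'⁻¹`; the relation `uR n' p` is multiplicative), so divide by `c`. Onto: `n' = p^a m'`,
`p ∤ m'`, `u p^j = z p^k` in `ZMod n`: by `ZMod.chineseRemainder` there is a unit `w` of `ZMod n'` equal to
`z' p^k p^(-j)` in `ZMod m'` and to a lift of `u` in `ZMod (p^a)`; `w p^(j+a) = z' p^(k+a)` and
`red w = u` (modulo the part of `n` prime to `p` and modulo the `p`-part).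
(2) for `ψ : C_n → G`: `K0.map (mapL (grm ψ)) (K0.map (mapL (grm a)) (x p)) =
K0.map (mapL (grm (ψ.comp a))) (x p)` (`K0.map_map`, `mapL_comp`, `grm_comp`); `w` from the
hypothesis for `ψ.comp a`; `(ψ.comp a) (gn n') ^ u'.val = ψ (gn n) ^ (red u').val` (`gn n ^ n = 1`). -/
def S_LPF : Prop := ∀ (n n' : ℕ) [NeZero n] [NeZero n'] (h : n ∣ n') (N : ℕ)
  (x : ℕ → K0 (LG ℤ (Cy n'))), LocN.{v} n' N x →
  LocN.{v} n N (fun p => K0.map (mapL (grm (cN n' n h))) (x p))

/-- GEN2 (ADAPTATION of `t_GEN`; hypotheses `S_TRL.{v}`, `S_TFI.{v}`, `S_ZAD.{v}`).  The same for an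
arbitrary family of universal classes. -/
def S_GEN2 : Prop := ∀ (N : ℕ → ℕ)
  (x : ∀ n : ℕ, ℕ → K0 (LaurentPolynomial (MonoidAlgebra ℤ (Multiplicative (ZMod n))))),
  (∀ n, 0 < n → 0 < N n) → (∀ (n : ℕ) [NeZero n], LocN.{v} n (N n) (x n)) →
  ∀ (Q : Type v) [Group Q] [Finite Q],
  (∀ l : KNegOne (MonoidAlgebra ℤ Q) →+ ℚ, ∃ L : ℕ → Q → ℚ, AdmM L ∧
    (∀ j : IdxM Q, l (Kg j.φ (KNegOne.mk (x j.n j.p))) = L j.p (j.φ (gn j.n)))) ∧
  ∀ z : KNegOne (MonoidAlgebra ℤ Q), ∃ m : ℕ, 0 < m ∧ ∃ c : IdxM Q →₀ ℤ,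
    m • z = c.sum fun j n => n • Kg j.φ (KNegOne.mk (x j.n j.p))

/-- FNS2 (150 lines; hypotheses `S_NUM.{u, v}`, `S_TR2.{v}`, `S_GEN2.{v}`, `S_LPF.{v}`, `S_TKA.{v}`).  The
theorem for surjective `π`.

PROOF.  As `t_FNS`, with `S` the image of `Kg π ∘ asm G` and the family
`x̃ n p = K0.map (mapL (grm (cN (n * M) n _))) (x (n * M) p)`, `M` a common multiple of the orders of
elements `g_h` of finite order with `π g_h = h`, one for each `h ∈ T` (`Q` is finite): if `n = orderOf h`,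
`φ gn = h`, then `φ ∘ cN (n M) n` maps `gn` to `h`, so it is `π ∘ ψ` with `ψ gn = g_h`,
`Kg φ (mk (x̃ n p)) = Kg π (Kg ψ (mk (x (n M) p))) = Kg π (asm (scl ψ ..))`. -/
def S_FNS2 : Prop := ∀ {G : Type u} [Group G] {Q : Type v} [Group Q] [Finite Q] (π : G →* Q),
  Function.Surjective π → Z1 π → ∀ x : KNegOne (MonoidAlgebra ℤ G),
  ∃ (n : ℕ) (s : Src G), 0 < n ∧ n • Kg π x = Kg π (asm G s)

/-- FIN2 (60 lines; hypotheses `S_FNS2.{u, v}`, `S_COL.{u}`).  **The theorem.** -/
def S_FIN2 : Prop := ∀ {G : Type u} [Group G] {Q : Type v} [Group Q] [Finite Q] (π : G →* Q),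
  LZ π → ∀ x : KNegOne (MonoidAlgebra ℤ G),
  ∃ (n : ℕ) (s : Src G), 0 < n ∧ n • Kg π x = Kg π (asm G s)

end Pool.Agent.SM1
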